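import Pool.Agent.QPH.Defs

/-!
Row W: the weighted integral of a negative power of a quadratic form, uniformly in the form.
-/

namespace Pool.Agent.QPH

open MeasureTheory Set Metric Pool.Agent.MP_6cbfb8_an
open scoped ENNReal NNReal Real

lemma W_rpow_anti {x y : ℝ≥0∞} {s : ℝ} (hs : 0 ≤ s) (h : x ≤ y) : y ^ (-s) ≤ x ^ (-s) := by
  rw [ENNReal.rpow_neg, ENNReal.rpow_neg]
  exact ENNReal.inv_le_inv.2 (ENNReal.rpow_le_rpow h hs)

lemma W_ae_ne_real (c : ℝ) : ∀ᵐ v : ℝ, v ≠ c := by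
  have : volume ({c} : Set ℝ) = 0 := by simp
  rw [measure_eq_zero_iff_ae_notMem] at this
  filter_upwards [this] with v hv h
  exact hv (by simp [h])

/-- the local integral of the power -/
lemma W_local_pow {t : ℝ} (ht : t < 1) :
    ∫⁻ v in ball (0 : ℝ) 2, ENNReal.ofReal |v| ^ (-t) ≠ ⊤ := by
  have h1 : IntegrableOn (fun x : ℝ => ‖x‖ ^ (-t)) (ball (0 : ℝ) 2) volume := by
    refine (integrableOn_fun_norm_addHaar (volume : Measure ℝ) (f := fun x : ℝ => x ^ (-t))).2 ?_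
    have h2 : IntervalIntegrable (fun x : ℝ => x ^ (-t)) volume 0 2 :=
      intervalIntegral.intervalIntegrable_rpow' (by linarith)
    have h3 := (intervalIntegrable_iff_integrableOn_Ioo_of_le (by norm_num : (0:ℝ) ≤ 2)).1 h2
    simpa using h3
  have h2 : ∫⁻ v in ball (0 : ℝ) 2, ENNReal.ofReal |v| ^ (-t)
      = ∫⁻ v in ball (0 : ℝ) 2, ENNReal.ofReal (‖v‖ ^ (-t)) := by
    refine lintegral_congr_ae ?_
    filter_upwards [ae_restrict_of_ae (W_ae_ne_real 0)] with v hv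
    rw [ENNReal.ofReal_rpow_of_pos (abs_pos.2 hv), Real.norm_eq_abs]
  rw [h2]
  exact h1.lintegral_lt_top.ne

lemma W_gauss_one (c : ℝ) (hc : 0 < c) : ∫⁻ v : ℝ, ENNReal.ofReal (Real.exp (-c * v ^ 2)) ≠ ⊤ :=
  (integrable_exp_neg_mul_sq hc).lintegral_lt_top.ne

/-- one-dimensional kernel bound, uniform in the centre -/
lemma W_one_kernel {t : ℝ} (ht0 : 0 ≤ t) (ht : t < 1) :
    ∃ C : ℝ≥0∞, C ≠ ⊤ ∧ ∀ γ : ℝ,
      ∫⁻ v : ℝ, ENNReal.ofReal (Real.exp (-1 * v ^ 2)) * ENNReal.ofReal |v - γ| ^ (-t) ≤ C := by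
  refine ⟨(∫⁻ v in ball (0 : ℝ) 2, ENNReal.ofReal |v| ^ (-t))
    + ∫⁻ v : ℝ, ENNReal.ofReal (Real.exp (-1 * v ^ 2)),
    ENNReal.add_ne_top.2 ⟨W_local_pow ht, W_gauss_one 1 one_pos⟩, fun γ => ?_⟩
  set F : ℝ → ℝ≥0∞ := (ball (0 : ℝ) 2).indicator (fun v => ENNReal.ofReal |v| ^ (-t)) with hF
  have hFm : Measurable F := by
    refine Measurable.indicator ?_ measurableSet_ball
    fun_prop
  have key : ∀ v : ℝ, ENNReal.ofReal (Real.exp (-1 * v ^ 2)) * ENNReal.ofReal |v - γ| ^ (-t)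
      ≤ F (v - γ) + ENNReal.ofReal (Real.exp (-1 * v ^ 2)) := by
    intro v
    by_cases h : v - γ ∈ ball (0 : ℝ) 2
    · have h1 : F (v - γ) = ENNReal.ofReal |v - γ| ^ (-t) := by
        rw [hF, indicator_of_mem h]
      rw [h1]
      refine le_trans ?_ (le_add_right le_rfl)
      refine le_trans (mul_le_mul_left ?_ _) (one_mul _).le
      rw [← ENNReal.ofReal_one]
      apply ENNReal.ofReal_le_ofReal
      rw [Real.exp_le_one_iff]
      nlinarith [sq_nonneg v]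
    · refine le_trans ?_ (le_add_left le_rfl)
      refine le_trans (mul_le_mul_right ?_ _) (mul_one _).le
      have h2 : (1 : ℝ≥0∞) ≤ ENNReal.ofReal |v - γ| := by
        rw [← ENNReal.ofReal_one]
        apply ENNReal.ofReal_le_ofReal
        rw [mem_ball, dist_zero_right, Real.norm_eq_abs, not_lt] at h
        linarith
      calc ENNReal.ofReal |v - γ| ^ (-t) ≤ 1 ^ (-t) := W_rpow_anti ht0 h2
        _ = 1 := ENNReal.one_rpow _
  calc ∫⁻ v : ℝ, ENNReal.ofReal (Real.exp (-1 * v ^ 2)) * ENNReal.ofReal |v - γ| ^ (-t)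
      ≤ ∫⁻ v : ℝ, (F (v - γ) + ENNReal.ofReal (Real.exp (-1 * v ^ 2))) := lintegral_mono key
    _ = (∫⁻ v : ℝ, F (v - γ)) + ∫⁻ v : ℝ, ENNReal.ofReal (Real.exp (-1 * v ^ 2)) := by
        rw [lintegral_add_left]
        exact hFm.comp (measurable_id.sub_const γ)
    _ = _ := by
        rw [lintegral_sub_right_eq_self F γ, hF, lintegral_indicator measurableSet_ball]

lemma W_sq_rpow_neg {x : ℝ} (hx : 0 ≤ x) (s : ℝ) :
    ENNReal.ofReal (x ^ 2) ^ (-s) = ENNReal.ofReal x ^ (-(2 * s)) := by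
  rw [ENNReal.ofReal_pow hx, ← ENNReal.rpow_natCast, ← ENNReal.rpow_mul]
  congr 1
  push_cast; ring

/-- one variable, quadratic polynomial without linear term -/
lemma W_quad_one {s : ℝ} (hs0 : 0 ≤ s) (hs : s < 1 / 2) :
    ∃ C : ℝ≥0∞, C ≠ ⊤ ∧ ∀ c b : ℝ, c ≠ 0 →
      ∫⁻ v : ℝ, ENNReal.ofReal (Real.exp (-1 * v ^ 2)) * ENNReal.ofReal |c * v ^ 2 + b| ^ (-s)
        ≤ C * ENNReal.ofReal |c| ^ (-s) := by
  obtain ⟨C, hC, h1⟩ := W_one_kernel (t := 2 * s) (by linarith) (by linarith)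
  refine ⟨C + C, ENNReal.add_ne_top.2 ⟨hC, hC⟩, fun c b hc => ?_⟩
  set β := b / c with hβ
  set γ := Real.sqrt (-β) with hγ
  have hγ0 : 0 ≤ γ := Real.sqrt_nonneg _
  have e1 : ∀ v : ℝ, |c * v ^ 2 + b| = |c| * |v ^ 2 + β| := by
    intro v
    rw [← abs_mul]
    congr 1
    rw [hβ]; field_simp
  have e2 : ∀ v : ℝ, ENNReal.ofReal |v ^ 2 + β| ^ (-s)
      ≤ ENNReal.ofReal |v - γ| ^ (-(2 * s)) + ENNReal.ofReal |v - (-γ)| ^ (-(2 * s)) := by
    intro v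
    have e3 : |v - γ| ^ 2 ≤ |v ^ 2 + β| ∨ |v - (-γ)| ^ 2 ≤ |v ^ 2 + β| := by
      by_cases hb : 0 ≤ β
      · have : γ = 0 := Real.sqrt_eq_zero_of_nonpos (by linarith)
        left
        rw [this, sub_zero, sq_abs]
        exact le_trans (by linarith) (le_abs_self _)
      · have hg2 : γ ^ 2 = -β := Real.sq_sqrt (by linarith)
        have e4 : v ^ 2 + β = (v - γ) * (v + γ) := by nlinarith
        rw [e4, abs_mul, sub_neg_eq_add]
        rcases le_total 0 v with hv | hv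
        · left
          rw [pow_two]
          apply mul_le_mul_of_nonneg_left _ (abs_nonneg _)
          rw [abs_of_nonneg (add_nonneg hv hγ0), abs_le]
          constructor <;> linarith
        · right
          rw [pow_two]
          apply mul_le_mul_of_nonneg_right _ (abs_nonneg _)
          rw [abs_of_nonpos (by linarith : v - γ ≤ 0), abs_le]
          constructor <;> linarith
    rcases e3 with h | h
    · refine le_trans ?_ (le_add_right le_rfl)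
      rw [← W_sq_rpow_neg (abs_nonneg _)]
      exact W_rpow_anti hs0 (ENNReal.ofReal_le_ofReal h)
    · refine le_trans ?_ (le_add_left le_rfl)
      rw [← W_sq_rpow_neg (abs_nonneg _)]
      exact W_rpow_anti hs0 (ENNReal.ofReal_le_ofReal h)
  have e5 : ∀ v : ℝ, ENNReal.ofReal |c * v ^ 2 + b| ^ (-s)
      = ENNReal.ofReal |c| ^ (-s) * ENNReal.ofReal |v ^ 2 + β| ^ (-s) := by
    intro v
    rw [e1, ENNReal.ofReal_mul (abs_nonneg _)]
    rw [ENNReal.mul_rpow_of_ne_top ENNReal.ofReal_ne_top ENNReal.ofReal_ne_top]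
  have hcp : ENNReal.ofReal |c| ^ (-s) ≠ ⊤ := by
    rw [ENNReal.ofReal_rpow_of_pos (abs_pos.2 hc)]
    exact ENNReal.ofReal_ne_top
  calc ∫⁻ v : ℝ, ENNReal.ofReal (Real.exp (-1 * v ^ 2)) * ENNReal.ofReal |c * v ^ 2 + b| ^ (-s)
      ≤ ∫⁻ v : ℝ, ENNReal.ofReal |c| ^ (-s) *
        ((ENNReal.ofReal (Real.exp (-1 * v ^ 2)) * ENNReal.ofReal |v - γ| ^ (-(2 * s)))
          + (ENNReal.ofReal (Real.exp (-1 * v ^ 2)) * ENNReal.ofReal |v - (-γ)| ^ (-(2 * s)))) := by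
        refine lintegral_mono fun v => ?_
        rw [e5, ← mul_add, mul_left_comm]
        exact mul_le_mul_right (mul_le_mul_right (e2 v) _) _
    _ = ENNReal.ofReal |c| ^ (-s) *
        ((∫⁻ v : ℝ, ENNReal.ofReal (Real.exp (-1 * v ^ 2)) * ENNReal.ofReal |v - γ| ^ (-(2 * s)))
          + ∫⁻ v : ℝ, ENNReal.ofReal (Real.exp (-1 * v ^ 2))
            * ENNReal.ofReal |v - (-γ)| ^ (-(2 * s))) := by
        rw [lintegral_const_mul' _ _ hcp, lintegral_add_left]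
        fun_prop
    _ ≤ ENNReal.ofReal |c| ^ (-s) * (C + C) :=
        mul_le_mul_right (add_le_add (h1 γ) (h1 (-γ))) _
    _ = _ := mul_comm _ _


/-- gaussian mass of `Fin m → ℝ` -/
lemma W_gauss_pi (m : ℕ) : ∫⁻ w : Fin m → ℝ, ENNReal.ofReal (Real.exp (-1 * ∑ i, w i ^ 2)) ≠ ⊤ := by
  have h1 : Integrable (fun w : Fin m → ℝ => ∏ i, (fun v : ℝ => Real.exp (-1 * v ^ 2)) (w i))
      (Measure.pi fun _ => volume) :=
    Integrable.fintype_prod (f := fun _ => fun v : ℝ => Real.exp (-1 * v ^ 2))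
      (fun i => integrable_exp_neg_mul_sq one_pos)
  have h2 := h1.lintegral_lt_top.ne
  have h3 : ∀ w : Fin m → ℝ, Real.exp (-1 * ∑ i, w i ^ 2)
      = ∏ i, (fun v : ℝ => Real.exp (-1 * v ^ 2)) (w i) := by
    intro w
    rw [← Real.exp_sum, Finset.mul_sum]
  simp_rw [h3]
  exact h2

/-- `n` variables on `Fin n → ℝ` -/
lemma W_quad_pi (m : ℕ) {s : ℝ} (hs0 : 0 ≤ s) (hs : s < 1 / 2) :
    ∃ C : ℝ≥0∞, C ≠ ⊤ ∧ ∀ (a : Fin (m + 1) → ℝ) (J : Fin (m + 1)), a J ≠ 0 →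
      ∫⁻ u : Fin (m + 1) → ℝ, ENNReal.ofReal (Real.exp (-1 * ∑ j, u j ^ 2))
        * ENNReal.ofReal |∑ j, a j * u j ^ 2| ^ (-s) ≤ C * ENNReal.ofReal |a J| ^ (-s) := by
  obtain ⟨C, hC, h1⟩ := W_quad_one hs0 hs
  refine ⟨C * ∫⁻ w : Fin m → ℝ, ENNReal.ofReal (Real.exp (-1 * ∑ i, w i ^ 2)),
    ENNReal.mul_ne_top hC (W_gauss_pi m), fun a J haJ => ?_⟩
  set e := MeasurableEquiv.piFinSuccAbove (fun _ : Fin (m + 1) => ℝ) J with he
  have hmp : MeasurePreserving e := volume_preserving_piFinSuccAbove (fun _ => ℝ) J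
  set G : (Fin (m + 1) → ℝ) → ℝ≥0∞ := fun u => ENNReal.ofReal (Real.exp (-1 * ∑ j, u j ^ 2))
        * ENNReal.ofReal |∑ j, a j * u j ^ 2| ^ (-s) with hG
  have hGm : Measurable G := by
    rw [hG]; fun_prop
  have e1 : ∫⁻ u, G u = ∫⁻ z, G (e.symm z) := by
    rw [← (hmp.symm e).lintegral_comp_emb e.symm.measurableEmbedding]
  have e2 : ∫⁻ z, G (e.symm z) = ∫⁻ w, ∫⁻ v, G (e.symm (v, w)) :=
    lintegral_prod_symm' _ (hGm.comp e.symm.measurable)
  have e3 : ∀ (w : Fin m → ℝ) (v : ℝ), G (e.symm (v, w))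
      = ENNReal.ofReal (Real.exp (-1 * ∑ i, w i ^ 2)) * (ENNReal.ofReal (Real.exp (-1 * v ^ 2))
        * ENNReal.ofReal |a J * v ^ 2 + ∑ i, a (J.succAbove i) * w i ^ 2| ^ (-s)) := by
    intro w v
    have e4 : ∀ i, e.symm (v, w) (J.succAbove i) = w i := by
      intro i
      simp [he, MeasurableEquiv.piFinSuccAbove, Fin.insertNthEquiv]
    have e5 : e.symm (v, w) J = v := by
      simp [he, MeasurableEquiv.piFinSuccAbove, Fin.insertNthEquiv]
    simp only [hG]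
    rw [Fin.sum_univ_succAbove _ J, Fin.sum_univ_succAbove _ J]
    simp only [e4, e5]
    rw [mul_add, Real.exp_add, ENNReal.ofReal_mul (Real.exp_pos _).le]
    ring
  have e6 : ∀ w : Fin m → ℝ, ∫⁻ v, G (e.symm (v, w))
      ≤ ENNReal.ofReal (Real.exp (-1 * ∑ i, w i ^ 2)) * (C * ENNReal.ofReal |a J| ^ (-s)) := by
    intro w
    simp_rw [e3 w]
    rw [lintegral_const_mul' _ _ ENNReal.ofReal_ne_top]
    exact mul_le_mul_right (h1 _ _ haJ) _
  have hcp : C * ENNReal.ofReal |a J| ^ (-s) ≠ ⊤ := by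
    rw [ENNReal.ofReal_rpow_of_pos (abs_pos.2 haJ)]
    exact ENNReal.mul_ne_top hC ENNReal.ofReal_ne_top
  change ∫⁻ u, G u ≤ _
  rw [e1, e2]
  refine (lintegral_mono e6).trans ?_
  rw [lintegral_mul_const' _ _ hcp]
  apply le_of_eq
  ring

/-- transport to the euclidean space -/
lemma W_eucl_lint {n : ℕ} (G : (Fin n → ℝ) → ℝ≥0∞) :
    ∫⁻ u : EuclideanSpace ℝ (Fin n), G (fun j => u j) = ∫⁻ u : Fin n → ℝ, G u := by
  have h := (EuclideanSpace.volume_preserving_symm_measurableEquiv_toLp (Fin n)).lintegral_comp_emb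
    (MeasurableEquiv.toLp 2 (Fin n → ℝ)).symm.measurableEmbedding G
  rw [← h]
  rfl

/-- polar coordinates for a radial function times a homogeneous one -/
lemma W_polar_mul {n : ℕ} (hn : n ≠ 0) (κ : ℝ) (G : ℝ → ℝ≥0∞) (hG : Measurable G)
    (H : EuclideanSpace ℝ (Fin n) → ℝ≥0∞) (hH : Measurable H)
    (hom : ∀ (r : ℝ) (w : EuclideanSpace ℝ (Fin n)), 0 < r → H (r • w) = ENNReal.ofReal r ^ κ * H w) :
    ∫⁻ u : EuclideanSpace ℝ (Fin n), G ‖u‖ * H u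
      = (∫⁻ w : sphere (0 : EuclideanSpace ℝ (Fin n)) 1, H w ∂(volume.toSphere))
        * ∫⁻ r in Ioi (0 : ℝ), ENNReal.ofReal (r ^ (n - 1)) * (G r * ENNReal.ofReal r ^ κ) := by
  have : Nonempty (Fin n) := ⟨⟨0, Nat.pos_of_ne_zero hn⟩⟩
  have hdim : Module.finrank ℝ (EuclideanSpace ℝ (Fin n)) = n := by simp
  have hmp := (volume : Measure (EuclideanSpace ℝ (Fin n))).measurePreserving_homeomorphUnitSphereProd
  set e := homeomorphUnitSphereProd (EuclideanSpace ℝ (Fin n)) with he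
  have e1 : ∫⁻ u : EuclideanSpace ℝ (Fin n), G ‖u‖ * H u
      = ∫⁻ x : ({(0)}ᶜ : Set (EuclideanSpace ℝ (Fin n))), G ‖x.1‖ * H x.1
        ∂(Measure.comap Subtype.val (volume : Measure (EuclideanSpace ℝ (Fin n)))) := by
    rw [lintegral_subtype_comap (measurableSet_singleton _).compl
      (fun x : EuclideanSpace ℝ (Fin n) => G ‖x‖ * H x), restrict_compl_singleton]
  have e2 : ∀ x : ({(0)}ᶜ : Set (EuclideanSpace ℝ (Fin n))), G ‖x.1‖ * H x.1
      = H (e x).1.1 * (G (e x).2.1 * ENNReal.ofReal (e x).2.1 ^ κ) := by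
    intro x
    have h1 : (e x).2.1 = ‖x.1‖ := by simp [he]
    have h2 : (e x).1.1 = ‖x.1‖⁻¹ • x.1 := by simp [he]
    have hx : 0 < ‖x.1‖ := norm_pos_iff.2 x.2
    have h3 : H x.1 = ENNReal.ofReal ‖x.1‖ ^ κ * H (‖x.1‖⁻¹ • x.1) := by
      rw [← hom _ _ hx, smul_smul, mul_inv_cancel₀ hx.ne', one_smul]
    rw [h1, h2, h3]
    ring
  rw [e1, lintegral_congr e2]
  rw [hmp.lintegral_comp_emb e.measurableEmbedding
    (fun z => H z.1.1 * (G z.2.1 * ENNReal.ofReal z.2.1 ^ κ))]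
  rw [lintegral_prod_mul (f := fun w : sphere (0 : EuclideanSpace ℝ (Fin n)) 1 => H w.1)
    (g := fun r : Ioi (0 : ℝ) => G r.1 * ENNReal.ofReal r.1 ^ κ)]
  · congr 1
    rw [Measure.volumeIoiPow, hdim]
    rw [lintegral_withDensity_eq_lintegral_mul₀]
    · exact lintegral_subtype_comap measurableSet_Ioi
        (fun r : ℝ => ENNReal.ofReal (r ^ (n - 1)) * (G r * ENNReal.ofReal r ^ κ))
    · fun_prop
    · fun_prop
  · fun_prop
  · fun_prop


lemma W_hom_quad {n : ℕ} (a : Fin n → ℝ) (s : ℝ) (r : ℝ) (w : EuclideanSpace ℝ (Fin n)) (hr : 0 < r) :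
    ENNReal.ofReal |∑ j, a j * (r • w) j ^ 2| ^ (-s)
      = ENNReal.ofReal r ^ (-(2 * s)) * ENNReal.ofReal |∑ j, a j * w j ^ 2| ^ (-s) := by
  have h1 : ∑ j, a j * (r • w) j ^ 2 = r ^ 2 * ∑ j, a j * w j ^ 2 := by
    rw [Finset.mul_sum]
    refine Finset.sum_congr rfl fun j _ => ?_
    simp only [PiLp.smul_apply, smul_eq_mul]
    ring
  rw [h1, abs_mul, abs_of_nonneg (sq_nonneg r), ENNReal.ofReal_mul (sq_nonneg r),
    ENNReal.mul_rpow_of_ne_top ENNReal.ofReal_ne_top ENNReal.ofReal_ne_top, W_sq_rpow_neg hr.le]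

/-- the radial integral with the singularity at `r = 1` is finite -/
lemma W_radial_ne_top {n : ℕ} {c α s : ℝ} (hc : 0 < c) (hα0 : 0 ≤ α) (hα : α < 1)
    (hs0 : 0 ≤ s) (hs : s < 1 / 2) :
    ∫⁻ r in Ioi (0 : ℝ), ENNReal.ofReal (r ^ (n - 1)) *
      ((ENNReal.ofReal (Real.exp (-c * r ^ 2)) * ENNReal.ofReal |1 - r ^ 2| ^ (-α))
        * ENNReal.ofReal r ^ (-(2 * s))) ≠ ⊤ := by
  set K1 : ℝ≥0∞ := ENNReal.ofReal (1 / 2) ^ (-α) with hK1
  set K2 : ℝ≥0∞ := ENNReal.ofReal ((2 : ℝ) ^ (n - 1)) * ENNReal.ofReal (1 / 2) ^ (-(2 * s)) with hK2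
  have hK1' : K1 ≠ ⊤ := by
    rw [hK1, ENNReal.ofReal_rpow_of_pos (by norm_num)]
    exact ENNReal.ofReal_ne_top
  have hK2' : K2 ≠ ⊤ := by
    rw [hK2, ENNReal.ofReal_rpow_of_pos (by norm_num)]
    exact ENNReal.mul_ne_top ENNReal.ofReal_ne_top ENNReal.ofReal_ne_top
  set F : ℝ → ℝ≥0∞ := (ball (0 : ℝ) 2).indicator (fun v => ENNReal.ofReal |v| ^ (-α)) with hF
  have hFm : Measurable F := by
    refine Measurable.indicator ?_ measurableSet_ball
    fun_prop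
  have hI1 : ∫⁻ r in Ioi (0 : ℝ), ENNReal.ofReal (r ^ (((n - 1 : ℕ) : ℝ) - 2 * s)
      * Real.exp (-c * r ^ 2)) ≠ ⊤ := by
    refine (integrableOn_rpow_mul_exp_neg_mul_sq hc ?_).lintegral_lt_top.ne
    have : (0 : ℝ) ≤ ((n - 1 : ℕ) : ℝ) := Nat.cast_nonneg _
    linarith
  have hI2 : ∫⁻ r in Ioi (0 : ℝ), F (r - 1) ≠ ⊤ := by
    refine ne_top_of_le_ne_top ?_ (setLIntegral_le_lintegral (Ioi (0 : ℝ)) (fun r => F (r - 1)))
    rw [lintegral_sub_right_eq_self F 1, hF, lintegral_indicator measurableSet_ball]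
    exact W_local_pow hα
  have key : ∀ r ∈ Ioi (0 : ℝ), ENNReal.ofReal (r ^ (n - 1)) *
      ((ENNReal.ofReal (Real.exp (-c * r ^ 2)) * ENNReal.ofReal |1 - r ^ 2| ^ (-α))
        * ENNReal.ofReal r ^ (-(2 * s)))
      ≤ K1 * ENNReal.ofReal (r ^ (((n - 1 : ℕ) : ℝ) - 2 * s) * Real.exp (-c * r ^ 2))
        + K2 * F (r - 1) := by
    intro r hr
    have hr0 : 0 < r := hr
    have hfac : |1 - r ^ 2| = |1 - r| * (1 + r) := by
      rw [show (1 : ℝ) - r ^ 2 = (1 - r) * (1 + r) by ring, abs_mul, abs_of_pos (by linarith : 0 < 1 + r)]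
    have hge : |1 - r| ≤ |1 - r ^ 2| := by
      rw [hfac]
      nlinarith [abs_nonneg (1 - r)]
    by_cases h : 1 / 2 ≤ |1 - r|
    · refine le_trans ?_ (le_add_right le_rfl)
      have h1 : ENNReal.ofReal |1 - r ^ 2| ^ (-α) ≤ K1 :=
        W_rpow_anti hα0 (ENNReal.ofReal_le_ofReal (le_trans h hge))
      have h2 : ENNReal.ofReal (r ^ (((n - 1 : ℕ) : ℝ) - 2 * s) * Real.exp (-c * r ^ 2))
          = ENNReal.ofReal (r ^ (n - 1)) * (ENNReal.ofReal (Real.exp (-c * r ^ 2))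
            * ENNReal.ofReal r ^ (-(2 * s))) := by
        rw [sub_eq_add_neg, Real.rpow_add hr0, Real.rpow_natCast,
          ENNReal.ofReal_mul (by positivity), ENNReal.ofReal_mul (by positivity),
          ENNReal.ofReal_rpow_of_pos hr0]
        ring
      rw [h2]
      calc _ ≤ ENNReal.ofReal (r ^ (n - 1)) *
            ((ENNReal.ofReal (Real.exp (-c * r ^ 2)) * K1) * ENNReal.ofReal r ^ (-(2 * s))) := by
              gcongr
        _ = _ := by ring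
    · push Not at h
      refine le_trans ?_ (le_add_left le_rfl)
      have hr2 : r ≤ 2 := by
        have := (abs_lt.1 h).1
        linarith
      have hr3 : 1 / 2 ≤ r := by
        have := (abs_lt.1 h).2
        linarith
      have h1 : F (r - 1) = ENNReal.ofReal |1 - r| ^ (-α) := by
        rw [hF, indicator_of_mem, abs_sub_comm]
        rw [mem_ball, dist_zero_right, Real.norm_eq_abs, abs_sub_comm]
        linarith
      have h2 : ENNReal.ofReal |1 - r ^ 2| ^ (-α) ≤ ENNReal.ofReal |1 - r| ^ (-α) :=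
        W_rpow_anti hα0 (ENNReal.ofReal_le_ofReal hge)
      have h3 : ENNReal.ofReal r ^ (-(2 * s)) ≤ ENNReal.ofReal (1 / 2) ^ (-(2 * s)) :=
        W_rpow_anti (by linarith) (ENNReal.ofReal_le_ofReal hr3)
      have h4 : ENNReal.ofReal (Real.exp (-c * r ^ 2)) ≤ 1 := by
        rw [← ENNReal.ofReal_one]
        apply ENNReal.ofReal_le_ofReal
        rw [Real.exp_le_one_iff]
        nlinarith [sq_nonneg r]
      have h5 : ENNReal.ofReal (r ^ (n - 1)) ≤ ENNReal.ofReal ((2 : ℝ) ^ (n - 1)) :=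
        ENNReal.ofReal_le_ofReal (pow_le_pow_left₀ hr0.le hr2 _)
      rw [h1, hK2]
      calc _ ≤ ENNReal.ofReal ((2 : ℝ) ^ (n - 1)) *
            ((1 * ENNReal.ofReal |1 - r| ^ (-α)) * ENNReal.ofReal (1 / 2) ^ (-(2 * s))) := by
              gcongr
        _ = _ := by ring
  refine ne_top_of_le_ne_top ?_ (setLIntegral_mono' measurableSet_Ioi key)
  rw [lintegral_add_left (by fun_prop), lintegral_const_mul' _ _ hK1',
    lintegral_const_mul' _ _ hK2']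
  exact ENNReal.add_ne_top.2 ⟨ENNReal.mul_ne_top hK1' hI1, ENNReal.mul_ne_top hK2' hI2⟩

/-- the gaussian radial integral is positive -/
lemma W_radial_ne_zero {n : ℕ} {s : ℝ} (hs0 : 0 ≤ s) :
    ∫⁻ r in Ioi (0 : ℝ), ENNReal.ofReal (r ^ (n - 1)) *
      (ENNReal.ofReal (Real.exp (-1 * r ^ 2)) * ENNReal.ofReal r ^ (-(2 * s))) ≠ 0 := by
  have h1 : ∫⁻ _r in Icc (1 : ℝ) 2, (ENNReal.ofReal (Real.exp (-4)) * ENNReal.ofReal 2 ^ (-(2 * s)))
      ≤ ∫⁻ r in Ioi (0 : ℝ), ENNReal.ofReal (r ^ (n - 1)) *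
      (ENNReal.ofReal (Real.exp (-1 * r ^ 2)) * ENNReal.ofReal r ^ (-(2 * s))) := by
    refine le_trans (setLIntegral_mono' measurableSet_Icc ?_)
      (lintegral_mono_set (fun r hr => lt_of_lt_of_le one_pos hr.1))
    intro r hr
    have h2 : (1 : ℝ≥0∞) ≤ ENNReal.ofReal (r ^ (n - 1)) := by
      rw [← ENNReal.ofReal_one]
      exact ENNReal.ofReal_le_ofReal (one_le_pow₀ hr.1)
    have h3 : ENNReal.ofReal (Real.exp (-4)) ≤ ENNReal.ofReal (Real.exp (-1 * r ^ 2)) := by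
      apply ENNReal.ofReal_le_ofReal
      rw [Real.exp_le_exp]
      nlinarith [hr.1, hr.2]
    have h4 : ENNReal.ofReal 2 ^ (-(2 * s)) ≤ ENNReal.ofReal r ^ (-(2 * s)) :=
      W_rpow_anti (by linarith) (ENNReal.ofReal_le_ofReal hr.2)
    calc _ = 1 * (ENNReal.ofReal (Real.exp (-4)) * ENNReal.ofReal 2 ^ (-(2 * s))) := (one_mul _).symm
      _ ≤ _ := by gcongr
  have h2 : (0 : ℝ≥0∞) < ∫⁻ _r in Icc (1 : ℝ) 2,
      (ENNReal.ofReal (Real.exp (-4)) * ENNReal.ofReal 2 ^ (-(2 * s))) := by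
    rw [lintegral_const, Measure.restrict_apply MeasurableSet.univ, univ_inter, Real.volume_Icc,
      ENNReal.ofReal_rpow_of_pos (by norm_num)]
    refine ENNReal.mul_pos (mul_ne_zero ?_ ?_) ?_
    · simp [Real.exp_pos]
    · simp [Real.rpow_pos_of_pos]
    · norm_num
  exact (lt_of_lt_of_le h2 h1).ne'

/-- **Row W**, euclidean form. -/
theorem W_eucl {n : ℕ} (hn : n ≠ 0) {c α s : ℝ} (hc : 0 < c) (hα0 : 0 ≤ α) (hα : α < 1)
    (hs0 : 0 ≤ s) (hs : s < 1 / 2) :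
    ∃ C : ℝ≥0∞, C ≠ ⊤ ∧ ∀ (a : Fin n → ℝ) (J : Fin n), a J ≠ 0 →
      ∫⁻ u : EuclideanSpace ℝ (Fin n), (ENNReal.ofReal (Real.exp (-c * ‖u‖ ^ 2))
        * ENNReal.ofReal |1 - ‖u‖ ^ 2| ^ (-α)) * ENNReal.ofReal |∑ j, a j * u j ^ 2| ^ (-s)
        ≤ C * ENNReal.ofReal |a J| ^ (-s) := by
  obtain ⟨m, rfl⟩ := Nat.exists_eq_succ_of_ne_zero hn
  obtain ⟨C, hC, h1⟩ := W_quad_pi m hs0 hs
  set A1 := ∫⁻ r in Ioi (0 : ℝ), ENNReal.ofReal (r ^ (m + 1 - 1)) *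
      ((ENNReal.ofReal (Real.exp (-c * r ^ 2)) * ENNReal.ofReal |1 - r ^ 2| ^ (-α))
        * ENNReal.ofReal r ^ (-(2 * s))) with hA1
  set A2 := ∫⁻ r in Ioi (0 : ℝ), ENNReal.ofReal (r ^ (m + 1 - 1)) *
      (ENNReal.ofReal (Real.exp (-1 * r ^ 2)) * ENNReal.ofReal r ^ (-(2 * s))) with hA2
  have hA1' : A1 ≠ ⊤ := W_radial_ne_top hc hα0 hα hs0 hs
  have hA2' : A2 ≠ 0 := W_radial_ne_zero hs0
  set c2 := min A2 1 with hc2
  have hc20 : c2 ≠ 0 := (lt_min (pos_iff_ne_zero.2 hA2') one_pos).ne'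
  have hc2t : c2 ≠ ⊤ := (lt_of_le_of_lt (min_le_right _ _) ENNReal.one_lt_top).ne
  refine ⟨c2⁻¹ * C * A1, ENNReal.mul_ne_top (ENNReal.mul_ne_top (ENNReal.inv_ne_top.2 hc20) hC) hA1',
    fun a J haJ => ?_⟩
  set H : EuclideanSpace ℝ (Fin (m + 1)) → ℝ≥0∞ :=
    fun u => ENNReal.ofReal |∑ j, a j * u j ^ 2| ^ (-s) with hH
  have hHm : Measurable H := by
    rw [hH]; fun_prop
  have hom : ∀ (r : ℝ) (w : EuclideanSpace ℝ (Fin (m + 1))), 0 < r →
      H (r • w) = ENNReal.ofReal r ^ (-(2 * s)) * H w := fun r w hr => W_hom_quad a s r w hr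
  have p1 := W_polar_mul hn (-(2 * s))
    (fun r => ENNReal.ofReal (Real.exp (-c * r ^ 2)) * ENNReal.ofReal |1 - r ^ 2| ^ (-α))
    (by fun_prop) H hHm hom
  have p2 := W_polar_mul hn (-(2 * s)) (fun r => ENNReal.ofReal (Real.exp (-1 * r ^ 2)))
    (by fun_prop) H hHm hom
  set S := ∫⁻ w : sphere (0 : EuclideanSpace ℝ (Fin (m + 1))) 1, H w ∂(volume.toSphere) with hS
  have p3 : S * A2 ≤ C * ENNReal.ofReal |a J| ^ (-s) := by
    rw [hA2, ← p2]
    refine le_trans (le_of_eq ?_) (h1 a J haJ)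
    rw [← W_eucl_lint (fun u : Fin (m + 1) → ℝ => ENNReal.ofReal (Real.exp (-1 * ∑ j, u j ^ 2))
      * ENNReal.ofReal |∑ j, a j * u j ^ 2| ^ (-s))]
    refine lintegral_congr fun u => ?_
    rw [EuclideanSpace.norm_sq_eq]
    simp only [Real.norm_eq_abs, sq_abs, hH]
  have p4 : S ≤ c2⁻¹ * (C * ENNReal.ofReal |a J| ^ (-s)) := by
    have : S * c2 ≤ C * ENNReal.ofReal |a J| ^ (-s) :=
      le_trans (mul_le_mul_right (min_le_left _ _) _) p3
    calc S = c2⁻¹ * (S * c2) := by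
          rw [mul_left_comm, ENNReal.inv_mul_cancel hc20 hc2t, mul_one]
      _ ≤ _ := mul_le_mul_right this _
  calc _ = S * A1 := p1
    _ ≤ (c2⁻¹ * (C * ENNReal.ofReal |a J| ^ (-s))) * A1 := mul_le_mul_left p4 _
    _ = _ := by ring

/-- **Row W.** -/
theorem quad_weight (n : ℕ) (c al s : ℝ) (hc : 0 < c) (hal : 0 ≤ al) (hal1 : al < 1)
    (hs : 0 ≤ s) (hs1 : s < 1 / 2) : ∃ C : ℝ, 0 ≤ C ∧ ∀ (b : Fin n → ℝ) (J : Fin n), b J ≠ 0 →
      ∫⁻ u : E n, ENNReal.ofReal (Real.exp (-c * ‖u‖ ^ 2)) *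
        (ENNReal.ofReal |1 - ‖u‖ ^ 2| ^ (-al) * ENNReal.ofReal |∑ j, b j * u j ^ 2| ^ (-s)) ≤
          ENNReal.ofReal (C * |b J| ^ (-s)) := by
  rcases Nat.eq_zero_or_pos n with hn | hn
  · subst hn
    exact ⟨0, le_rfl, fun b J => J.elim0⟩
  · obtain ⟨C, hC, h1⟩ := W_eucl hn.ne' hc hal hal1 hs hs1
    refine ⟨C.toReal, ENNReal.toReal_nonneg, fun b J hb => ?_⟩
    rw [ENNReal.ofReal_mul ENNReal.toReal_nonneg, ENNReal.ofReal_toReal hC,
      ← ENNReal.ofReal_rpow_of_pos (abs_pos.2 hb)]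
    refine le_trans (le_of_eq ?_) (h1 b J hb)
    refine lintegral_congr fun u => ?_
    rw [mul_assoc]

end Pool.Agent.QPH
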