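import Pool.Agent.VAN.A

/-!
# Van der Corput's lemma for a phase with negative third derivative, in integrated form
-/

open MeasureTheory Set intervalIntegral
open scoped Interval

noncomputable section

namespace Pool.Agent.QPH

open Pool.Agent.VAN

theorem vdcA_split {a x b A B : ℝ} (hax : a ≤ x) (hxb : x ≤ b) {u : ℝ → ℝ}
    (hu : ContinuousOn u (Icc a b)) (h1 : ‖∫ t in a..x, ei (u t)‖ ≤ A)
    (h2 : ‖∫ t in x..b, ei (u t)‖ ≤ B) : ‖∫ t in a..b, ei (u t)‖ ≤ A + B := by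
  have hce : ContinuousOn (fun t => ei (u t)) (Icc a b) := continuous_ei.comp_continuousOn hu
  have i1 : IntervalIntegrable (fun t => ei (u t)) volume a x := by
    apply ContinuousOn.intervalIntegrable
    rw [uIcc_of_le hax]
    exact hce.mono (Icc_subset_Icc_right hxb)
  have i2 : IntervalIntegrable (fun t => ei (u t)) volume x b := by
    apply ContinuousOn.intervalIntegrable
    rw [uIcc_of_le hxb]
    exact hce.mono (Icc_subset_Icc_left hax)
  rw [← intervalIntegral.integral_add_adjacent_intervals i1 i2]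
  exact (norm_add_le _ _).trans (add_le_add h1 h2)

theorem vdcA_thr {a b : ℝ} (c : ℝ) (hab : a ≤ b) {g : ℝ → ℝ} (hg : ContinuousOn g (Icc a b))
    (hanti : AntitoneOn g (Icc a b)) :
    ∃ t0 ∈ Icc a b, (t0 = a ∨ ∀ t ∈ Icc a t0, c ≤ g t) ∧ (t0 = b ∨ ∀ t ∈ Icc t0 b, g t ≤ c) := by
  have ha := left_mem_Icc.2 hab
  have hb := right_mem_Icc.2 hab
  by_cases h1 : g a ≤ c
  · exact ⟨a, ha, Or.inl rfl, Or.inr fun t ht => (hanti ha ht ht.1).trans h1⟩
  by_cases h2 : c ≤ g b
  · exact ⟨b, hb, Or.inr fun t ht => h2.trans (hanti ht hb ht.2), Or.inl rfl⟩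
  push Not at h1 h2
  obtain ⟨x, hx, hx'⟩ := intermediate_value_Icc' hab hg ⟨h2.le, h1.le⟩
  refine ⟨x, hx, Or.inr fun t ht => ?_, Or.inr fun t ht => ?_⟩
  · rw [← hx']
    exact hanti ⟨ht.1, ht.2.trans hx.2⟩ hx ht.2
  · rw [← hx']
    exact hanti hx ⟨hx.1.trans ht.1, ht.2⟩ ht.1

theorem vdcA_sign {a b c : ℝ} (hc : 0 < c) {g : ℝ → ℝ} (hg : ContinuousOn g (Icc a b))
    (h : ∀ t ∈ Icc a b, c ≤ |g t|) :
    (∀ t ∈ Icc a b, c ≤ g t) ∨ (∀ t ∈ Icc a b, g t ≤ -c) := by
  by_contra hcon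
  push Not at hcon
  obtain ⟨⟨s, hs, hs'⟩, ⟨t, ht, ht'⟩⟩ := hcon
  have h1 : g s ≤ 0 := by
    by_contra h0
    push Not at h0
    have := h s hs
    rw [abs_of_pos h0] at this
    linarith
  have h2 : 0 ≤ g t := by
    by_contra h0
    push Not at h0
    have := h t ht
    rw [abs_of_neg h0] at this
    linarith
  obtain ⟨x, hx, hx'⟩ := (isPreconnected_Icc (a := a) (b := b)).intermediate_value hs ht hg ⟨h1, h2⟩
  have := h x hx
  rw [hx', abs_zero] at this
  linarith

/-- first derivative test -/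
theorem vdcA_one {a b δ : ℝ} (hab : a ≤ b) (hδ : 0 < δ) {u u1 u2 : ℝ → ℝ}
    (hd1 : ∀ t ∈ Icc a b, HasDerivAt u (u1 t) t) (hd2 : ∀ t ∈ Icc a b, HasDerivAt u1 (u2 t) t)
    (hc2 : ContinuousOn u2 (Icc a b)) (h1 : ∀ t ∈ Icc a b, 1 / δ ≤ |u1 t|)
    (h2 : (∀ t ∈ Icc a b, 0 ≤ u2 t) ∨ (∀ t ∈ Icc a b, u2 t ≤ 0)) :
    ‖∫ t in a..b, ei (u t)‖ ≤ 3 * δ := by
  have e : 3 / (1 / δ) = 3 * δ := by field_simp
  rcases h2 with h2 | h2
  · have := vdc_mono hab (by positivity : 0 < 1 / δ) hd1 hd2 hc2 h1 h2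
    rwa [e] at this
  · have := vdc_mono (u := fun t => -u t) (u1 := fun t => -u1 t) (u2 := fun t => -u2 t) hab
      (by positivity : 0 < 1 / δ) (fun t ht => (hd1 t ht).neg) (fun t ht => (hd2 t ht).neg)
      hc2.neg (fun t ht => by rw [abs_neg]; exact h1 t ht) (fun t ht => by
        have := h2 t ht
        show 0 ≤ -u2 t
        linarith)
    rw [e, integral_ei_neg] at this
    exact this

/-- second derivative test, positive -/
theorem vdcA_two_pos {a b δ : ℝ} (hab : a ≤ b) (hδ : 0 < δ) {u u1 u2 : ℝ → ℝ}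
    (hd1 : ∀ t ∈ Icc a b, HasDerivAt u (u1 t) t) (hd2 : ∀ t ∈ Icc a b, HasDerivAt u1 (u2 t) t)
    (hc2 : ContinuousOn u2 (Icc a b)) (h : ∀ t ∈ Icc a b, 1 / δ ^ 2 ≤ u2 t) :
    ‖∫ t in a..b, ei (u t)‖ ≤ 8 * δ := by
  have hcu : ContinuousOn u (Icc a b) := fun t ht => (hd1 t ht).continuousAt.continuousWithinAt
  obtain ⟨t0, ht0, hpt⟩ := vdc_point hab hd2 h
  have hpos : ∀ t ∈ Icc a b, 0 ≤ u2 t := fun t ht =>
    (by positivity : (0 : ℝ) ≤ 1 / δ ^ 2).trans (h t ht)
  have hbig : ∀ t ∈ Icc a b, δ ≤ |t - t0| → 1 / δ ≤ |u1 t| := by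
    intro t ht h1
    refine le_trans ?_ (hpt t ht)
    have : 1 / δ = 1 / δ ^ 2 * δ := by field_simp
    rw [this]
    exact mul_le_mul_of_nonneg_left h1 (by positivity)
  have hm1 : a ≤ max a (t0 - δ) := le_max_left _ _
  have hm2 : max a (t0 - δ) ≤ min b (t0 + δ) := by
    apply max_le
    · exact le_min hab (by linarith [ht0.1])
    · exact le_min (by linarith [ht0.2]) (by linarith)
  have hm3 : min b (t0 + δ) ≤ b := min_le_left _ _
  have e1 : ‖∫ t in a..(max a (t0 - δ)), ei (u t)‖ ≤ 3 * δ := by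
    rcases max_choice a (t0 - δ) with hm | hm
    · rw [hm, intervalIntegral.integral_same, norm_zero]
      positivity
    · have hsub : Icc a (max a (t0 - δ)) ⊆ Icc a b := Icc_subset_Icc_right (hm2.trans hm3)
      apply vdcA_one hm1 hδ (fun t ht => hd1 t (hsub ht)) (fun t ht => hd2 t (hsub ht))
        (hc2.mono hsub) _ (Or.inl fun t ht => hpos t (hsub ht))
      intro t ht
      apply hbig t (hsub ht)
      rw [hm] at ht
      rw [abs_sub_comm]
      exact (by linarith [ht.2] : δ ≤ t0 - t).trans (le_abs_self _)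
  have e3 : ‖∫ t in (min b (t0 + δ))..b, ei (u t)‖ ≤ 3 * δ := by
    rcases min_choice b (t0 + δ) with hm | hm
    · rw [hm, intervalIntegral.integral_same, norm_zero]
      positivity
    · have hsub : Icc (min b (t0 + δ)) b ⊆ Icc a b := Icc_subset_Icc_left (hm1.trans hm2)
      apply vdcA_one hm3 hδ (fun t ht => hd1 t (hsub ht)) (fun t ht => hd2 t (hsub ht))
        (hc2.mono hsub) _ (Or.inl fun t ht => hpos t (hsub ht))
      intro t ht
      apply hbig t (hsub ht)
      rw [hm] at ht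
      exact (by linarith [ht.1] : δ ≤ t - t0).trans (le_abs_self _)
  have e2 : ‖∫ t in (max a (t0 - δ))..(min b (t0 + δ)), ei (u t)‖ ≤ 2 * δ := by
    refine (triv_ei u hm2).trans ?_
    have h1 := le_max_right a (t0 - δ)
    have h2 := min_le_right b (t0 + δ)
    linarith
  have f1 := vdcA_split hm2 hm3 (hcu.mono (Icc_subset_Icc_left hm1)) e2 e3
  have f2 := vdcA_split hm1 (hm2.trans hm3) hcu e1 f1
  linarith

/-- second derivative test -/
theorem vdcA_two {a b δ : ℝ} (hab : a ≤ b) (hδ : 0 < δ) {u u1 u2 : ℝ → ℝ}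
    (hd1 : ∀ t ∈ Icc a b, HasDerivAt u (u1 t) t) (hd2 : ∀ t ∈ Icc a b, HasDerivAt u1 (u2 t) t)
    (hc2 : ContinuousOn u2 (Icc a b)) (h : ∀ t ∈ Icc a b, 1 / δ ^ 2 ≤ |u2 t|) :
    ‖∫ t in a..b, ei (u t)‖ ≤ 8 * δ := by
  rcases vdcA_sign (by positivity : 0 < 1 / δ ^ 2) hc2 h with h1 | h1
  · exact vdcA_two_pos hab hδ hd1 hd2 hc2 h1
  · have := vdcA_two_pos (u := fun t => -u t) (u1 := fun t => -u1 t) (u2 := fun t => -u2 t) hab
      hδ (fun t ht => (hd1 t ht).neg) (fun t ht => (hd2 t ht).neg)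
      hc2.neg (fun t ht => by
        have := h1 t ht
        show 1 / δ ^ 2 ≤ -u2 t
        linarith)
    rwa [integral_ei_neg] at this

/-- third derivative test -/
theorem vdcA_three {a b δ : ℝ} (hab : a ≤ b) (hδ : 0 < δ) {u u1 u2 u3 : ℝ → ℝ}
    (hd1 : ∀ t ∈ Icc a b, HasDerivAt u (u1 t) t) (hd2 : ∀ t ∈ Icc a b, HasDerivAt u1 (u2 t) t)
    (hd3 : ∀ t ∈ Icc a b, HasDerivAt u2 (u3 t) t) (h : ∀ t ∈ Icc a b, 1 / δ ^ 3 ≤ -u3 t) :
    ‖∫ t in a..b, ei (u t)‖ ≤ 18 * δ := by
  have hcu : ContinuousOn u (Icc a b) := fun t ht => (hd1 t ht).continuousAt.continuousWithinAt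
  have hc2 : ContinuousOn u2 (Icc a b) := fun t ht => (hd3 t ht).continuousAt.continuousWithinAt
  obtain ⟨t0, ht0, hpt⟩ := vdc_point (g := fun t => -u2 t) (g' := fun t => -u3 t) hab
    (fun t ht => (hd3 t ht).neg) h
  have hbig : ∀ t ∈ Icc a b, δ ≤ |t - t0| → 1 / δ ^ 2 ≤ |u2 t| := by
    intro t ht h1
    have h2 := hpt t ht
    simp only [abs_neg] at h2
    refine le_trans ?_ h2
    have : 1 / δ ^ 2 = 1 / δ ^ 3 * δ := by field_simp
    rw [this]
    exact mul_le_mul_of_nonneg_left h1 (by positivity)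
  have hm1 : a ≤ max a (t0 - δ) := le_max_left _ _
  have hm2 : max a (t0 - δ) ≤ min b (t0 + δ) := by
    apply max_le
    · exact le_min hab (by linarith [ht0.1])
    · exact le_min (by linarith [ht0.2]) (by linarith)
  have hm3 : min b (t0 + δ) ≤ b := min_le_left _ _
  have e1 : ‖∫ t in a..(max a (t0 - δ)), ei (u t)‖ ≤ 8 * δ := by
    rcases max_choice a (t0 - δ) with hm | hm
    · rw [hm, intervalIntegral.integral_same, norm_zero]
      positivity
    · have hsub : Icc a (max a (t0 - δ)) ⊆ Icc a b := Icc_subset_Icc_right (hm2.trans hm3)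
      apply vdcA_two hm1 hδ (fun t ht => hd1 t (hsub ht)) (fun t ht => hd2 t (hsub ht))
        (hc2.mono hsub)
      intro t ht
      apply hbig t (hsub ht)
      rw [hm] at ht
      rw [abs_sub_comm]
      exact (by linarith [ht.2] : δ ≤ t0 - t).trans (le_abs_self _)
  have e3 : ‖∫ t in (min b (t0 + δ))..b, ei (u t)‖ ≤ 8 * δ := by
    rcases min_choice b (t0 + δ) with hm | hm
    · rw [hm, intervalIntegral.integral_same, norm_zero]
      positivity
    · have hsub : Icc (min b (t0 + δ)) b ⊆ Icc a b := Icc_subset_Icc_left (hm1.trans hm2)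
      apply vdcA_two hm3 hδ (fun t ht => hd1 t (hsub ht)) (fun t ht => hd2 t (hsub ht))
        (hc2.mono hsub)
      intro t ht
      apply hbig t (hsub ht)
      rw [hm] at ht
      exact (by linarith [ht.1] : δ ≤ t - t0).trans (le_abs_self _)
  have e2 : ‖∫ t in (max a (t0 - δ))..(min b (t0 + δ)), ei (u t)‖ ≤ 2 * δ := by
    refine (triv_ei u hm2).trans ?_
    have h1 := le_max_right a (t0 - δ)
    have h2 := min_le_right b (t0 + δ)
    linarith
  have f1 := vdcA_split hm2 hm3 (hcu.mono (Icc_subset_Icc_left hm1)) e2 e3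
  have f2 := vdcA_split hm1 (hm2.trans hm3) hcu e1 f1
  linarith

/-- mixed first / second derivative test -/
theorem vdcA_mixed {a b M : ℝ} (hab : a ≤ b) (hM : 0 < M) {u u1 u2 u3 : ℝ → ℝ}
    (hd1 : ∀ t ∈ Icc a b, HasDerivAt u (u1 t) t) (hd2 : ∀ t ∈ Icc a b, HasDerivAt u1 (u2 t) t)
    (hd3 : ∀ t ∈ Icc a b, HasDerivAt u2 (u3 t) t) (h3 : ∀ t ∈ Icc a b, 0 ≤ -u3 t)
    (h : ∀ t ∈ Icc a b, 1 / M ≤ |u1 t| ∨ 1 / M ^ 2 ≤ |u2 t|) :
    ‖∫ t in a..b, ei (u t)‖ ≤ 38 * M := by
  have hcu : ContinuousOn u (Icc a b) := fun t ht => (hd1 t ht).continuousAt.continuousWithinAt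
  have hc2 : ContinuousOn u2 (Icc a b) := fun t ht => (hd3 t ht).continuousAt.continuousWithinAt
  have hanti : AntitoneOn u2 (Icc a b) := by
    apply antitoneOn_of_hasDerivWithinAt_nonpos (convex_Icc a b) hc2 (f' := u3)
    · intro t ht
      exact (hd3 t (interior_subset ht)).hasDerivWithinAt
    · intro t ht
      have := h3 t (interior_subset ht)
      linarith
  set c : ℝ := 1 / (2 * M) ^ 2 with hc
  have hcpos : 0 < c := by positivity
  have hcM : c < 1 / M ^ 2 := by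
    rw [hc]
    apply one_div_lt_one_div_of_lt (by positivity)
    nlinarith [pow_pos hM 2]
  obtain ⟨t1, ht1, h1l, h1r⟩ := vdcA_thr c hab hc2 hanti
  have hsub1 : Icc t1 b ⊆ Icc a b := Icc_subset_Icc_left ht1.1
  obtain ⟨t2, ht2, h2l, h2r⟩ := vdcA_thr (-c) ht1.2 (hc2.mono hsub1) (hanti.mono hsub1)
  have hsub2 : Icc t1 t2 ⊆ Icc a b := Icc_subset_Icc ht1.1 ht2.2
  have hsub3 : Icc t2 b ⊆ Icc a b := Icc_subset_Icc_left (ht1.1.trans ht2.1)
  have hsub0 : Icc a t1 ⊆ Icc a b := Icc_subset_Icc_right ht1.2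
  obtain ⟨t0, ht0, h0l, h0r⟩ := vdcA_thr 0 ht2.1 (hc2.mono hsub2) (hanti.mono hsub2)
  have e1 : ‖∫ t in a..t1, ei (u t)‖ ≤ 16 * M := by
    rcases h1l with h1 | h1
    · rw [h1, intervalIntegral.integral_same, norm_zero]
      positivity
    · have := vdcA_two_pos ht1.1 (by positivity : 0 < 2 * M) (fun t ht => hd1 t (hsub0 ht))
        (fun t ht => hd2 t (hsub0 ht)) (hc2.mono hsub0) h1
      linarith
  have e4 : ‖∫ t in t2..b, ei (u t)‖ ≤ 16 * M := by
    rcases h2r with h1 | h1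
    · rw [h1, intervalIntegral.integral_same, norm_zero]
      positivity
    · have := vdcA_two ht2.2 (by positivity : 0 < 2 * M) (fun t ht => hd1 t (hsub3 ht))
        (fun t ht => hd2 t (hsub3 ht)) (hc2.mono hsub3) (fun t ht => by
          have := h1 t ht
          rw [abs_of_nonpos (by linarith)]
          rw [← hc]
          linarith)
      linarith
  have hmid : t1 ≠ t2 → ∀ t ∈ Icc t1 t2, 1 / M ≤ |u1 t| := by
    intro hne t ht
    have hlt : t1 < t2 := lt_of_le_of_ne ht2.1 hne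
    have hA : u2 t ≤ c := by
      rcases h1r with h1 | h1
      · exact absurd h1 (ne_of_lt (hlt.trans_le ht2.2))
      · exact h1 t ⟨ht.1, ht.2.trans ht2.2⟩
    have hB : -c ≤ u2 t := by
      rcases h2l with h1 | h1
      · exact absurd h1.symm hne
      · exact h1 t ht
    rcases h t (hsub2 ht) with h1 | h1
    · exact h1
    · exfalso
      have : |u2 t| ≤ c := abs_le.2 ⟨hB, hA⟩
      linarith
  have e23 : ‖∫ t in t1..t2, ei (u t)‖ ≤ 6 * M := by
    by_cases hne : t1 = t2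
    · rw [hne, intervalIntegral.integral_same, norm_zero]
      positivity
    have hbig := hmid hne
    have hsa : Icc t1 t0 ⊆ Icc t1 t2 := Icc_subset_Icc_right ht0.2
    have hsb : Icc t0 t2 ⊆ Icc t1 t2 := Icc_subset_Icc_left ht0.1
    have g1 : ‖∫ t in t1..t0, ei (u t)‖ ≤ 3 * M := by
      rcases h0l with h1 | h1
      · rw [h1, intervalIntegral.integral_same, norm_zero]
        positivity
      · exact vdcA_one ht0.1 hM (fun t ht => hd1 t (hsub2 (hsa ht)))
          (fun t ht => hd2 t (hsub2 (hsa ht))) (hc2.mono (hsa.trans hsub2))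
          (fun t ht => hbig t (hsa ht)) (Or.inl h1)
    have g2 : ‖∫ t in t0..t2, ei (u t)‖ ≤ 3 * M := by
      rcases h0r with h1 | h1
      · rw [h1, intervalIntegral.integral_same, norm_zero]
        positivity
      · exact vdcA_one ht0.2 hM (fun t ht => hd1 t (hsub2 (hsb ht)))
          (fun t ht => hd2 t (hsub2 (hsb ht))) (hc2.mono (hsb.trans hsub2))
          (fun t ht => hbig t (hsb ht)) (Or.inr h1)
    have := vdcA_split ht0.1 ht0.2 (hcu.mono hsub2) g1 g2
    linarith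
  have f1 := vdcA_split ht2.1 ht2.2 (hcu.mono hsub1) e23 e4
  have f2 := vdcA_split ht1.1 ht1.2 hcu e1 f1
  linarith

/-- ROW A -/
theorem vdc_piece (B p : ℝ) (hB : 1 ≤ B) (hp : 1 < p) : ∃ C : ℝ, 0 < C ∧
    ∀ (α β h A : ℝ) (P0 P1 P2 P3 : ℝ → ℝ) (u u' : ℝ → ℂ), α < β → 0 ≤ h → 0 ≤ A →
      (∀ t ∈ Icc α β, HasDerivAt P0 (P1 t) t) → (∀ t ∈ Icc α β, HasDerivAt P1 (P2 t) t) →
      (∀ t ∈ Icc α β, HasDerivAt P2 (P3 t) t) → (∀ t ∈ Icc α β, HasDerivAt u (u' t) t) →
      ContinuousOn u' (Icc α β) →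
      (∀ t ∈ Icc α β, h ≤ -P3 t ∧ -P3 t ≤ B * h) →
      (∀ t ∈ Icc α β, ‖u t‖ ≤ A) → (∫ t in α..β, ‖u' t‖) ≤ A →
      ‖∫ t in α..β, u t * Complex.exp ((P0 t : ℂ) * Complex.I)‖ ^ p ≤
        C * A ^ p * ∫ t in α..β,
          (max (1 / (β - α)) (max |P1 t| (max √|P2 t| (h ^ (1 / 3 : ℝ))))) ^ (-(p - 1)) := by
  refine ⟨76 ^ p * (2 * (2 + B) ^ (p - 1)), by positivity, ?_⟩
  intro α β h A P0 P1 P2 P3 u u' hαβ hh hA hd1 hd2 hd3 hu hu' hP3 huA hu'A
  set ℓ : ℝ := β - α with hℓ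
  have hℓpos : 0 < ℓ := by rw [hℓ]; linarith
  set D : ℝ → ℝ := fun t =>
    max (1 / ℓ) (max |P1 t| (max √|P2 t| (h ^ (1 / 3 : ℝ)))) with hD
  have hc1 : ContinuousOn P1 (Icc α β) := fun t ht => (hd2 t ht).continuousAt.continuousWithinAt
  have hc2 : ContinuousOn P2 (Icc α β) := fun t ht => (hd3 t ht).continuousAt.continuousWithinAt
  have hDc : ContinuousOn D (Icc α β) :=
    continuousOn_const.sup (hc1.abs.sup ((hc2.abs.sqrt).sup continuousOn_const))
  have hDpos : ∀ t, 0 < D t := fun t => lt_of_lt_of_le (by positivity) (le_max_left _ _)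
  obtain ⟨ts, hts, hmin⟩ := isCompact_Icc.exists_isMinOn (nonempty_Icc.2 hαβ.le) hDc
  have hminle : ∀ t ∈ Icc α β, D ts ≤ D t := fun t ht => hmin ht
  set M : ℝ := 1 / D ts with hMdef
  have hMpos : 0 < M := by
    rw [hMdef]
    exact one_div_pos.2 (hDpos ts)
  have hDM : D ts = 1 / M := by rw [hMdef, one_div_one_div]
  have hMℓ : M ≤ ℓ := by
    have : 1 / ℓ ≤ D ts := le_max_left _ _
    rw [hDM] at this
    exact (one_div_le_one_div hℓpos hMpos).1 this
  -- partial integrals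
  have hpart : ∀ s ∈ Icc α β, ‖∫ t in α..s, ei (P0 t)‖ ≤ 38 * M := by
    intro s hs
    have hsub : Icc α s ⊆ Icc α β := Icc_subset_Icc_right hs.2
    by_cases hcase1 : 1 / M ≤ 1 / ℓ
    · have hle : ℓ ≤ M := (one_div_le_one_div hMpos hℓpos).1 hcase1
      refine (triv_ei P0 hs.1).trans ?_
      have : s - α ≤ ℓ := by rw [hℓ]; linarith [hs.2]
      linarith
    push Not at hcase1
    by_cases hcase2 : 1 / M ≤ h ^ (1 / 3 : ℝ)
    · have hle : 1 / M ^ 3 ≤ h := by
        have h1 : (1 / M) ^ 3 ≤ (h ^ (1 / 3 : ℝ)) ^ 3 := pow_le_pow_left₀ (by positivity) hcase2 3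
        have h2 : (h ^ (1 / 3 : ℝ)) ^ 3 = h := by
          rw [← Real.rpow_natCast, ← Real.rpow_mul hh]
          norm_num
        rw [h2, one_div_pow] at h1
        exact h1
      have := vdcA_three hs.1 hMpos (fun t ht => hd1 t (hsub ht)) (fun t ht => hd2 t (hsub ht))
        (fun t ht => hd3 t (hsub ht)) (fun t ht => hle.trans (hP3 t (hsub ht)).1)
      linarith
    push Not at hcase2
    apply vdcA_mixed hs.1 hMpos (fun t ht => hd1 t (hsub ht)) (fun t ht => hd2 t (hsub ht))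
      (fun t ht => hd3 t (hsub ht)) (fun t ht => hh.trans (hP3 t (hsub ht)).1)
    intro t ht
    have h1 : 1 / M ≤ D t := by
      rw [← hDM]
      exact hminle t (hsub ht)
    by_contra hcon
    push Not at hcon
    obtain ⟨g1, g2⟩ := hcon
    have g3 : √|P2 t| < 1 / M := by
      rw [Real.sqrt_lt' (by positivity), one_div_pow]
      exact g2
    have : D t < 1 / M := max_lt hcase1 (max_lt g1 (max_lt g3 hcase2))
    linarith
  -- with amplitude
  have hmain : ‖∫ t in α..β, u t * Complex.exp ((P0 t : ℂ) * Complex.I)‖ ≤ 76 * A * M := by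
    have h1 := vdc_ampl (ψ := u) (ψ' := u') hαβ.le hd1 hpart hu hu'
    refine h1.trans ?_
    have h2 := huA β (right_mem_Icc.2 hαβ.le)
    calc 38 * M * (‖u β‖ + ∫ t in α..β, ‖u' t‖) ≤ 38 * M * (A + A) := by gcongr
      _ = 76 * A * M := by ring
  -- lower bound for the integral
  set K : ℝ := 2 + B with hK
  have hKpos : 0 < K := by rw [hK]; linarith
  have hnear : ∀ t ∈ Icc α β, |t - ts| ≤ M → D t ≤ K / M := by
    intro t ht htM
    have hh3 : h ≤ 1 / M ^ 3 := by
      have h1 : h ^ (1 / 3 : ℝ) ≤ 1 / M := by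
        rw [← hDM]
        exact (le_max_right _ _).trans ((le_max_right _ _).trans (le_max_right _ _))
      have h2 : (h ^ (1 / 3 : ℝ)) ^ 3 ≤ (1 / M) ^ 3 :=
        pow_le_pow_left₀ (Real.rpow_nonneg hh _) h1 3
      have h3 : (h ^ (1 / 3 : ℝ)) ^ 3 = h := by
        rw [← Real.rpow_natCast, ← Real.rpow_mul hh]
        norm_num
      rw [h3, one_div_pow] at h2
      exact h2
    have hP2s : |P2 ts| ≤ 1 / M ^ 2 := by
      have h1 : √|P2 ts| ≤ 1 / M := by
        rw [← hDM]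
        exact (le_max_left _ _).trans ((le_max_right _ _).trans (le_max_right _ _))
      rw [Real.sqrt_le_left (by positivity), one_div_pow] at h1
      exact h1
    have hP1s : |P1 ts| ≤ 1 / M := by
      rw [← hDM]
      exact (le_max_left _ _).trans (le_max_right _ _)
    have hP3b : ∀ x ∈ Icc α β, |P3 x| ≤ B / M ^ 3 := by
      intro x hx
      have h1 := hP3 x hx
      rw [abs_of_nonpos (by linarith [h1.1])]
      refine h1.2.trans ?_
      calc B * h ≤ B * (1 / M ^ 3) := by gcongr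
        _ = B / M ^ 3 := by ring
    have hP2t : ∀ x ∈ Icc α β, |x - ts| ≤ M → |P2 x| ≤ (1 + B) / M ^ 2 := by
      intro x hx hxM
      have h1 : ‖P2 x - P2 ts‖ ≤ B / M ^ 3 * ‖x - ts‖ := by
        apply Convex.norm_image_sub_le_of_norm_hasDerivWithin_le (f := P2) (f' := P3)
          (s := Icc α β) (fun y hy => (hd3 y hy).hasDerivWithinAt)
          (fun y hy => by rw [Real.norm_eq_abs]; exact hP3b y hy) (convex_Icc _ _) hts hx
      rw [Real.norm_eq_abs, Real.norm_eq_abs] at h1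
      have h2 : B / M ^ 3 * |x - ts| ≤ B / M ^ 3 * M := by gcongr
      have h3 : B / M ^ 3 * M = B / M ^ 2 := by field_simp
      have h4 : |P2 x| ≤ |P2 ts| + |P2 x - P2 ts| := by
        have := abs_add_le (P2 ts) (P2 x - P2 ts)
        rwa [add_sub_cancel] at this
      have h5 : (1 + B) / M ^ 2 = 1 / M ^ 2 + B / M ^ 2 := by ring
      rw [h5]
      linarith
    have hP1t : |P1 t| ≤ (2 + B) / M := by
      -- on the segment between ts and t
      have hseg : ∀ y ∈ uIcc ts t, y ∈ Icc α β ∧ |y - ts| ≤ M := by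
        intro y hy
        refine ⟨uIcc_subset_Icc hts ht hy, ?_⟩
        exact (abs_sub_left_of_mem_uIcc hy).trans htM
      have h1 : ‖P1 t - P1 ts‖ ≤ (1 + B) / M ^ 2 * ‖t - ts‖ := by
        apply Convex.norm_image_sub_le_of_norm_hasDerivWithin_le (f := P1) (f' := P2)
          (s := uIcc ts t) (fun y hy => (hd2 y (hseg y hy).1).hasDerivWithinAt)
          (fun y hy => by
            rw [Real.norm_eq_abs]
            exact hP2t y (hseg y hy).1 (hseg y hy).2) (convex_uIcc _ _) left_mem_uIcc right_mem_uIcc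
      rw [Real.norm_eq_abs, Real.norm_eq_abs] at h1
      have h2 : (1 + B) / M ^ 2 * |t - ts| ≤ (1 + B) / M ^ 2 * M := by gcongr
      have h3 : (1 + B) / M ^ 2 * M = (1 + B) / M := by field_simp
      have h4 : |P1 t| ≤ |P1 ts| + |P1 t - P1 ts| := by
        have := abs_add_le (P1 ts) (P1 t - P1 ts)
        rwa [add_sub_cancel] at this
      have h5 : (2 + B) / M = 1 / M + (1 + B) / M := by ring
      rw [h5]
      linarith
    have hsq : √|P2 t| ≤ (2 + B) / M := by
      rw [Real.sqrt_le_left (by positivity), div_pow]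
      refine (hP2t t ht htM).trans ?_
      gcongr
      nlinarith
    have hK1 : 1 / M ≤ K / M := by
      gcongr
      linarith
    have hh1 : h ^ (1 / 3 : ℝ) ≤ K / M := by
      refine le_trans ?_ hK1
      rw [← hDM]
      exact (le_max_right _ _).trans ((le_max_right _ _).trans (le_max_right _ _))
    have hl1 : 1 / ℓ ≤ K / M := by
      refine le_trans ?_ hK1
      rw [← hDM]
      exact le_max_left _ _
    exact max_le hl1 (max_le hP1t (max_le hsq hh1))
  -- the subinterval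
  obtain ⟨x, y, hxy, hxα, hyβ, hlen, hnr⟩ : ∃ x y : ℝ, x ≤ y ∧ α ≤ x ∧ y ≤ β ∧ y - x = M / 2 ∧
      ∀ t ∈ Icc x y, |t - ts| ≤ M := by
    by_cases hhalf : ts ≤ α + ℓ / 2
    · refine ⟨ts, ts + M / 2, by linarith, hts.1, ?_, by ring, fun t ht => ?_⟩
      · have : β = α + ℓ := by rw [hℓ]; ring
        linarith
      · rw [abs_of_nonneg (by linarith [ht.1])]
        linarith [ht.2]
    · push Not at hhalf
      refine ⟨ts - M / 2, ts, by linarith, ?_, hts.2, by ring, fun t ht => ?_⟩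
      · linarith
      · rw [abs_of_nonpos (by linarith [ht.2])]
        linarith [ht.1]
  have hxyβ : x ≤ β := hxy.trans hyβ
  have hfc : ContinuousOn (fun t => D t ^ (-(p - 1))) (Icc α β) :=
    hDc.rpow_const fun t _ => Or.inl (hDpos t).ne'
  have hfnn : ∀ t, 0 ≤ D t ^ (-(p - 1)) := fun t => Real.rpow_nonneg (hDpos t).le _
  have hlow : M / 2 * (K / M) ^ (-(p - 1)) ≤ ∫ t in α..β, D t ^ (-(p - 1)) := by
    have hsub : Icc x y ⊆ Icc α β := Icc_subset_Icc hxα hyβ
    have h1 : ∫ _ in x..y, (K / M) ^ (-(p - 1)) ≤ ∫ t in x..y, D t ^ (-(p - 1)) := by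
      apply intervalIntegral.integral_mono_on hxy
      · exact intervalIntegrable_const
      · apply ContinuousOn.intervalIntegrable
        rw [uIcc_of_le hxy]
        exact hfc.mono hsub
      · intro t ht
        exact Real.rpow_le_rpow_of_nonpos (hDpos t) (hnear t (hsub ht) (hnr t ht)) (by linarith)
    rw [intervalIntegral.integral_const, smul_eq_mul, hlen] at h1
    refine h1.trans ?_
    apply intervalIntegral.integral_mono_interval hxα hxy hyβ
    · exact Filter.Eventually.of_forall fun t => hfnn t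
    · apply ContinuousOn.intervalIntegrable
      rw [uIcc_of_le hαβ.le]
      exact hfc
  have hMp : M ^ p ≤ 2 * K ^ (p - 1) * ∫ t in α..β, D t ^ (-(p - 1)) := by
    have h1 : M / 2 * (K / M) ^ (-(p - 1)) = M ^ p / (2 * K ^ (p - 1)) := by
      rw [Real.rpow_neg (by positivity), Real.div_rpow hKpos.le hMpos.le]
      have h2 : M ^ p = M * M ^ (p - 1) := by
        rw [← Real.rpow_one_add' hMpos.le (by linarith)]
        congr 1
        ring
      rw [h2]
      have h3 : 0 < K ^ (p - 1) := by positivity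
      have h4 : 0 < M ^ (p - 1) := by positivity
      field_simp
    rw [h1] at hlow
    have h3 : 0 < 2 * K ^ (p - 1) := by positivity
    rw [div_le_iff₀ h3] at hlow
    linarith
  calc ‖∫ t in α..β, u t * Complex.exp ((P0 t : ℂ) * Complex.I)‖ ^ p
      ≤ (76 * A * M) ^ p := Real.rpow_le_rpow (norm_nonneg _) hmain (by linarith)
    _ = 76 ^ p * A ^ p * M ^ p := by
        rw [Real.mul_rpow (by positivity) hMpos.le, Real.mul_rpow (by norm_num) hA]
    _ ≤ 76 ^ p * A ^ p * (2 * K ^ (p - 1) * ∫ t in α..β, D t ^ (-(p - 1))) := by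
        gcongr
    _ = 76 ^ p * (2 * (2 + B) ^ (p - 1)) * A ^ p * ∫ t in α..β, D t ^ (-(p - 1)) := by
        rw [hK]
        ring

end Pool.Agent.QPH
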