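import Pool.Agent.QPH.Defs

/-!
Row B1: the integrand as amplitude times oscillation, derivatives of the phase.
-/

namespace Pool.Agent.QPH

open MeasureTheory Set Pool.Agent.MP_6cbfb8_an
open scoped ENNReal Real

theorem b_slit (s : ℝ) : (1 + (s : ℂ) * Complex.I) ∈ Complex.slitPlane := by
  left
  simp

theorem b_ne (s : ℝ) : (1 + (s : ℂ) * Complex.I) ≠ 0 := Complex.slitPlane_ne_zero (b_slit s)

theorem b_pos (s : ℝ) : (0 : ℝ) < 1 + s ^ 2 := by positivity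

theorem b_term (s y : ℝ) : -((y ^ 2 : ℝ) : ℂ) / (4 * (1 + (s : ℂ) * Complex.I)) =
    ((-(y ^ 2 / (4 * (1 + s ^ 2))) : ℝ) : ℂ) +
      ((y ^ 2 / 4 * (s / (1 + s ^ 2)) : ℝ) : ℂ) * Complex.I := by
  have h1 := b_ne s
  have h2 : ((1 : ℂ) + (s : ℂ) ^ 2) ≠ 0 := by
    have h := (b_pos s).ne'
    intro h3
    apply h
    exact_mod_cast h3
  have h3 : ((1 : ℂ) + (s : ℂ) ^ 2) = (1 + (s : ℂ) * Complex.I) * (1 - (s : ℂ) * Complex.I) := by
    ring_nf
    rw [Complex.I_sq]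
    ring
  have h4 : (1 - (s : ℂ) * Complex.I) ≠ 0 := by
    intro h5
    rw [h5, mul_zero] at h3
    exact h2 h3
  push_cast
  rw [h3]
  field_simp
  ring

theorem GG_eq {n : ℕ} (a : Fin n → ℝ) (y : E n) (t : ℝ) :
    GG a y t = amp a y t * Complex.exp ((Ph0 a y t : ℂ) * Complex.I) := by
  unfold GG psi1 amp Ph0 RR
  rw [Finset.prod_mul_distrib, ← Complex.exp_sum, Complex.ofReal_exp]
  rw [mul_left_comm, mul_assoc, ← Complex.exp_add, ← Complex.exp_add]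
  congr 2
  rw [Finset.sum_congr rfl fun j _ => b_term (t - a j) (y j), Finset.sum_add_distrib,
    ← Finset.sum_mul]
  push_cast
  rw [Finset.sum_neg_distrib]
  ring

theorem b_d0 (c y t : ℝ) : HasDerivAt (fun t : ℝ => y ^ 2 / 4 * ((t - c) / (1 + (t - c) ^ 2)))
    (-(y ^ 2 / 4 * (((t - c) ^ 2 - 1) / (1 + (t - c) ^ 2) ^ 2))) t := by
  have h1 : HasDerivAt (fun t : ℝ => t - c) 1 t := (hasDerivAt_id t).sub_const c
  have h2 : HasDerivAt (fun t : ℝ => 1 + (t - c) ^ 2) (2 * (t - c)) t := by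
    refine ((h1.fun_pow 2).const_add 1).congr_deriv ?_
    norm_num
  refine ((h1.fun_div h2 (b_pos (t - c)).ne').const_mul (y ^ 2 / 4)).congr_deriv ?_
  have := (b_pos (t - c)).ne'
  field_simp
  ring

theorem b_d1 (c y t : ℝ) : HasDerivAt
    (fun t : ℝ => y ^ 2 / 4 * (((t - c) ^ 2 - 1) / (1 + (t - c) ^ 2) ^ 2))
    (-(y ^ 2 / 4 * ((2 * (t - c) ^ 3 - 6 * (t - c)) / (1 + (t - c) ^ 2) ^ 3))) t := by
  have h1 : HasDerivAt (fun t : ℝ => t - c) 1 t := (hasDerivAt_id t).sub_const c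
  have h2 : HasDerivAt (fun t : ℝ => (1 + (t - c) ^ 2) ^ 2) (4 * (t - c) * (1 + (t - c) ^ 2)) t := by
    refine (((h1.fun_pow 2).const_add 1).fun_pow 2).congr_deriv ?_
    norm_num
    ring
  have h0 : HasDerivAt (fun t : ℝ => (t - c) ^ 2 - 1) (2 * (t - c)) t := by
    refine ((h1.fun_pow 2).sub_const 1).congr_deriv ?_
    norm_num
  have hp := (b_pos (t - c)).ne'
  refine ((h0.fun_div h2 (pow_ne_zero 2 hp)).const_mul (y ^ 2 / 4)).congr_deriv ?_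
  field_simp
  ring

theorem b_d2 (c y t : ℝ) : HasDerivAt
    (fun t : ℝ => y ^ 2 / 4 * ((2 * (t - c) ^ 3 - 6 * (t - c)) / (1 + (t - c) ^ 2) ^ 3))
    (-(y ^ 2 / 4 * ((6 * (t - c) ^ 4 - 36 * (t - c) ^ 2 + 6) / (1 + (t - c) ^ 2) ^ 4))) t := by
  have h1 : HasDerivAt (fun t : ℝ => t - c) 1 t := (hasDerivAt_id t).sub_const c
  have h2 : HasDerivAt (fun t : ℝ => (1 + (t - c) ^ 2) ^ 3)
      (6 * (t - c) * (1 + (t - c) ^ 2) ^ 2) t := by
    refine (((h1.fun_pow 2).const_add 1).fun_pow 3).congr_deriv ?_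
    norm_num
    ring
  have h0 : HasDerivAt (fun t : ℝ => 2 * (t - c) ^ 3 - 6 * (t - c)) (6 * (t - c) ^ 2 - 6) t := by
    refine (((h1.fun_pow 3).const_mul 2).fun_sub (h1.const_mul 6)).congr_deriv ?_
    norm_num
    ring
  have hp := (b_pos (t - c)).ne'
  refine ((h0.fun_div h2 (pow_ne_zero 3 hp)).const_mul (y ^ 2 / 4)).congr_deriv ?_
  field_simp
  ring

theorem hasDerivAt_Ph0 {n : ℕ} (a : Fin n → ℝ) (y : E n) (t : ℝ) :
    HasDerivAt (Ph0 a y) (Ph1 a y t) t := by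
  refine ((hasDerivAt_id t).fun_add
    (HasDerivAt.fun_sum (u := Finset.univ) fun j _ => b_d0 (a j) (y j) t)).congr_deriv ?_
  unfold Ph1
  rw [Finset.sum_neg_distrib]
  ring

theorem hasDerivAt_Ph1 {n : ℕ} (a : Fin n → ℝ) (y : E n) (t : ℝ) :
    HasDerivAt (Ph1 a y) (Ph2 a y t) t := by
  refine ((HasDerivAt.fun_sum (u := Finset.univ) fun j _ =>
    b_d1 (a j) (y j) t).const_sub 1).congr_deriv ?_
  unfold Ph2
  rw [Finset.sum_neg_distrib, neg_neg]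

theorem hasDerivAt_Ph2 {n : ℕ} (a : Fin n → ℝ) (y : E n) (t : ℝ) :
    HasDerivAt (Ph2 a y) (Ph3 a y t) t := by
  refine (HasDerivAt.fun_sum (u := Finset.univ) fun j _ => b_d2 (a j) (y j) t).congr_deriv ?_
  unfold Ph3
  rw [Finset.sum_neg_distrib]

end Pool.Agent.QPH
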