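import Pool.Agent.QPH.B

/-!
Row B2: the amplitude on one piece.
-/

namespace Pool.Agent.QPH

open MeasureTheory Set Pool.Agent.MP_6cbfb8_an
open scoped ENNReal Real

/-- The logarithm of the amplitude. -/
noncomputable def b2_L {n : ℕ} (a : Fin n → ℝ) (y : E n) (t : ℝ) : ℂ :=
  ∑ j, Complex.log (1 + ((t - a j : ℝ) : ℂ) * Complex.I) * (-(1 / 2)) + ((-RR a y t : ℝ) : ℂ)

/-- The derivative of `RR`. -/
noncomputable def b2_R' {n : ℕ} (a : Fin n → ℝ) (y : E n) (t : ℝ) : ℝ :=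
  ∑ j, -(y j ^ 2 / (4 * (1 + (t - a j) ^ 2)) * (2 * (t - a j) / (1 + (t - a j) ^ 2)))

/-- The derivative of the logarithm of the amplitude. -/
noncomputable def b2_L' {n : ℕ} (a : Fin n → ℝ) (y : E n) (t : ℝ) : ℂ :=
  ∑ j, Complex.I / (1 + ((t - a j : ℝ) : ℂ) * Complex.I) * (-(1 / 2)) + ((-b2_R' a y t : ℝ) : ℂ)

theorem b2_amp {n : ℕ} (a : Fin n → ℝ) (y : E n) (t : ℝ) : amp a y t = Complex.exp (b2_L a y t) := by
  unfold amp b2_L
  rw [Complex.exp_add, Complex.exp_sum, Complex.ofReal_exp]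
  congr 1
  exact Finset.prod_congr rfl fun j _ => Complex.cpow_def_of_ne_zero (b_ne _) _

theorem b2_RR {n : ℕ} (a : Fin n → ℝ) (y : E n) (t : ℝ) : HasDerivAt (RR a y) (b2_R' a y t) t := by
  refine (HasDerivAt.fun_sum (u := Finset.univ) (A' := fun j =>
    -(y j ^ 2 / (4 * (1 + (t - a j) ^ 2)) * (2 * (t - a j) / (1 + (t - a j) ^ 2))))
    fun j _ => ?_)
  have h1 : HasDerivAt (fun t : ℝ => t - a j) 1 t := (hasDerivAt_id t).sub_const (a j)
  have h2 : HasDerivAt (fun t : ℝ => 4 * (1 + (t - a j) ^ 2)) (8 * (t - a j)) t := by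
    refine (((h1.fun_pow 2).const_add 1).const_mul 4).congr_deriv ?_
    norm_num
    ring
  have hp := (b_pos (t - a j)).ne'
  refine ((hasDerivAt_const t (y j ^ 2)).fun_div h2 (by positivity)).congr_deriv ?_
  field_simp
  ring

theorem b2_deriv {n : ℕ} (a : Fin n → ℝ) (y : E n) (t : ℝ) :
    HasDerivAt (b2_L a y) (b2_L' a y t) t := by
  refine (HasDerivAt.fun_sum (u := Finset.univ) fun j _ => ?_).fun_add ((b2_RR a y t).fun_neg.ofReal_comp)
  have h1 : HasDerivAt (fun t : ℝ => (t - a j : ℝ)) 1 t := (hasDerivAt_id t).sub_const (a j)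
  have h2 : HasDerivAt (fun t : ℝ => 1 + ((t - a j : ℝ) : ℂ) * Complex.I) Complex.I t := by
    refine ((h1.ofReal_comp.mul_const Complex.I).const_add 1).congr_deriv ?_
    simp
  exact (h2.clog_real (b_slit _)).mul_const _

theorem b2_ampd {n : ℕ} (a : Fin n → ℝ) (y : E n) (t : ℝ) :
    HasDerivAt (amp a y) (amp a y t * b2_L' a y t) t := by
  have h1 : amp a y = fun t => Complex.exp (b2_L a y t) := funext fun t => b2_amp a y t
  rw [h1]
  exact (b2_deriv a y t).cexp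

theorem b2_cont {n : ℕ} (a : Fin n → ℝ) (y : E n) : Continuous fun t => amp a y t * b2_L' a y t := by
  have h1 : Continuous (amp a y) := continuous_iff_continuousAt.2 fun t => (b2_ampd a y t).continuousAt
  refine h1.mul ?_
  unfold b2_L' b2_R'
  refine Continuous.add (continuous_finsetSum _ fun j _ => ?_) ?_
  · refine Continuous.mul (continuous_const.div ?_ fun t => b_ne _) continuous_const
    exact continuous_const.add ((Complex.continuous_ofReal.comp
      (continuous_id.sub continuous_const)).mul continuous_const)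
  · refine Complex.continuous_ofReal.comp (Continuous.neg (continuous_finsetSum _ fun j _ => ?_))
    refine Continuous.neg (Continuous.mul (continuous_const.div (by fun_prop) fun t => ?_)
      (Continuous.div (by fun_prop) (by fun_prop) fun t => ?_))
    · have := b_pos (t - a j)
      positivity
    · exact (b_pos (t - a j)).ne'

theorem b2_low {S s y : ℝ} (hS : 3 ≤ S) (h1 : S ≤ |s|) (h2 : |s| ≤ 4 * S) :
    1 / 1024 * (y ^ 2 / S ^ 4) ≤ y ^ 2 / 4 * ((6 * s ^ 4 - 36 * s ^ 2 + 6) / (1 + s ^ 2) ^ 4) := by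
  have hx1 : S ^ 2 ≤ s ^ 2 := by
    rw [← sq_abs s]
    exact pow_le_pow_left₀ (by linarith) h1 2
  have hx2 : s ^ 2 ≤ 16 * S ^ 2 := by
    rw [← sq_abs s]
    have := pow_le_pow_left₀ (abs_nonneg s) h2 2
    nlinarith
  have hS2 : 9 ≤ S ^ 2 := by nlinarith
  obtain ⟨x, hx⟩ : ∃ x, x = s ^ 2 := ⟨_, rfl⟩
  have e1 : s ^ 4 = x ^ 2 := by rw [hx]; ring
  rw [e1, ← hx]
  rw [← hx] at hx1 hx2
  have hx9 : 9 ≤ x := hS2.trans hx1
  have hS4 : 0 < S ^ 4 := by positivity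
  have key : 1 / 256 / S ^ 4 ≤ (6 * x ^ 2 - 36 * x + 6) / (1 + x) ^ 4 := by
    have k1 : 1 / 256 / S ^ 4 ≤ 1 / x ^ 2 := by
      rw [div_div, div_le_div_iff₀ (by positivity) (by positivity)]
      have k2 : x ^ 2 ≤ (16 * S ^ 2) ^ 2 := pow_le_pow_left₀ (by linarith) hx2 2
      nlinarith
    refine k1.trans ?_
    rw [div_le_div_iff₀ (by positivity) (by positivity)]
    have k3 : 0 ≤ (x - 9) := by linarith
    have k4 : 0 ≤ x ^ 3 * (x - 9) := by positivity
    have k5 : 729 ≤ x ^ 3 := by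
      have := pow_le_pow_left₀ (by norm_num : (0:ℝ) ≤ 9) hx9 3
      norm_num at this
      exact this
    have k6 : 81 * x ≤ x ^ 3 := by
      have : 81 ≤ x ^ 2 := by nlinarith
      nlinarith
    nlinarith
  have h3 : 1 / 1024 * (y ^ 2 / S ^ 4) = y ^ 2 / 4 * (1 / 256 / S ^ 4) := by
    field_simp
    ring
  rw [h3]
  exact mul_le_mul_of_nonneg_left key (by positivity)

theorem b2_up {S s y : ℝ} (hS : 3 ≤ S) (h1 : S ≤ |s|) :
    y ^ 2 / 4 * ((6 * s ^ 4 - 36 * s ^ 2 + 6) / (1 + s ^ 2) ^ 4) ≤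
      1792 * (1 / 1024 * (y ^ 2 / S ^ 4)) := by
  have hx1 : S ^ 2 ≤ s ^ 2 := by
    rw [← sq_abs s]
    exact pow_le_pow_left₀ (by linarith) h1 2
  have hS2 : 9 ≤ S ^ 2 := by nlinarith
  obtain ⟨x, hx⟩ : ∃ x, x = s ^ 2 := ⟨_, rfl⟩
  have e1 : s ^ 4 = x ^ 2 := by rw [hx]; ring
  rw [e1, ← hx]
  rw [← hx] at hx1
  have hx9 : 9 ≤ x := hS2.trans hx1
  have hS4 : 0 < S ^ 4 := by positivity
  have key : (6 * x ^ 2 - 36 * x + 6) / (1 + x) ^ 4 ≤ 6 / S ^ 4 := by
    have k1 : (6 * x ^ 2 - 36 * x + 6) / (1 + x) ^ 4 ≤ 6 / x ^ 2 := by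
      rw [div_le_div_iff₀ (by positivity) (by positivity)]
      nlinarith [pow_nonneg (by linarith : (0:ℝ) ≤ x) 3, pow_nonneg (by linarith : (0:ℝ) ≤ x) 4,
        mul_nonneg (pow_nonneg (by linarith : (0:ℝ) ≤ x) 2) (by linarith : (0:ℝ) ≤ x - 9)]
    refine k1.trans (div_le_div_of_nonneg_left (by norm_num) hS4 ?_)
    have := pow_le_pow_left₀ (by positivity : (0:ℝ) ≤ S ^ 2) hx1 2
    calc S ^ 4 = (S ^ 2) ^ 2 := by ring
      _ ≤ x ^ 2 := this
  have h3 : 1792 * (1 / 1024 * (y ^ 2 / S ^ 4)) = y ^ 2 / 4 * (7 / S ^ 4) := by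
    field_simp
    ring
  rw [h3]
  refine mul_le_mul_of_nonneg_left (key.trans ?_) (by positivity)
  gcongr
  norm_num

theorem b2_norm {n : ℕ} (a S : Fin n → ℝ) (y : E n) (t : ℝ) (hS : ∀ j, 3 ≤ S j)
    (h : ∀ j, S j ≤ |t - a j|) :
    ‖amp a y t‖ ≤ (∏ j, S j) ^ (-(1 / 2) : ℝ) * Real.exp (-RR a y t) := by
  unfold amp
  rw [norm_mul, Complex.norm_real, Real.norm_eq_abs, abs_of_pos (Real.exp_pos _)]
  refine mul_le_mul_of_nonneg_right ?_ (Real.exp_pos _).le
  rw [norm_prod, ← Real.finsetProd_rpow _ _ fun j _ => by linarith [hS j]]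
  refine Finset.prod_le_prod (fun _ _ => norm_nonneg _) fun j _ => ?_
  rw [Complex.norm_cpow_of_ne_zero (b_ne _)]
  have e1 : (-(1 / 2) : ℂ).re = -(1 / 2) := by norm_num
  have e2 : (-(1 / 2) : ℂ).im = 0 := by norm_num
  rw [e1, e2, mul_zero, Real.exp_zero, div_one]
  have h2 : S j ≤ ‖(1 : ℂ) + ((t - a j : ℝ) : ℂ) * Complex.I‖ := by
    refine (h j).trans ?_
    have := Complex.abs_im_le_norm ((1 : ℂ) + ((t - a j : ℝ) : ℂ) * Complex.I)
    simpa using this
  exact Real.rpow_le_rpow_of_nonpos (by linarith [hS j]) h2 (by norm_num)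

theorem b2_comp {n : ℕ} (a S : Fin n → ℝ) (y : E n) (t t' : ℝ)
    (h : ∀ j, |t - a j| ≤ 4 * S j) (h' : ∀ j, S j ≤ |t' - a j|) :
    1 / 16 * RR a y t' ≤ RR a y t := by
  unfold RR
  rw [Finset.mul_sum]
  refine Finset.sum_le_sum fun j _ => ?_
  have h1 : (t - a j) ^ 2 ≤ 16 * (t' - a j) ^ 2 := by
    rw [← sq_abs (t - a j), ← sq_abs (t' - a j)]
    have h3 := pow_le_pow_left₀ (abs_nonneg _) ((h j).trans
      (mul_le_mul_of_nonneg_left (h' j) (by norm_num : (0:ℝ) ≤ 4))) 2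
    nlinarith
  have h2 : 1 / 16 * (y j ^ 2 / (4 * (1 + (t' - a j) ^ 2))) =
      y j ^ 2 / (4 * (16 + 16 * (t' - a j) ^ 2)) := by
    have := (b_pos (t' - a j)).ne'
    have h4 : (16 + 16 * (t' - a j) ^ 2) ≠ 0 := by positivity
    field_simp
  rw [h2]
  refine div_le_div_of_nonneg_left (by positivity) (by positivity) ?_
  linarith

theorem b2_RR0 {n : ℕ} (a : Fin n → ℝ) (y : E n) (t : ℝ) : 0 ≤ RR a y t :=
  Finset.sum_nonneg fun _ _ => by positivity

theorem b2_normL {n : ℕ} (a S : Fin n → ℝ) (y : E n) (t : ℝ) (hS : ∀ j, 3 ≤ S j)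
    (h : ∀ j, S j ≤ |t - a j|) :
    ‖b2_L' a y t‖ ≤ (1 / 2 + 2 * RR a y t) * ∑ j, 1 / S j := by
  unfold b2_L'
  have hm : ∀ j, S j ≤ ‖(1 : ℂ) + ((t - a j : ℝ) : ℂ) * Complex.I‖ := fun j => by
    refine (h j).trans ?_
    have := Complex.abs_im_le_norm ((1 : ℂ) + ((t - a j : ℝ) : ℂ) * Complex.I)
    simpa using this
  have h1 : ‖∑ j, Complex.I / (1 + ((t - a j : ℝ) : ℂ) * Complex.I) * (-(1 / 2))‖ ≤
      1 / 2 * ∑ j, 1 / S j := by
    refine (norm_sum_le _ _).trans ?_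
    rw [Finset.mul_sum]
    refine Finset.sum_le_sum fun j _ => ?_
    rw [norm_mul, norm_div, Complex.norm_I]
    have e1 : ‖(-(1 / 2) : ℂ)‖ = 1 / 2 := by
      rw [norm_neg]
      norm_num
    rw [e1, mul_comm]
    refine mul_le_mul_of_nonneg_left ?_ (by norm_num)
    exact one_div_le_one_div_of_le (by linarith [hS j]) (hm j)
  have h2 : ‖((-b2_R' a y t : ℝ) : ℂ)‖ ≤ 2 * RR a y t * ∑ j, 1 / S j := by
    rw [Complex.norm_real, Real.norm_eq_abs, abs_neg, Finset.mul_sum]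
    unfold b2_R'
    refine (Finset.abs_sum_le_sum_abs _ _).trans (Finset.sum_le_sum fun j _ => ?_)
    rw [abs_neg, abs_mul, abs_of_nonneg (by positivity : 0 ≤ y j ^ 2 / (4 * (1 + (t - a j) ^ 2)))]
    have e2 : |2 * (t - a j) / (1 + (t - a j) ^ 2)| ≤ 2 * (1 / S j) := by
      have hs : 0 < |t - a j| := lt_of_lt_of_le (by linarith [hS j]) (h j)
      rw [abs_div, abs_mul, abs_of_pos (b_pos (t - a j)), abs_of_pos (by norm_num : (0:ℝ) < 2),
        mul_div_assoc]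
      refine mul_le_mul_of_nonneg_left ?_ (by norm_num)
      refine le_trans ?_ (one_div_le_one_div_of_le (by linarith [hS j]) (h j))
      rw [div_le_div_iff₀ (b_pos _) hs, one_mul, ← sq, sq_abs]
      linarith
    have e3 : y j ^ 2 / (4 * (1 + (t - a j) ^ 2)) ≤ RR a y t := by
      unfold RR
      exact Finset.single_le_sum (f := fun j => y j ^ 2 / (4 * (1 + (t - a j) ^ 2)))
        (fun _ _ => by positivity) (Finset.mem_univ j)
    calc y j ^ 2 / (4 * (1 + (t - a j) ^ 2)) * |2 * (t - a j) / (1 + (t - a j) ^ 2)| ≤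
        RR a y t * (2 * (1 / S j)) :=
          mul_le_mul e3 e2 (abs_nonneg _) (b2_RR0 a y t)
      _ = 2 * RR a y t * (1 / S j) := by ring
  refine (norm_add_le _ _).trans ?_
  calc _ ≤ 1 / 2 * ∑ j, 1 / S j + 2 * RR a y t * ∑ j, 1 / S j := add_le_add h1 h2
    _ = _ := by ring

theorem b2_exp {x : ℝ} (hx : 0 ≤ x) : (1 / 2 + 2 * x) * Real.exp (-x) ≤ 5 * Real.exp (-(x / 2)) := by
  have h1 : x / 2 + 1 ≤ Real.exp (x / 2) := Real.add_one_le_exp _
  have h2 : Real.exp (-x) = Real.exp (-(x / 2)) * Real.exp (-(x / 2)) := by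
    rw [← Real.exp_add]
    congr 1
    ring
  have h3 : (1 / 2 + 2 * x) * Real.exp (-(x / 2)) ≤ 5 := by
    have h4 : 1 / 2 + 2 * x ≤ 5 * Real.exp (x / 2) := by linarith
    calc (1 / 2 + 2 * x) * Real.exp (-(x / 2)) ≤ 5 * Real.exp (x / 2) * Real.exp (-(x / 2)) :=
          mul_le_mul_of_nonneg_right h4 (Real.exp_pos _).le
      _ = 5 := by rw [mul_assoc, ← Real.exp_add]; simp
  rw [h2, ← mul_assoc]
  exact mul_le_mul_of_nonneg_right h3 (Real.exp_pos _).le

theorem b2_len {c S α β : ℝ} (hαβ : α < β) (hS : 3 ≤ S)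
    (h : ∀ t ∈ Icc α β, S ≤ |t - c| ∧ |t - c| ≤ 4 * S) : β - α ≤ 3 * S := by
  have h1 := h α ⟨le_rfl, hαβ.le⟩
  have h2 := h β ⟨hαβ.le, le_rfl⟩
  rcases le_total c α with h3 | h3
  · rw [abs_of_nonneg (by linarith)] at h1 h2
    linarith [h1.1, h2.2]
  rcases le_total β c with h4 | h4
  · rw [abs_of_nonpos (by linarith)] at h1 h2
    linarith [h1.2, h2.1]
  · have h5 := (h c ⟨h3, h4⟩).1
    rw [sub_self, abs_zero] at h5
    linarith

theorem piece_data (n : ℕ) : ∃ C c : ℝ, 0 < C ∧ 0 < c ∧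
    ∀ (a S : Fin n → ℝ) (α β : ℝ) (y : E n), α < β → (∀ j, 3 ≤ S j) →
      (∀ t ∈ Icc α β, ∀ j, S j ≤ |t - a j| ∧ |t - a j| ≤ 4 * S j) →
      ∃ u' : ℝ → ℂ, (∀ t, HasDerivAt (amp a y) (u' t) t) ∧ Continuous u' ∧
      (∀ t ∈ Icc α β, (1 / 1024) * (∑ j, y j ^ 2 / S j ^ 4) ≤ -Ph3 a y t ∧
        -Ph3 a y t ≤ 1792 * ((1 / 1024) * (∑ j, y j ^ 2 / S j ^ 4)) ∧
        hl a y t ≤ (1 / 1024) * (∑ j, y j ^ 2 / S j ^ 4)) ∧
      ∀ t' ∈ Icc α β,
        (∀ t ∈ Icc α β, ‖amp a y t‖ ≤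
          C * (∏ j, S j) ^ (-(1 / 2) : ℝ) * Real.exp (-c * RR a y t')) ∧
        (∫ t in α..β, ‖u' t‖) ≤
          C * (∏ j, S j) ^ (-(1 / 2) : ℝ) * Real.exp (-c * RR a y t') := by
  refine ⟨15 * n + 1, 1 / 32, by positivity, by norm_num, ?_⟩
  intro a S α β y hαβ hS h
  refine ⟨fun t => amp a y t * b2_L' a y t, b2_ampd a y, b2_cont a y, ?_, ?_⟩
  · intro t ht
    have hb := h t ht
    refine ⟨?_, ?_, ?_⟩
    · unfold Ph3
      rw [neg_neg, Finset.mul_sum]
      exact Finset.sum_le_sum fun j _ => b2_low (hS j) (hb j).1 (hb j).2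
    · unfold Ph3
      rw [neg_neg, Finset.mul_sum, Finset.mul_sum]
      exact Finset.sum_le_sum fun j _ => b2_up (hS j) (hb j).1
    · unfold hl
      refine mul_le_mul_of_nonneg_left (Finset.sum_le_sum fun j _ => ?_) (by norm_num)
      have h3 := hS j
      refine div_le_div_of_nonneg_left (by positivity) (by positivity) ?_
      have h4 := pow_le_pow_left₀ (by linarith) (hb j).1 4
      rwa [Even.pow_abs (by decide : Even 4)] at h4
  · intro t' ht'
    have hP : 0 ≤ (∏ j, S j) ^ (-(1 / 2) : ℝ) :=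
      Real.rpow_nonneg (Finset.prod_nonneg fun j _ => by linarith [hS j]) _
    have hn : (0 : ℝ) ≤ n := Nat.cast_nonneg n
    constructor
    · intro t ht
      refine (b2_norm a S y t hS fun j => (h t ht j).1).trans ?_
      have h1 := b2_comp a S y t t' (fun j => (h t ht j).2) fun j => (h t' ht' j).1
      have h2 := b2_RR0 a y t'
      have h3 : Real.exp (-RR a y t) ≤ Real.exp (-(1 / 32) * RR a y t') :=
        Real.exp_le_exp.2 (by linarith)
      calc (∏ j, S j) ^ (-(1 / 2) : ℝ) * Real.exp (-RR a y t) ≤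
          (∏ j, S j) ^ (-(1 / 2) : ℝ) * Real.exp (-(1 / 32) * RR a y t') :=
            mul_le_mul_of_nonneg_left h3 hP
        _ = 1 * ((∏ j, S j) ^ (-(1 / 2) : ℝ) * Real.exp (-(1 / 32) * RR a y t')) := by ring
        _ ≤ (15 * n + 1) * ((∏ j, S j) ^ (-(1 / 2) : ℝ) * Real.exp (-(1 / 32) * RR a y t')) :=
            mul_le_mul_of_nonneg_right (by linarith) (mul_nonneg hP (Real.exp_pos _).le)
        _ = _ := by ring
    · set D : ℝ := (∏ j, S j) ^ (-(1 / 2) : ℝ) * (5 * Real.exp (-(1 / 32) * RR a y t')) *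
        ∑ j, 1 / S j with hD
      have hpt : ∀ t ∈ Icc α β, ‖amp a y t * b2_L' a y t‖ ≤ D := by
        intro t ht
        have h0 := b2_RR0 a y t
        have h1 := b2_norm a S y t hS fun j => (h t ht j).1
        have h2 := b2_normL a S y t hS fun j => (h t ht j).1
        have h3 := b2_comp a S y t t' (fun j => (h t ht j).2) fun j => (h t' ht' j).1
        have hs : 0 ≤ ∑ j, 1 / S j := Finset.sum_nonneg fun j _ => by
          have := hS j
          positivity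
        rw [norm_mul]
        calc ‖amp a y t‖ * ‖b2_L' a y t‖ ≤ ((∏ j, S j) ^ (-(1 / 2) : ℝ) * Real.exp (-RR a y t)) *
            ((1 / 2 + 2 * RR a y t) * ∑ j, 1 / S j) :=
              mul_le_mul h1 h2 (norm_nonneg _) (mul_nonneg hP (Real.exp_pos _).le)
          _ = (∏ j, S j) ^ (-(1 / 2) : ℝ) * ((1 / 2 + 2 * RR a y t) * Real.exp (-RR a y t)) *
              ∑ j, 1 / S j := by ring
          _ ≤ (∏ j, S j) ^ (-(1 / 2) : ℝ) * (5 * Real.exp (-(RR a y t / 2))) * ∑ j, 1 / S j :=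
              mul_le_mul_of_nonneg_right (mul_le_mul_of_nonneg_left (b2_exp h0) hP) hs
          _ ≤ D := by
              rw [hD]
              have h4 : Real.exp (-(RR a y t / 2)) ≤ Real.exp (-(1 / 32) * RR a y t') :=
                Real.exp_le_exp.2 (by linarith)
              gcongr
      have h5 : ‖∫ t in α..β, ‖amp a y t * b2_L' a y t‖‖ ≤ D * |β - α| := by
        refine intervalIntegral.norm_integral_le_of_norm_le_const fun t ht => ?_
        rw [norm_norm]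
        rw [uIoc_of_le hαβ.le] at ht
        exact hpt t ⟨ht.1.le, ht.2⟩
      refine (le_abs_self _).trans (h5.trans ?_)
      rw [abs_of_pos (by linarith)]
      have h6 : (∑ j, 1 / S j) * (β - α) ≤ 3 * n := by
        rw [Finset.sum_mul]
        have h7 : ∀ j ∈ Finset.univ, 1 / S j * (β - α) ≤ 3 := fun j _ => by
          have h8 := b2_len (c := a j) hαβ (hS j) fun t ht => h t ht j
          have h9 : 0 < S j := by linarith [hS j]
          rw [one_div, inv_mul_le_iff₀ h9]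
          linarith
        refine (Finset.sum_le_card_nsmul _ _ _ h7).trans ?_
        rw [Finset.card_univ, Fintype.card_fin, nsmul_eq_mul]
        linarith
      calc D * (β - α) = (∏ j, S j) ^ (-(1 / 2) : ℝ) * (5 * Real.exp (-(1 / 32) * RR a y t')) *
            ((∑ j, 1 / S j) * (β - α)) := by rw [hD]; ring
        _ ≤ (∏ j, S j) ^ (-(1 / 2) : ℝ) * (5 * Real.exp (-(1 / 32) * RR a y t')) * (3 * n) := by
            gcongr
        _ = (15 * n) * ((∏ j, S j) ^ (-(1 / 2) : ℝ) * Real.exp (-(1 / 32) * RR a y t')) := by ring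
        _ ≤ (15 * n + 1) * ((∏ j, S j) ^ (-(1 / 2) : ℝ) * Real.exp (-(1 / 32) * RR a y t')) :=
            mul_le_mul_of_nonneg_right (by linarith) (mul_nonneg hP (Real.exp_pos _).le)
        _ = _ := by ring

end Pool.Agent.QPH
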