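import Pool.Agent.QPH.W

/-!
The substitution at a fixed time: in the new variables the derivative of the phase is
`1 - |u|^2` and its second derivative is a diagonal quadratic form.
-/

set_option autoImplicit false

namespace Pool.Agent.QPH

open MeasureTheory Set Pool.Agent.MP_6cbfb8_an
open scoped ENNReal Real

/-- The diagonal linear map. -/
noncomputable def U_dmap {n : ℕ} (w : Fin n → ℝ) : E n →ₗ[ℝ] E n where
  toFun u := WithLp.toLp 2 fun j => w j * u j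
  map_add' u v := by
    ext j
    simp [mul_add]
  map_smul' c u := by
    ext j
    simp [mul_left_comm]

theorem U_dmap_apply {n : ℕ} (w : Fin n → ℝ) (u : E n) (j : Fin n) : U_dmap w u j = w j * u j := rfl

theorem U_det_dmap {n : ℕ} (w : Fin n → ℝ) : LinearMap.det (U_dmap w) = ∏ j, w j := by
  have h : LinearMap.toMatrix (EuclideanSpace.basisFun (Fin n) ℝ).toBasis
      (EuclideanSpace.basisFun (Fin n) ℝ).toBasis (U_dmap w) = Matrix.diagonal w := by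
    ext i j
    rw [LinearMap.toMatrix_apply]
    simp only [OrthonormalBasis.coe_toBasis, EuclideanSpace.basisFun_apply,
      OrthonormalBasis.coe_toBasis_repr_apply, EuclideanSpace.basisFun_repr, U_dmap_apply]
    by_cases hij : i = j
    · subst hij
      simp
    · simp [hij]
  rw [← LinearMap.det_toMatrix (EuclideanSpace.basisFun (Fin n) ℝ).toBasis, h,
    Matrix.det_diagonal]

theorem U_lintegral_dmap {n : ℕ} (w : Fin n → ℝ) (hw : ∀ j, 0 < w j) (F : E n → ℝ≥0∞)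
    (hF : Measurable F) :
    ∫⁻ y : E n, F y = ENNReal.ofReal (∏ j, w j) * ∫⁻ u : E n, F (U_dmap w u) := by
  have hd : 0 < ∏ j, w j := Finset.prod_pos fun j _ => hw j
  have hdet : LinearMap.det (U_dmap w) ≠ 0 := by
    rw [U_det_dmap]
    exact hd.ne'
  have hm : Measurable (U_dmap w) := (U_dmap w).continuous_of_finiteDimensional.measurable
  have h1 := Measure.map_linearMap_addHaar_eq_smul_addHaar (volume : Measure (E n)) hdet
  have h2 : ∫⁻ u : E n, F (U_dmap w u) = ENNReal.ofReal |(∏ j, w j)⁻¹| * ∫⁻ y : E n, F y := by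
    rw [← lintegral_map hF hm, h1, lintegral_smul_measure, U_det_dmap, smul_eq_mul]
  rw [h2, ← mul_assoc, ← ENNReal.ofReal_mul hd.le, abs_of_pos (inv_pos.2 hd),
    mul_inv_cancel₀ hd.ne', ENNReal.ofReal_one, one_mul]

/-- The scale in the variable `j`. -/
noncomputable def U_wt (s : ℝ) : ℝ := 2 * (1 + s ^ 2) / √(s ^ 2 - 1)

theorem U_wt_pos {s : ℝ} (hs : 3 ≤ |s|) : 0 < U_wt s := by
  have h : 9 ≤ s ^ 2 := by
    rw [← sq_abs]
    nlinarith
  unfold U_wt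
  have : 0 < √(s ^ 2 - 1) := Real.sqrt_pos.2 (by linarith)
  positivity

theorem U_wt_sq {s : ℝ} (hs : 3 ≤ |s|) : U_wt s ^ 2 = 4 * (1 + s ^ 2) ^ 2 / (s ^ 2 - 1) := by
  have h : 9 ≤ s ^ 2 := by
    rw [← sq_abs]
    nlinarith
  unfold U_wt
  rw [div_pow, Real.sq_sqrt (by linarith)]
  ring

theorem U_wt_le {s : ℝ} (hs : 3 ≤ |s|) : U_wt s ≤ 4 * |s| := by
  have h : 9 ≤ s ^ 2 := by
    rw [← sq_abs]
    nlinarith
  refine le_of_sq_le_sq ?_ (by positivity)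
  rw [U_wt_sq hs, mul_pow, sq_abs, div_le_iff₀ (by linarith)]
  nlinarith

/-- The coefficient of the second derivative. -/
noncomputable def U_bt (s : ℝ) : ℝ := (2 * s ^ 3 - 6 * s) / (s ^ 4 - 1)

theorem U_bt_ge {s : ℝ} (hs : 3 ≤ |s|) : |s|⁻¹ ≤ |U_bt s| := by
  have h : 9 ≤ s ^ 2 := by
    rw [← sq_abs]
    nlinarith
  have hp : 0 < |s| := by linarith
  have h4 : 0 < s ^ 4 - 1 := by nlinarith
  unfold U_bt
  have e : 2 * s ^ 3 - 6 * s = s * (2 * (s ^ 2 - 3)) := by ring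
  rw [abs_div, abs_of_pos h4, le_div_iff₀ h4, e, abs_mul, abs_of_pos (by linarith : (0:ℝ) < 2 * (s ^ 2 - 3)),
    inv_mul_le_iff₀ hp, ← mul_assoc, abs_mul_abs_self]
  nlinarith

theorem U_bt_ne {s : ℝ} (hs : 3 ≤ |s|) : U_bt s ≠ 0 := by
  have h1 := U_bt_ge hs
  have h2 : 0 < |s|⁻¹ := inv_pos.2 (by linarith)
  exact abs_pos.1 (h2.trans_le h1)

theorem U_sq_ge {s : ℝ} (hs : 3 ≤ |s|) : 9 ≤ s ^ 2 := by
  rw [← sq_abs]
  nlinarith

theorem U_Ph1_dmap {n : ℕ} (a : Fin n → ℝ) (t : ℝ) (h : ∀ j, 3 ≤ |t - a j|) (u : E n) :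
    Ph1 a (U_dmap (fun j => U_wt (t - a j)) u) t = 1 - ‖u‖ ^ 2 := by
  unfold Ph1
  rw [EuclideanSpace.real_norm_sq_eq]
  congr 1
  refine Finset.sum_congr rfl fun j _ => ?_
  have h9 := U_sq_ge (h j)
  rw [U_dmap_apply, mul_pow, U_wt_sq (h j)]
  have h1 : (t - a j) ^ 2 - 1 ≠ 0 := by linarith
  have h2 : 1 + (t - a j) ^ 2 ≠ 0 := by linarith
  field_simp

theorem U_Ph2_dmap {n : ℕ} (a : Fin n → ℝ) (t : ℝ) (h : ∀ j, 3 ≤ |t - a j|) (u : E n) :
    Ph2 a (U_dmap (fun j => U_wt (t - a j)) u) t = ∑ j, U_bt (t - a j) * u j ^ 2 := by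
  unfold Ph2
  refine Finset.sum_congr rfl fun j _ => ?_
  have h9 := U_sq_ge (h j)
  rw [U_dmap_apply, mul_pow, U_wt_sq (h j)]
  unfold U_bt
  have h1 : (t - a j) ^ 2 - 1 ≠ 0 := by linarith
  have h2 : 1 + (t - a j) ^ 2 ≠ 0 := by linarith
  have h3 : (t - a j) ^ 4 - 1 = ((t - a j) ^ 2 - 1) * (1 + (t - a j) ^ 2) := by ring
  rw [h3]
  field_simp

theorem U_RR_dmap {n : ℕ} (a : Fin n → ℝ) (t : ℝ) (h : ∀ j, 3 ≤ |t - a j|) (u : E n) :
    ‖u‖ ^ 2 ≤ RR a (U_dmap (fun j => U_wt (t - a j)) u) t := by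
  unfold RR
  rw [EuclideanSpace.real_norm_sq_eq]
  refine Finset.sum_le_sum fun j _ => ?_
  have h9 := U_sq_ge (h j)
  rw [U_dmap_apply, mul_pow, U_wt_sq (h j)]
  have h1 : 0 < (t - a j) ^ 2 - 1 := by linarith
  have h2 : 0 < 1 + (t - a j) ^ 2 := by linarith
  have e : 4 * (1 + (t - a j) ^ 2) ^ 2 / ((t - a j) ^ 2 - 1) * u j ^ 2 /
      (4 * (1 + (t - a j) ^ 2)) = u j ^ 2 * ((1 + (t - a j) ^ 2) / ((t - a j) ^ 2 - 1)) := by
    field_simp
  rw [e]
  have h3 : 1 ≤ (1 + (t - a j) ^ 2) / ((t - a j) ^ 2 - 1) := by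
    rw [le_div_iff₀ h1]
    linarith
  nlinarith [sq_nonneg (u j)]

theorem U_meas_RR {n : ℕ} (a : Fin n → ℝ) (t : ℝ) : Measurable fun y : E n => RR a y t := by
  unfold RR
  fun_prop

theorem U_meas_Ph1 {n : ℕ} (a : Fin n → ℝ) (t : ℝ) : Measurable fun y : E n => Ph1 a y t := by
  unfold Ph1
  fun_prop

theorem U_meas_Ph2 {n : ℕ} (a : Fin n → ℝ) (t : ℝ) : Measurable fun y : E n => Ph2 a y t := by
  unfold Ph2
  fun_prop

/-- Row U: the weight at a fixed time. -/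
theorem fixed_cell (n : ℕ) (c al be : ℝ) (hc : 0 < c) (hal : 0 ≤ al) (hal1 : al < 1)
    (hbe : 0 ≤ be) (hbe1 : be < 1) : ∃ C : ℝ, 0 ≤ C ∧ ∀ (a : Fin n → ℝ) (t : ℝ) (J : Fin n),
      (∀ j, 3 ≤ |t - a j|) →
      ∫⁻ y : E n, ENNReal.ofReal (Real.exp (-c * RR a y t)) *
        (ENNReal.ofReal |Ph1 a y t| ^ (-al) * ENNReal.ofReal |Ph2 a y t| ^ (-(be / 2))) ≤
          ENNReal.ofReal (C * (∏ j, |t - a j|) * |t - a J| ^ (be / 2)) := by
  obtain ⟨C, hC, H⟩ := quad_weight n c al (be / 2) hc hal hal1 (by linarith) (by linarith)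
  refine ⟨4 ^ n * C, by positivity, fun a t J h => ?_⟩
  have hmeas : Measurable fun y : E n => ENNReal.ofReal (Real.exp (-c * RR a y t)) *
      (ENNReal.ofReal |Ph1 a y t| ^ (-al) * ENNReal.ofReal |Ph2 a y t| ^ (-(be / 2))) := by
    have h1 := U_meas_RR (n := n) a t
    have h2 := U_meas_Ph1 (n := n) a t
    have h3 := U_meas_Ph2 (n := n) a t
    fun_prop
  rw [U_lintegral_dmap (fun j => U_wt (t - a j)) (fun j => U_wt_pos (h j)) _ hmeas]
  have hpos : ∀ j, 0 < |t - a j| := fun j => by linarith [h j]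
  have hprod : ∏ j, U_wt (t - a j) ≤ 4 ^ n * ∏ j, |t - a j| := by
    calc ∏ j, U_wt (t - a j) ≤ ∏ j : Fin n, (4 * |t - a j|) :=
          Finset.prod_le_prod (fun j _ => (U_wt_pos (h j)).le) fun j _ => U_wt_le (h j)
      _ = _ := by rw [Finset.prod_mul_distrib, Finset.prod_const, Finset.card_univ, Fintype.card_fin]
  have hb : |U_bt (t - a J)| ^ (-(be / 2)) ≤ |t - a J| ^ (be / 2) := by
    have h1 := U_bt_ge (h J)
    have h2 : 0 < |t - a J|⁻¹ := inv_pos.2 (hpos J)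
    calc |U_bt (t - a J)| ^ (-(be / 2)) ≤ (|t - a J|⁻¹) ^ (-(be / 2)) :=
          Real.rpow_le_rpow_of_nonpos h2 h1 (by linarith)
      _ = |t - a J| ^ (be / 2) := by
          rw [Real.inv_rpow (hpos J).le, Real.rpow_neg (hpos J).le, inv_inv]
  calc ENNReal.ofReal (∏ j, U_wt (t - a j)) * ∫⁻ u : E n,
        ENNReal.ofReal (Real.exp (-c * RR a (U_dmap (fun j => U_wt (t - a j)) u) t)) *
        (ENNReal.ofReal |Ph1 a (U_dmap (fun j => U_wt (t - a j)) u) t| ^ (-al) *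
          ENNReal.ofReal |Ph2 a (U_dmap (fun j => U_wt (t - a j)) u) t| ^ (-(be / 2)))
      ≤ ENNReal.ofReal (4 ^ n * ∏ j, |t - a j|) * ∫⁻ u : E n,
        ENNReal.ofReal (Real.exp (-c * ‖u‖ ^ 2)) *
        (ENNReal.ofReal |1 - ‖u‖ ^ 2| ^ (-al) *
          ENNReal.ofReal |∑ j, U_bt (t - a j) * u j ^ 2| ^ (-(be / 2))) := by
        refine mul_le_mul' (ENNReal.ofReal_le_ofReal hprod) (lintegral_mono fun u => ?_)
        simp only
        rw [U_Ph1_dmap a t h u, U_Ph2_dmap a t h u]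
        refine mul_le_mul_left (ENNReal.ofReal_le_ofReal (Real.exp_le_exp.2 ?_)) _
        have h3 := U_RR_dmap a t h u
        nlinarith
    _ ≤ ENNReal.ofReal (4 ^ n * ∏ j, |t - a j|) *
        ENNReal.ofReal (C * |U_bt (t - a J)| ^ (-(be / 2))) := by
        gcongr
        exact H (fun j => U_bt (t - a j)) J (U_bt_ne (h J))
    _ = ENNReal.ofReal ((4 ^ n * ∏ j, |t - a j|) * (C * |U_bt (t - a J)| ^ (-(be / 2)))) := by
        have : 0 ≤ ∏ j, |t - a j| := Finset.prod_nonneg fun j _ => abs_nonneg _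
        exact (ENNReal.ofReal_mul (by positivity)).symm
    _ ≤ _ := by
        refine ENNReal.ofReal_le_ofReal ?_
        have h4 : 0 ≤ ∏ j, |t - a j| := Finset.prod_nonneg fun j _ => abs_nonneg _
        calc (4 ^ n * ∏ j, |t - a j|) * (C * |U_bt (t - a J)| ^ (-(be / 2)))
            ≤ (4 ^ n * ∏ j, |t - a j|) * (C * |t - a J| ^ (be / 2)) := by gcongr
          _ = _ := by ring

end Pool.Agent.QPH
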