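import Pool.Agent.QPH.A
import Pool.Agent.QPH.B2
import Pool.Agent.QPH.U

/-!
Row D: the integral over one cell.
-/

namespace Pool.Agent.QPH

open MeasureTheory Set Pool.Agent.MP_6cbfb8_an
open scoped ENNReal Real

theorem D_cont_coord {n : ℕ} (j : Fin n) : Continuous fun q : E n × ℝ => q.1 j :=
  (EuclideanSpace.proj (𝕜 := ℝ) j).continuous.comp continuous_fst

theorem D_cont_RR {n : ℕ} (a : Fin n → ℝ) : Continuous fun q : E n × ℝ => RR a q.1 q.2 := by
  unfold RR
  refine continuous_finsetSum _ fun j _ => ?_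
  have h := D_cont_coord j
  refine Continuous.div (by fun_prop) (by fun_prop) fun q => ?_
  positivity

theorem D_cont_Ph1 {n : ℕ} (a : Fin n → ℝ) : Continuous fun q : E n × ℝ => Ph1 a q.1 q.2 := by
  unfold Ph1
  refine continuous_const.sub (continuous_finsetSum _ fun j _ => ?_)
  have h := D_cont_coord j
  refine Continuous.mul (by fun_prop) (Continuous.div (by fun_prop) (by fun_prop) fun q => ?_)
  positivity

theorem D_cont_Ph2 {n : ℕ} (a : Fin n → ℝ) : Continuous fun q : E n × ℝ => Ph2 a q.1 q.2 := by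
  unfold Ph2
  refine continuous_finsetSum _ fun j _ => ?_
  have h := D_cont_coord j
  refine Continuous.mul (by fun_prop) (Continuous.div (by fun_prop) (by fun_prop) fun q => ?_)
  positivity

theorem D_neg_mono {x y : ℝ≥0∞} (h : x ≤ y) {s : ℝ} (hs : 0 ≤ s) : y ^ (-s) ≤ x ^ (-s) := by
  rw [ENNReal.rpow_neg, ENNReal.rpow_neg]
  exact ENNReal.inv_le_inv.2 (ENNReal.rpow_le_rpow h hs)

theorem D_pointwise {p al be ga M P1 P2 L : ℝ} (hal : 0 ≤ al) (hbe : 0 ≤ be) (hga : 0 ≤ ga)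
    (hsum : al + be + ga = p - 1) (hL : 0 < L) (h1 : |P1| ≤ M) (h2 : √|P2| ≤ M)
    (h3 : 1 / L ≤ M) :
    ENNReal.ofReal (M ^ (-(p - 1))) ≤ ENNReal.ofReal |P1| ^ (-al) *
      ENNReal.ofReal |P2| ^ (-(be / 2)) * ENNReal.ofReal (L ^ ga) := by
  have hM : 0 < M := lt_of_lt_of_le (by positivity) h3
  have e1 : M ^ (-(p - 1)) = M ^ (-al) * (M ^ 2) ^ (-(be / 2)) * M ^ (-ga) := by
    rw [← Real.rpow_natCast, ← Real.rpow_mul hM.le, ← Real.rpow_add hM, ← Real.rpow_add hM]
    congr 1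
    push_cast
    linarith
  rw [e1, ENNReal.ofReal_mul (by positivity), ENNReal.ofReal_mul (by positivity)]
  refine mul_le_mul' (mul_le_mul' ?_ ?_) ?_
  · rw [← ENNReal.ofReal_rpow_of_pos hM]
    exact D_neg_mono (ENNReal.ofReal_le_ofReal h1) hal
  · rw [← ENNReal.ofReal_rpow_of_pos (by positivity)]
    refine D_neg_mono (ENNReal.ofReal_le_ofReal ?_) (by positivity)
    have h4 : √|P2| ^ 2 ≤ M ^ 2 := pow_le_pow_left₀ (Real.sqrt_nonneg _) h2 2
    rwa [Real.sq_sqrt (abs_nonneg _)] at h4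
  · refine ENNReal.ofReal_le_ofReal ?_
    have h5 : (1 / L) ^ ga ≤ M ^ ga := Real.rpow_le_rpow (by positivity) h3 hga
    rw [Real.rpow_neg hM.le, ← one_div]
    rw [Real.div_rpow zero_le_one hL.le, Real.one_rpow] at h5
    rw [div_le_iff₀ (Real.rpow_pos_of_pos hM _)]
    rw [div_le_iff₀ (Real.rpow_pos_of_pos hL _)] at h5
    linarith

/-- ROW D (QPH/D.lean), over A, B1, B2, U. -/
theorem cell_bound (n : ℕ) (p al be ga : ℝ) (hp : 1 < p) (hal : 0 ≤ al) (hal1 : al < 1)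
    (hbe : 0 ≤ be) (hbe1 : be < 1) (hga : 0 ≤ ga) (hsum : al + be + ga = p - 1) :
    ∃ C : ℝ, 0 ≤ C ∧ ∀ (a w : Fin n → ℝ) (J : Fin n) (α β : ℝ), α < β → (∀ j, 3 ≤ w j) →
      (∀ t ∈ Icc α β, ∀ j, w j ≤ |t - a j| ∧ |t - a j| ≤ 4 * w j) → β - α ≤ w J →
      ∫⁻ y : E n, ‖∫ t in α..β, GG a y t‖ₑ ^ p ≤
        ENNReal.ofReal (C * (∏ j, w j) ^ (1 - p / 2) * w J ^ (1 + be / 2 + ga)) := by
  obtain ⟨C1, c, hC1, hc, hB⟩ := piece_data n
  obtain ⟨C2, hC2, hA⟩ := vdc_piece 1792 p (by norm_num) hp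
  have hp0 : 0 < p := by linarith
  obtain ⟨C3, hC3, hU⟩ := fixed_cell n (c * p) al be (by positivity) hal hal1 hbe hbe1
  refine ⟨C2 * C1 ^ p * (C3 * (4 ^ n * 2)), by positivity, ?_⟩
  intro a w J α β hαβ hw hcell hJ
  have hW : 0 < ∏ j, w j := Finset.prod_pos fun j _ => by linarith [hw j]
  have hwJ : 0 < w J := by linarith [hw J]
  have hL : 0 < β - α := by linarith
  set K : ℝ := C2 * C1 ^ p * (∏ j, w j) ^ (-(p / 2)) * (β - α) ^ ga with hK
  have hK0 : 0 ≤ K := by positivity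
  -- pointwise bound
  have hpt : ∀ y : E n, ‖∫ t in α..β, GG a y t‖ₑ ^ p ≤
      ∫⁻ t in Ioc α β, ENNReal.ofReal K * (ENNReal.ofReal (Real.exp (-(c * p) * RR a y t)) *
        (ENNReal.ofReal |Ph1 a y t| ^ (-al) * ENNReal.ofReal |Ph2 a y t| ^ (-(be / 2)))) := by
    intro y
    obtain ⟨u', hu1, hu2, hu3, hu4⟩ := hB a w α β y hαβ hw hcell
    have hRc : Continuous fun t => RR a y t :=
      (D_cont_RR a).comp (continuous_const.prodMk continuous_id)
    obtain ⟨ts, hts, hmax⟩ := isCompact_Icc.exists_isMaxOn (nonempty_Icc.2 hαβ.le)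
      hRc.continuousOn
    set h : ℝ := (1 / 1024) * (∑ j, y j ^ 2 / w j ^ 4) with hh
    have hh0 : 0 ≤ h := by positivity
    set A : ℝ := C1 * (∏ j, w j) ^ (-(1 / 2) : ℝ) * Real.exp (-c * RR a y ts) with hAdef
    have hA0 : 0 ≤ A := by positivity
    have hv := hA α β h A (Ph0 a y) (Ph1 a y) (Ph2 a y) (Ph3 a y) (amp a y) u' hαβ hh0 hA0
      (fun t _ => hasDerivAt_Ph0 a y t) (fun t _ => hasDerivAt_Ph1 a y t)
      (fun t _ => hasDerivAt_Ph2 a y t) (fun t _ => hu1 t) hu2.continuousOn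
      (fun t ht => ⟨(hu3 t ht).1, (hu3 t ht).2.1⟩) (hu4 ts hts).1 (hu4 ts hts).2
    set F : ℝ → ℝ := fun t => (max (1 / (β - α)) (max |Ph1 a y t| (max √|Ph2 a y t|
      (h ^ (1 / 3 : ℝ))))) ^ (-(p - 1)) with hF
    have hGG : (fun t => GG a y t) = fun t => amp a y t * Complex.exp ((Ph0 a y t : ℂ) * Complex.I) :=
      funext fun t => GG_eq a y t
    rw [← hGG] at hv
    have hc1 : Continuous fun t => Ph1 a y t :=
      (D_cont_Ph1 a).comp (continuous_const.prodMk continuous_id)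
    have hc2 : Continuous fun t => Ph2 a y t :=
      (D_cont_Ph2 a).comp (continuous_const.prodMk continuous_id)
    have hMpos : ∀ t, 0 < max (1 / (β - α)) (max |Ph1 a y t| (max √|Ph2 a y t|
      (h ^ (1 / 3 : ℝ)))) := fun t => lt_of_lt_of_le (by positivity) (le_max_left _ _)
    have hFc : Continuous F := by
      refine Continuous.rpow_const ?_ fun t => Or.inl (hMpos t).ne'
      exact continuous_const.max (hc1.abs.max ((hc2.abs.sqrt).max continuous_const))
    have hF0 : ∀ t, 0 ≤ F t := fun t => (Real.rpow_pos_of_pos (hMpos t) _).le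
    have e1 : ‖∫ t in α..β, GG a y t‖ₑ ^ p = ENNReal.ofReal (‖∫ t in α..β, GG a y t‖ ^ p) := by
      rw [← ofReal_norm, ENNReal.ofReal_rpow_of_nonneg (norm_nonneg _) hp0.le]
    have e2 : ENNReal.ofReal (∫ t in α..β, F t) = ∫⁻ t in Ioc α β, ENNReal.ofReal (F t) := by
      rw [intervalIntegral.integral_of_le hαβ.le]
      refine ofReal_integral_eq_lintegral_ofReal ?_ (Filter.Eventually.of_forall hF0)
      exact (hFc.intervalIntegrable α β).1
    rw [e1]
    refine (ENNReal.ofReal_le_ofReal hv).trans ?_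
    rw [ENNReal.ofReal_mul (by positivity), e2, ← lintegral_const_mul' _ _ ENNReal.ofReal_ne_top]
    refine setLIntegral_mono' measurableSet_Ioc fun t ht => ?_
    have ht' : t ∈ Icc α β := Ioc_subset_Icc_self ht
    have hpw := D_pointwise (p := p) (M := max (1 / (β - α)) (max |Ph1 a y t| (max √|Ph2 a y t|
      (h ^ (1 / 3 : ℝ))))) (P1 := Ph1 a y t) (P2 := Ph2 a y t) hal hbe hga hsum hL
      ((le_max_left _ _).trans (le_max_right _ _))
      (((le_max_left _ _).trans (le_max_right _ _)).trans (le_max_right _ _)) (le_max_left _ _)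
    refine (mul_le_mul' le_rfl hpw).trans ?_
    have hAp : C2 * A ^ p ≤ C2 * C1 ^ p * (∏ j, w j) ^ (-(p / 2)) *
        Real.exp (-(c * p) * RR a y t) := by
      have h5 : A ^ p = C1 ^ p * (∏ j, w j) ^ (-(p / 2)) * Real.exp (-(c * p) * RR a y ts) := by
        rw [hAdef, Real.mul_rpow (by positivity) (Real.exp_pos _).le,
          Real.mul_rpow hC1.le (by positivity), ← Real.rpow_mul hW.le, ← Real.exp_mul,
          show -(1 / 2 : ℝ) * p = -(p / 2) by ring,
          show -c * RR a y ts * p = -(c * p) * RR a y ts by ring]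
      rw [h5]
      have h6 : Real.exp (-(c * p) * RR a y ts) ≤ Real.exp (-(c * p) * RR a y t) := by
        apply Real.exp_le_exp.2
        have h7 : RR a y t ≤ RR a y ts := hmax ht'
        nlinarith [mul_pos hc hp0]
      have h8 : 0 ≤ C2 * (C1 ^ p * (∏ j, w j) ^ (-(p / 2))) := by positivity
      calc C2 * (C1 ^ p * (∏ j, w j) ^ (-(p / 2)) * Real.exp (-(c * p) * RR a y ts))
          = C2 * (C1 ^ p * (∏ j, w j) ^ (-(p / 2))) * Real.exp (-(c * p) * RR a y ts) := by ring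
        _ ≤ C2 * (C1 ^ p * (∏ j, w j) ^ (-(p / 2))) * Real.exp (-(c * p) * RR a y t) :=
          mul_le_mul_of_nonneg_left h6 h8
        _ = _ := by ring
    calc ENNReal.ofReal (C2 * A ^ p) * (ENNReal.ofReal |Ph1 a y t| ^ (-al) *
          ENNReal.ofReal |Ph2 a y t| ^ (-(be / 2)) * ENNReal.ofReal ((β - α) ^ ga))
        ≤ ENNReal.ofReal (C2 * C1 ^ p * (∏ j, w j) ^ (-(p / 2)) *
          Real.exp (-(c * p) * RR a y t)) * (ENNReal.ofReal |Ph1 a y t| ^ (-al) *
          ENNReal.ofReal |Ph2 a y t| ^ (-(be / 2)) * ENNReal.ofReal ((β - α) ^ ga)) :=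
          mul_le_mul' (ENNReal.ofReal_le_ofReal hAp) le_rfl
      _ = _ := by
          rw [hK, ENNReal.ofReal_mul (by positivity), ENNReal.ofReal_mul (p := C2 * C1 ^ p *
            (∏ j, w j) ^ (-(p / 2))) (by positivity)]
          ring
  -- Tonelli
  refine (lintegral_mono hpt).trans ?_
  have hmeas : Measurable (Function.uncurry fun (y : E n) (t : ℝ) =>
      ENNReal.ofReal K * (ENNReal.ofReal (Real.exp (-(c * p) * RR a y t)) *
        (ENNReal.ofReal |Ph1 a y t| ^ (-al) * ENNReal.ofReal |Ph2 a y t| ^ (-(be / 2))))) := by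
    have m1 : Measurable fun q : E n × ℝ => RR a q.1 q.2 := (D_cont_RR a).measurable
    have m2 : Measurable fun q : E n × ℝ => Ph1 a q.1 q.2 := (D_cont_Ph1 a).measurable
    have m3 : Measurable fun q : E n × ℝ => Ph2 a q.1 q.2 := (D_cont_Ph2 a).measurable
    refine Measurable.const_mul ?_ _
    refine Measurable.mul ?_ (Measurable.mul ?_ ?_)
    · exact (Real.measurable_exp.comp (m1.const_mul _)).ennreal_ofReal
    · exact (m2.abs.ennreal_ofReal).pow_const _
    · exact (m3.abs.ennreal_ofReal).pow_const _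
  rw [lintegral_lintegral_swap hmeas.aemeasurable]
  have hfix : ∀ t ∈ Ioc α β, ∫⁻ y : E n, ENNReal.ofReal K *
      (ENNReal.ofReal (Real.exp (-(c * p) * RR a y t)) *
        (ENNReal.ofReal |Ph1 a y t| ^ (-al) * ENNReal.ofReal |Ph2 a y t| ^ (-(be / 2)))) ≤
      ENNReal.ofReal K * ENNReal.ofReal (C3 * (4 ^ n * 2) * (∏ j, w j) * w J ^ (be / 2)) := by
    intro t ht
    have ht' : t ∈ Icc α β := Ioc_subset_Icc_self ht
    rw [lintegral_const_mul' _ _ ENNReal.ofReal_ne_top]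
    refine mul_le_mul' le_rfl ?_
    refine (hU a t J fun j => (hw j).trans (hcell t ht' j).1).trans ?_
    refine ENNReal.ofReal_le_ofReal ?_
    have h1 : ∏ j, |t - a j| ≤ 4 ^ n * ∏ j, w j := by
      have h2 : ∏ j, |t - a j| ≤ ∏ j, (4 * w j) :=
        Finset.prod_le_prod (fun j _ => abs_nonneg _) fun j _ => (hcell t ht' j).2
      rw [Finset.prod_mul_distrib] at h2
      simpa using h2
    have h3 : |t - a J| ^ (be / 2) ≤ 2 * w J ^ (be / 2) := by
      refine (Real.rpow_le_rpow (abs_nonneg _) (hcell t ht' J).2 (by positivity)).trans ?_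
      rw [Real.mul_rpow (by norm_num) hwJ.le]
      refine mul_le_mul_of_nonneg_right ?_ (by positivity)
      have h4 : (4 : ℝ) ^ (be / 2) ≤ 4 ^ (1 / 2 : ℝ) :=
        Real.rpow_le_rpow_of_exponent_le (by norm_num) (by linarith)
      have h5 : (4 : ℝ) ^ (1 / 2 : ℝ) = 2 := by
        rw [← Real.sqrt_eq_rpow, show (4 : ℝ) = 2 ^ 2 by norm_num,
          Real.sqrt_sq (by norm_num)]
      linarith
    calc C3 * (∏ j, |t - a j|) * |t - a J| ^ (be / 2)
        ≤ C3 * (4 ^ n * ∏ j, w j) * (2 * w J ^ (be / 2)) := by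
          refine mul_le_mul (mul_le_mul_of_nonneg_left h1 hC3) h3 (by positivity) (by positivity)
      _ = _ := by ring
  refine (setLIntegral_mono' measurableSet_Ioc hfix).trans ?_
  rw [setLIntegral_const, Real.volume_Ioc, ← ENNReal.ofReal_mul hK0,
    ← ENNReal.ofReal_mul (by positivity)]
  refine ENNReal.ofReal_le_ofReal ?_
  have h1 : (∏ j, w j) ^ (-(p / 2)) * (∏ j, w j) = (∏ j, w j) ^ (1 - p / 2) := by
    rw [← Real.rpow_add_one hW.ne']
    congr 1
    ring
  have h2 : (β - α) ^ ga * (β - α) ≤ w J ^ ga * w J :=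
    mul_le_mul (Real.rpow_le_rpow hL.le hJ hga) hJ hL.le (by positivity)
  have h3 : w J ^ (be / 2) * (w J ^ ga * w J) = w J ^ (1 + be / 2 + ga) := by
    rw [← Real.rpow_add_one hwJ.ne', ← Real.rpow_add hwJ]
    congr 1
    ring
  calc K * (C3 * (4 ^ n * 2) * (∏ j, w j) * w J ^ (be / 2)) * (β - α)
      = C2 * C1 ^ p * (C3 * (4 ^ n * 2)) * ((∏ j, w j) ^ (-(p / 2)) * (∏ j, w j)) *
          w J ^ (be / 2) * ((β - α) ^ ga * (β - α)) := by rw [hK]; ring
    _ ≤ C2 * C1 ^ p * (C3 * (4 ^ n * 2)) * ((∏ j, w j) ^ (-(p / 2)) * (∏ j, w j)) *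
          w J ^ (be / 2) * (w J ^ ga * w J) := by
          refine mul_le_mul_of_nonneg_left h2 ?_
          positivity
    _ = _ := by rw [h1, ← h3]; ring

end Pool.Agent.QPH
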