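import Mathlib
import Pool.Agent.MP_6cbfb8_an.Defs

/-!
Notation for the restriction theorem for quadratic phases in all dimensions.
-/

namespace Pool.Agent.QPH

open MeasureTheory Set Pool.Agent.MP_6cbfb8_an
open scoped ENNReal Real

/-- One factor: the Fourier transform of the Gaussian `exp (-(1 + i s) x^2)`, normalised. -/
noncomputable def psi1 (s y : ℝ) : ℂ :=
  (1 + (s : ℂ) * Complex.I) ^ (-(1 / 2) : ℂ) *
    Complex.exp (-((y ^ 2 : ℝ) : ℂ) / (4 * (1 + (s : ℂ) * Complex.I)))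

/-- The integrand. -/
noncomputable def GG {n : ℕ} (a : Fin n → ℝ) (y : E n) (t : ℝ) : ℂ :=
  Complex.exp ((t : ℂ) * Complex.I) * ∏ j, psi1 (t - a j) (y j)

/-- The real exponent. -/
noncomputable def RR {n : ℕ} (a : Fin n → ℝ) (y : E n) (t : ℝ) : ℝ :=
  ∑ j, y j ^ 2 / (4 * (1 + (t - a j) ^ 2))

/-- The amplitude. -/
noncomputable def amp {n : ℕ} (a : Fin n → ℝ) (y : E n) (t : ℝ) : ℂ :=
  (∏ j, (1 + ((t - a j : ℝ) : ℂ) * Complex.I) ^ (-(1 / 2) : ℂ)) *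
    ((Real.exp (-RR a y t) : ℝ) : ℂ)

/-- The phase. -/
noncomputable def Ph0 {n : ℕ} (a : Fin n → ℝ) (y : E n) (t : ℝ) : ℝ :=
  t + ∑ j, y j ^ 2 / 4 * ((t - a j) / (1 + (t - a j) ^ 2))

/-- The first derivative of the phase. -/
noncomputable def Ph1 {n : ℕ} (a : Fin n → ℝ) (y : E n) (t : ℝ) : ℝ :=
  1 - ∑ j, y j ^ 2 / 4 * (((t - a j) ^ 2 - 1) / (1 + (t - a j) ^ 2) ^ 2)

/-- The second derivative of the phase. -/
noncomputable def Ph2 {n : ℕ} (a : Fin n → ℝ) (y : E n) (t : ℝ) : ℝ :=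
  ∑ j, y j ^ 2 / 4 * ((2 * (t - a j) ^ 3 - 6 * (t - a j)) / (1 + (t - a j) ^ 2) ^ 3)

/-- The third derivative of the phase. -/
noncomputable def Ph3 {n : ℕ} (a : Fin n → ℝ) (y : E n) (t : ℝ) : ℝ :=
  -∑ j, y j ^ 2 / 4 *
    ((6 * (t - a j) ^ 4 - 36 * (t - a j) ^ 2 + 6) / (1 + (t - a j) ^ 2) ^ 4)

/-- Lower bound for the size of the third derivative. -/
noncomputable def hl {n : ℕ} (a : Fin n → ℝ) (y : E n) (t : ℝ) : ℝ :=
  (1 / 1024) * ∑ j, y j ^ 2 / (t - a j) ^ 4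

/-- The inverse of the natural scale at `t`. -/
noncomputable def DD {n : ℕ} (l : ℝ) (a : Fin n → ℝ) (y : E n) (t : ℝ) : ℝ :=
  max l (max |Ph1 a y t| (max √|Ph2 a y t| (hl a y t ^ (1 / 3 : ℝ))))

/-- The quantity `kappa`. -/
noncomputable def kap {n : ℕ} (a : Fin n → ℝ) (w : E n) (t : ℝ) : ℝ :=
  max |∑ j, w j ^ 2 / (t - a j)| ((∑ j, w j ^ 2 / (t - a j) ^ 2) ^ (2 / 3 : ℝ))

/-- The product of the `|t - a j|` with `kappa`. -/
noncomputable def KK {n : ℕ} (a : Fin n → ℝ) (w : E n) (t : ℝ) : ℝ :=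
  (∏ j, |t - a j|) * kap a w t

end Pool.Agent.QPH
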