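import Pool.Agent.QPH.Defs

namespace Pool.Agent.QPH

open MeasureTheory Set Pool.Agent.MP_6cbfb8_an
open scoped ENNReal Real

/-- `T s = (1 + s^2)^(-1/4)`. -/
noncomputable def TK (s : ℝ) : ℝ := (1 + s ^ 2) ^ (-(1 / 4) : ℝ)

lemma TK_nonneg (s : ℝ) : 0 ≤ TK s := by
  unfold TK; positivity

lemma TK_le_one (s : ℝ) : TK s ≤ 1 := by
  unfold TK
  apply Real.rpow_le_one_of_one_le_of_nonpos <;> nlinarith [sq_nonneg s]

lemma TK_cube (s : ℝ) : TK s ^ 3 = (1 + ‖s‖ ^ 2) ^ (-(3 / 2 : ℝ) / 2) := by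
  unfold TK
  rw [← Real.rpow_natCast, ← Real.rpow_mul (by positivity), Real.norm_eq_abs, sq_abs]
  norm_num

lemma TK_int : Integrable (fun s : ℝ => TK s ^ 3) := by
  have h := integrable_rpow_neg_one_add_norm_sq (E := ℝ) (μ := volume) (r := 3 / 2)
    (by simp; norm_num)
  refine h.congr (Filter.Eventually.of_forall fun s => ?_)
  simp only [TK_cube]

lemma one_add_ne (s : ℝ) : (1 + (s : ℂ) * Complex.I) ≠ 0 := by
  intro h
  have := congrArg Complex.re h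
  simp at this

lemma one_add_slit (s : ℝ) : (1 + (s : ℂ) * Complex.I) ∈ Complex.slitPlane := by
  left; simp

lemma norm_psi1_le (s y : ℝ) : ‖psi1 s y‖ ≤ TK s := by
  unfold psi1
  rw [norm_mul]
  have h1 : ‖(1 + (s : ℂ) * Complex.I) ^ (-(1 / 2) : ℂ)‖ = TK s := by
    have h2 : (-(1 / 2) : ℂ) = ((-(1 / 2) : ℝ) : ℂ) := by push_cast; ring
    rw [h2, Complex.norm_cpow_real]
    have h3 : ‖1 + (s : ℂ) * Complex.I‖ = (1 + s ^ 2) ^ (1 / 2 : ℝ) := by
      rw [← Real.sqrt_eq_rpow, Complex.norm_def]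
      congr 1
      simp [Complex.normSq_apply]
      ring
    rw [h3, ← Real.rpow_mul (by positivity)]
    unfold TK
    norm_num
  have h4 : ‖Complex.exp (-((y ^ 2 : ℝ) : ℂ) / (4 * (1 + (s : ℂ) * Complex.I)))‖ ≤ 1 := by
    rw [Complex.norm_exp]
    apply Real.exp_le_one_iff.2
    have h5 : -((y ^ 2 : ℝ) : ℂ) / (4 * (1 + (s : ℂ) * Complex.I)) =
        ((-(y ^ 2 / 4) : ℝ) : ℂ) * (1 + (s : ℂ) * Complex.I)⁻¹ := by
      have := one_add_ne s
      push_cast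
      field_simp
    rw [h5, Complex.re_ofReal_mul, Complex.inv_re]
    have h6 : 0 ≤ (1 + (s : ℂ) * Complex.I).re / Complex.normSq (1 + (s : ℂ) * Complex.I) := by
      apply div_nonneg _ (Complex.normSq_nonneg _)
      simp
    nlinarith [sq_nonneg y, mul_nonneg (sq_nonneg y) h6]
  rw [h1]
  calc TK s * _ ≤ TK s * 1 := mul_le_mul_of_nonneg_left h4 (TK_nonneg s)
    _ = TK s := mul_one _

lemma psi1_cont (a y : ℝ) : Continuous fun t : ℝ => psi1 (t - a) y := by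
  unfold psi1
  have hb : Continuous fun t : ℝ => (1 + ((t - a : ℝ) : ℂ) * Complex.I) := by fun_prop
  refine Continuous.mul ?_ ?_
  · exact hb.cpow continuous_const fun t => one_add_slit _
  · refine Complex.continuous_exp.comp (Continuous.div continuous_const (by fun_prop) fun t => ?_)
    exact mul_ne_zero (by norm_num) (one_add_ne _)

lemma GG_cont {n : ℕ} (a : Fin n → ℝ) (y : E n) : Continuous fun t : ℝ => GG a y t := by
  unfold GG
  refine Continuous.mul (by fun_prop) (continuous_finsetProd _ fun j _ => psi1_cont _ _)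

lemma norm_GG_le {n : ℕ} (hn : 3 ≤ n) (a : Fin n → ℝ) (y : E n) (t : ℝ) :
    ‖GG a y t‖ ≤ (TK (t - a ⟨0, by omega⟩) ^ 3 + TK (t - a ⟨1, by omega⟩) ^ 3 +
      TK (t - a ⟨2, by omega⟩) ^ 3) / 3 := by
  unfold GG
  rw [norm_mul, Complex.norm_exp]
  have h0 : ((t : ℂ) * Complex.I).re = 0 := by simp
  rw [h0, Real.exp_zero, one_mul, norm_prod]
  have h1 : ∏ j : Fin n, ‖psi1 (t - a j) (y j)‖ ≤ ∏ j : Fin n, TK (t - a j) :=
    Finset.prod_le_prod (fun j _ => norm_nonneg _) fun j _ => norm_psi1_le _ _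
  have h2 : ∏ j : Fin n, TK (t - a j) ≤
      ∏ j ∈ ({⟨0, by omega⟩, ⟨1, by omega⟩, ⟨2, by omega⟩} : Finset (Fin n)), TK (t - a j) := by
    rw [← Finset.prod_sdiff (Finset.subset_univ
      ({⟨0, by omega⟩, ⟨1, by omega⟩, ⟨2, by omega⟩} : Finset (Fin n)))]
    exact mul_le_of_le_one_left (Finset.prod_nonneg fun j _ => TK_nonneg _)
      (Finset.prod_le_one (fun j _ => TK_nonneg _) fun j _ => TK_le_one _)
  have h3 : ∏ j ∈ ({⟨0, by omega⟩, ⟨1, by omega⟩, ⟨2, by omega⟩} : Finset (Fin n)), TK (t - a j) =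
      TK (t - a ⟨0, by omega⟩) * (TK (t - a ⟨1, by omega⟩) * TK (t - a ⟨2, by omega⟩)) := by
    rw [Finset.prod_insert, Finset.prod_insert, Finset.prod_singleton]
    · simp
    · simp
  rw [h3] at h2
  set A := TK (t - a ⟨0, by omega⟩)
  set B := TK (t - a ⟨1, by omega⟩)
  set D := TK (t - a ⟨2, by omega⟩)
  have hA : 0 ≤ A := TK_nonneg _
  have hB : 0 ≤ B := TK_nonneg _
  have hD : 0 ≤ D := TK_nonneg _
  have h4 : A * (B * D) ≤ (A ^ 3 + B ^ 3 + D ^ 3) / 3 := by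
    nlinarith [mul_nonneg (add_nonneg (add_nonneg hA hB) hD) (add_nonneg (add_nonneg
      (sq_nonneg (A - B)) (sq_nonneg (B - D))) (sq_nonneg (A - D)))]
  linarith

/-- ROW K. -/
theorem GG_int (n : ℕ) (hn : 3 ≤ n) : ∃ C : ℝ, 0 ≤ C ∧ ∀ (a : Fin n → ℝ) (y : E n),
    Integrable (fun t : ℝ => GG a y t) ∧ ∫ t : ℝ, ‖GG a y t‖ ≤ C := by
  refine ⟨∫ s : ℝ, TK s ^ 3, integral_nonneg fun s => pow_nonneg (TK_nonneg s) 3, ?_⟩
  intro a y
  have hI : ∀ b : ℝ, Integrable fun t : ℝ => TK (t - b) ^ 3 := fun b =>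
    TK_int.comp_sub_right b
  have hS : Integrable fun t : ℝ => (TK (t - a ⟨0, by omega⟩) ^ 3 +
      TK (t - a ⟨1, by omega⟩) ^ 3 + TK (t - a ⟨2, by omega⟩) ^ 3) / 3 :=
    (((hI _).add (hI _)).add (hI _)).div_const 3
  have hG : Integrable fun t : ℝ => GG a y t :=
    hS.mono' (GG_cont a y).aestronglyMeasurable
      (Filter.Eventually.of_forall fun t => norm_GG_le hn a y t)
  refine ⟨hG, ?_⟩
  calc ∫ t : ℝ, ‖GG a y t‖ ≤ ∫ t : ℝ, (TK (t - a ⟨0, by omega⟩) ^ 3 +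
      TK (t - a ⟨1, by omega⟩) ^ 3 + TK (t - a ⟨2, by omega⟩) ^ 3) / 3 :=
        integral_mono hG.norm hS fun t => norm_GG_le hn a y t
    _ = ∫ s : ℝ, TK s ^ 3 := by
      have h12 : Integrable fun t : ℝ => TK (t - a ⟨0, by omega⟩) ^ 3 +
          TK (t - a ⟨1, by omega⟩) ^ 3 := (hI _).add (hI _)
      rw [integral_div, integral_add h12 (hI _), integral_add (hI _) (hI _)]
      rw [integral_sub_right_eq_self (fun s => TK s ^ 3), integral_sub_right_eq_self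
        (fun s => TK s ^ 3), integral_sub_right_eq_self (fun s => TK s ^ 3)]
      ring

end Pool.Agent.QPH
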