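import Pool.Agent.QPH.Defs

/-!
Measurability of the kernel and of its integrals in time.
-/

namespace Pool.Agent.QPH

open MeasureTheory Set Pool.Agent.MP_6cbfb8_an
open scoped ENNReal Real

lemma M_cont {n : ℕ} (a : Fin n → ℝ) :
    Continuous (Function.uncurry fun (y : E n) (t : ℝ) => GG a y t) := by
  unfold GG psi1
  simp only [Function.uncurry_def]
  have hne : ∀ s : ℝ, (1 + (s : ℂ) * Complex.I) ≠ 0 := by
    intro s h
    have := congrArg Complex.re h
    simp at this
  have hsl : ∀ s : ℝ, (1 + (s : ℂ) * Complex.I) ∈ Complex.slitPlane := by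
    intro s
    left
    simp
  refine Continuous.mul (by fun_prop) (continuous_finsetProd _ fun j _ => ?_)
  have h1 : Continuous fun q : E n × ℝ => (1 + ((q.2 - a j : ℝ) : ℂ) * Complex.I) := by fun_prop
  refine Continuous.mul ?_ ?_
  · exact h1.cpow continuous_const fun q => hsl _
  · refine Complex.continuous_exp.comp (Continuous.div ?_ ?_ fun q => ?_)
    · fun_prop
    · exact continuous_const.mul h1
    · exact mul_ne_zero (by norm_num) (hne _)

/-- ROW M -/
theorem GG_meas {n : ℕ} (a : Fin n → ℝ) :
    Measurable (Function.uncurry fun (y : E n) (t : ℝ) => GG a y t) ∧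
    ∀ s : Set ℝ, MeasurableSet s → Measurable fun y : E n => ∫ t in s, GG a y t := by
  refine ⟨(M_cont a).measurable, fun s _ => ?_⟩
  exact ((M_cont a).stronglyMeasurable.integral_prod_right'
    (ν := (volume : Measure ℝ).restrict s)).measurable

end Pool.Agent.QPH
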