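import Pool.Agent.QPH.Defs

/-! Row S1: the dyadic cells partition the line. -/

namespace Pool.Agent.QPH

open MeasureTheory Set Pool.Agent.MP_6cbfb8_an
open scoped ENNReal Real

/-- Left end points of the dyadic cells of the line: `…, -4, -2, 2, 4, …` (`lo 0 = -2`,
`lo 1 = 2`). -/
noncomputable def lo (k : ℤ) : ℝ := if 0 < k then (2 : ℝ) ^ k else -(2 : ℝ) ^ (1 - k)

/-- The cell of index `κ`: all `t - a_j` lie in the dyadic cells of index `κ_j`. -/
def cell {n : ℕ} (a : Fin n → ℝ) (κ : Fin n → ℤ) : Set ℝ :=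
  {t | ∀ j, lo (κ j) ≤ t - a j ∧ t - a j < lo (κ j + 1)}

theorem s1_lo_pos {k : ℤ} (hk : 0 < k) : lo k = (2 : ℝ) ^ k := by
  rw [lo, if_pos hk]

theorem s1_lo_nonpos {k : ℤ} (hk : k ≤ 0) : lo k = -(2 : ℝ) ^ (1 - k) := by
  rw [lo, if_neg (not_lt.mpr hk)]

theorem s1_lo_one : lo 1 = 2 := by
  rw [s1_lo_pos one_pos, zpow_one]

theorem s1_lo_zero : lo 0 = -2 := by
  rw [s1_lo_nonpos le_rfl, sub_zero, zpow_one]

theorem s1_lo_lt_succ (k : ℤ) : lo k < lo (k + 1) := by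
  rcases lt_trichotomy k 0 with hk | hk | hk
  · rw [s1_lo_nonpos hk.le, s1_lo_nonpos (by omega : k + 1 ≤ 0)]
    apply neg_lt_neg
    exact zpow_lt_zpow_right₀ one_lt_two (by omega)
  · subst hk
    rw [zero_add, s1_lo_one, s1_lo_zero]
    norm_num
  · rw [s1_lo_pos hk, s1_lo_pos (by omega : 0 < k + 1)]
    exact zpow_lt_zpow_right₀ one_lt_two (by omega)

/-- `lo` is strictly increasing. -/
theorem lo_strictMono : StrictMono lo := strictMono_int_of_lt_succ s1_lo_lt_succ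

/-- Every real number lies in exactly one cell. -/
theorem exists_lo (s : ℝ) : ∃ k : ℤ, lo k ≤ s ∧ s < lo (k + 1) := by
  by_cases h1 : 2 ≤ s
  · obtain ⟨m, hm1, hm2⟩ := exists_mem_Ico_zpow (lt_of_lt_of_le two_pos h1) (one_lt_two (α := ℝ))
    have hm : 0 < m := by
      by_contra hm
      have h3 : (2 : ℝ) ^ (m + 1) ≤ 2 ^ (1 : ℤ) :=
        zpow_le_zpow_right₀ one_le_two (by omega)
      rw [zpow_one] at h3
      linarith
    exact ⟨m, by rwa [s1_lo_pos hm], by rwa [s1_lo_pos (by omega : 0 < m + 1)]⟩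
  · by_cases h2 : -2 ≤ s
    · exact ⟨0, by rwa [s1_lo_zero], by rw [zero_add, s1_lo_one]; linarith⟩
    · have h4 : 2 < -s := by linarith
      obtain ⟨m, hm1, hm2⟩ := exists_mem_Ioc_zpow (lt_trans two_pos h4) (one_lt_two (α := ℝ))
      have hm : 0 < m := by
        by_contra hm
        have h3 : (2 : ℝ) ^ (m + 1) ≤ 2 ^ (1 : ℤ) :=
          zpow_le_zpow_right₀ one_le_two (by omega)
        rw [zpow_one] at h3
        linarith
      refine ⟨-m, ?_, ?_⟩
      · rw [s1_lo_nonpos (by omega : -m ≤ 0), show 1 - -m = m + 1 by ring]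
        linarith
      · rw [s1_lo_nonpos (by omega : -m + 1 ≤ 0), show 1 - (-m + 1) = m by ring]
        linarith

theorem lo_unique {s : ℝ} {k l : ℤ} (hk : lo k ≤ s ∧ s < lo (k + 1))
    (hl : lo l ≤ s ∧ s < lo (l + 1)) : k = l := by
  have h1 : k < l + 1 := lo_strictMono.lt_iff_lt.mp (lt_of_le_of_lt hk.1 hl.2)
  have h2 : l < k + 1 := lo_strictMono.lt_iff_lt.mp (lt_of_le_of_lt hl.1 hk.2)
  omega

theorem s1_length (k : ℤ) : lo (k + 1) - lo k ≤ 4 * (2 : ℝ) ^ k.natAbs ∧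
    (k ≠ 0 → lo (k + 1) - lo k ≤ (2 : ℝ) ^ k.natAbs) := by
  have key : k ≠ 0 → lo (k + 1) - lo k = (2 : ℝ) ^ k.natAbs := by
    intro hk0
    rcases lt_or_gt_of_ne hk0 with hk | hk
    · rw [s1_lo_nonpos hk.le, s1_lo_nonpos (by omega : k + 1 ≤ 0),
        show (1 : ℤ) - (k + 1) = -k by ring, show (1 : ℤ) - k = -k + 1 by ring,
        zpow_add_one₀ (two_ne_zero), ← zpow_natCast, show ((k.natAbs : ℕ) : ℤ) = -k by omega]
      ring
    · rw [s1_lo_pos hk, s1_lo_pos (by omega : 0 < k + 1), zpow_add_one₀ (two_ne_zero),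
        ← zpow_natCast, show ((k.natAbs : ℕ) : ℤ) = k by omega]
      ring
  refine ⟨?_, fun h => (key h).le⟩
  by_cases h : k = 0
  · subst h
    rw [zero_add, s1_lo_one, s1_lo_zero]
    norm_num
  · rw [key h]
    have : (0 : ℝ) < 2 ^ k.natAbs := by positivity
    linarith

/-- sizes in a closed cell -/
theorem s1_size {k : ℤ} {s : ℝ} (h1 : lo k ≤ s) (h2 : s ≤ lo (k + 1)) :
    |s| ≤ 4 * (2 : ℝ) ^ k.natAbs ∧ (k ≠ 0 → (2 : ℝ) ^ k.natAbs ≤ |s|) := by
  rcases lt_trichotomy k 0 with hk | hk | hk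
  · rw [s1_lo_nonpos hk.le] at h1
    rw [s1_lo_nonpos (by omega : k + 1 ≤ 0)] at h2
    have e1 : (2 : ℝ) ^ (1 - k) = 2 * 2 ^ k.natAbs := by
      rw [show (1 : ℤ) - k = -k + 1 by ring, zpow_add_one₀ (two_ne_zero), ← zpow_natCast,
        show ((k.natAbs : ℕ) : ℤ) = -k by omega]
      ring
    have e2 : (2 : ℝ) ^ (1 - (k + 1)) = 2 ^ k.natAbs := by
      rw [← zpow_natCast, show ((k.natAbs : ℕ) : ℤ) = 1 - (k + 1) by omega]
    rw [e1] at h1
    rw [e2] at h2
    have h0 : (0 : ℝ) < 2 ^ k.natAbs := by positivity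
    rw [abs_of_nonpos (by linarith)]
    exact ⟨by linarith, fun _ => by linarith⟩
  · subst hk
    rw [s1_lo_zero] at h1
    rw [zero_add, s1_lo_one] at h2
    refine ⟨?_, fun h => absurd rfl h⟩
    rw [Int.natAbs_zero, pow_zero, mul_one]
    exact (abs_le.mpr ⟨h1, h2⟩).trans (by norm_num)
  · rw [s1_lo_pos hk] at h1
    rw [s1_lo_pos (by omega : 0 < k + 1)] at h2
    have e1 : (2 : ℝ) ^ k = 2 ^ k.natAbs := by
      rw [← zpow_natCast, show ((k.natAbs : ℕ) : ℤ) = k by omega]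
    have e2 : (2 : ℝ) ^ (k + 1) = 2 * 2 ^ k.natAbs := by
      rw [zpow_add_one₀ (two_ne_zero), e1]
      ring
    rw [e1] at h1
    rw [e2] at h2
    have h0 : (0 : ℝ) < 2 ^ k.natAbs := by positivity
    rw [abs_of_nonneg (by linarith)]
    exact ⟨by linarith, fun _ => by linarith⟩

theorem measurableSet_cell {n : ℕ} (a : Fin n → ℝ) (κ : Fin n → ℤ) :
    MeasurableSet (cell a κ) := by
  have h : cell a κ = ⋂ j, Ico (lo (κ j) + a j) (lo (κ j + 1) + a j) := by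
    ext t
    simp only [cell, mem_ofPred_eq, mem_iInter, mem_Ico]
    refine forall_congr' fun j => ?_
    constructor
    · rintro ⟨h1, h2⟩
      exact ⟨by linarith, by linarith⟩
    · rintro ⟨h1, h2⟩
      exact ⟨by linarith, by linarith⟩
  rw [h]
  exact MeasurableSet.iInter fun j => measurableSet_Ico

theorem iUnion_cell {n : ℕ} (a : Fin n → ℝ) : ⋃ κ : Fin n → ℤ, cell a κ = univ := by
  refine eq_univ_of_forall fun t => mem_iUnion.mpr ?_
  choose κ hκ using fun j : Fin n => exists_lo (t - a j)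
  exact ⟨κ, hκ⟩

theorem pairwise_disjoint_cell {n : ℕ} (a : Fin n → ℝ) :
    Pairwise (Function.onFun Disjoint (cell a)) := by
  intro κ κ' hne
  refine Set.disjoint_left.mpr fun t h1 h2 => hne ?_
  funext j
  exact lo_unique (h1 j) (h2 j)

/-- ROW S1 (QPH/S1.lean): the cells partition the line. -/
theorem cell_tsum {n : ℕ} (a : Fin n → ℝ) (f : ℝ → ℂ) (hf : Integrable f) :
    ‖∫ t : ℝ, f t‖ₑ ≤ ∑' κ : Fin n → ℤ, ‖∫ t in cell a κ, f t‖ₑ := by
  have h := hasSum_integral_iUnion (μ := (volume : Measure ℝ)) (f := f)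
    (fun κ => measurableSet_cell a κ) (pairwise_disjoint_cell a) hf.integrableOn
  rw [iUnion_cell, Measure.restrict_univ] at h
  rw [← h.tsum_eq]
  exact enorm_tsum_le_tsum_enorm

/-- ROW S1: every cell is empty or an interval, with `|s_j| ~ 2^|κ_j|`. -/
theorem cell_interval {n : ℕ} (hn : 0 < n) (a : Fin n → ℝ) (κ : Fin n → ℤ) :
    cell a κ = ∅ ∨ ∃ α β : ℝ, α < β ∧ cell a κ = Ico α β ∧
      (∀ t ∈ Icc α β, ∀ j, |t - a j| ≤ 4 * (2 : ℝ) ^ (κ j).natAbs ∧
        (κ j ≠ 0 → (2 : ℝ) ^ (κ j).natAbs ≤ |t - a j|)) ∧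
      ∀ j, β - α ≤ 4 * (2 : ℝ) ^ (κ j).natAbs ∧ (κ j ≠ 0 → β - α ≤ (2 : ℝ) ^ (κ j).natAbs) := by
  have : Nonempty (Fin n) := ⟨⟨0, hn⟩⟩
  set α : ℝ := Finset.univ.sup' Finset.univ_nonempty fun j => lo (κ j) + a j with hα
  set β : ℝ := Finset.univ.inf' Finset.univ_nonempty fun j => lo (κ j + 1) + a j with hβ
  have hα1 : ∀ j, lo (κ j) + a j ≤ α := fun j =>
    Finset.le_sup' (fun j => lo (κ j) + a j) (Finset.mem_univ j)
  have hβ1 : ∀ j, β ≤ lo (κ j + 1) + a j := fun j =>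
    Finset.inf'_le (fun j => lo (κ j + 1) + a j) (Finset.mem_univ j)
  have hcell : cell a κ = Ico α β := by
    ext t
    simp only [cell, mem_ofPred_eq, mem_Ico]
    constructor
    · intro h
      constructor
      · exact Finset.sup'_le _ _ fun j _ => by linarith [(h j).1]
      · rw [hβ, Finset.lt_inf'_iff]
        exact fun j _ => by linarith [(h j).2]
    · rintro ⟨h1, h2⟩ j
      exact ⟨by linarith [hα1 j], by linarith [hβ1 j]⟩
  rcases lt_or_ge α β with hab | hab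
  · right
    refine ⟨α, β, hab, hcell, ?_, ?_⟩
    · rintro t ⟨h1, h2⟩ j
      exact s1_size (by linarith [hα1 j]) (by linarith [hβ1 j])
    · intro j
      have h := s1_length (κ j)
      have h3 : β - α ≤ lo (κ j + 1) - lo (κ j) := by linarith [hα1 j, hβ1 j]
      exact ⟨h3.trans h.1, fun h0 => h3.trans (h.2 h0)⟩
  · left
    rw [hcell, Ico_eq_empty (not_lt.mpr hab)]

end Pool.Agent.QPH
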