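import Pool.Agent.QPH.Defs

/-!
ROW S2: product of series over `Fin n → ℤ`, Minkowski inequality for series, and the exponents.
-/

set_option autoImplicit false

namespace Pool.Agent.QPH

open MeasureTheory Set Pool.Agent.MP_6cbfb8_an
open scoped ENNReal

theorem tsum_pi_prod {ι : Type*} (f : ι → ℝ≥0∞) : ∀ n : ℕ,
    ∑' κ : Fin n → ι, ∏ j, f (κ j) = (∑' z, f z) ^ n
  | 0 => by
      rw [tsum_eq_single (default : Fin 0 → ι)]
      · simp
      · intro b hb
        exact absurd (Subsingleton.elim _ _) hb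
  | n + 1 => by
      rw [← (Fin.consEquiv (fun _ : Fin (n + 1) => ι)).tsum_eq, pow_succ', ← tsum_pi_prod f n,
        ENNReal.tsum_prod']
      simp only [Fin.consEquiv_apply, Fin.prod_univ_succ, Fin.cons_zero, Fin.cons_succ]
      simp_rw [ENNReal.tsum_mul_left]
      rw [ENNReal.tsum_mul_right]

/-- Minkowski's inequality for series. -/
theorem minkowski_tsum {α ι : Type*} [MeasurableSpace α] [Countable ι] (μ : Measure α) (p : ℝ)
    (hp : 1 ≤ p) (f : ι → α → ℝ≥0∞) (hf : ∀ i, AEMeasurable (f i) μ) :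
    (∫⁻ x, (∑' i, f i x) ^ p ∂μ) ≤ (∑' i, (∫⁻ x, f i x ^ p ∂μ) ^ (1 / p)) ^ p := by
  classical
  have hp0 : 0 < p := by linarith
  have hfin : ∀ s : Finset ι, (∫⁻ x, (∑ i ∈ s, f i x) ^ p ∂μ) ^ (1 / p) ≤
      ∑ i ∈ s, (∫⁻ x, f i x ^ p ∂μ) ^ (1 / p) := by
    intro s
    induction s using Finset.induction_on with
    | empty => simp [ENNReal.zero_rpow_of_pos hp0, hp0]
    | insert i s hi ih =>
      rw [Finset.sum_insert hi]
      refine le_trans ?_ (add_le_add le_rfl ih)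
      have := ENNReal.lintegral_Lp_add_le (hf i)
        (Finset.aemeasurable_fun_sum s fun i _ => hf i) hp
      refine le_trans (le_of_eq ?_) this
      congr 2
      ext x
      simp [Finset.sum_insert hi]
  have h1 : ∀ x, (∑' i, f i x) ^ p = ⨆ s : Finset ι, (∑ i ∈ s, f i x) ^ p := by
    intro x
    rw [ENNReal.tsum_eq_iSup_sum]
    exact (ENNReal.orderIsoRpow p hp0).map_iSup _
  simp_rw [h1]
  rw [lintegral_iSup_directed]
  · refine iSup_le fun s => ?_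
    have h2 := (hfin s).trans (ENNReal.sum_le_tsum s)
    have h3 := ENNReal.rpow_le_rpow h2 hp0.le
    rwa [← ENNReal.rpow_mul, one_div_mul_cancel hp0.ne', ENNReal.rpow_one] at h3
  · intro s
    exact (Finset.aemeasurable_fun_sum s fun i _ => hf i).pow_const p
  · intro s t
    refine ⟨s ∪ t, ?_, ?_⟩
    · intro x
      exact ENNReal.rpow_le_rpow (Finset.sum_le_sum_of_subset Finset.subset_union_left) hp0.le
    · intro x
      exact ENNReal.rpow_le_rpow (Finset.sum_le_sum_of_subset Finset.subset_union_right) hp0.le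

/-- The choice of the exponents. -/
theorem exponents (m : ℕ) (hm : 2 ≤ m) (p : ℝ) (hp : 2 + 2 / (m : ℝ) < p) : ∃ al be ga : ℝ,
    0 < al ∧ al < 1 ∧ 0 < be ∧ be < 1 ∧ 0 ≤ ga ∧ al + be + ga = p - 1 ∧
      1 + be / 2 + ga < ((m : ℝ) + 1) * (p / 2 - 1) := by
  have hm' : (2 : ℝ) ≤ m := by exact_mod_cast hm
  have hm0 : (0 : ℝ) < m := by linarith
  have h1 : 2 * (m : ℝ) + 2 < m * p := by
    have := mul_lt_mul_of_pos_left hp hm0
    have h2 : (m : ℝ) * (2 + 2 / m) = 2 * m + 2 := by field_simp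
    linarith
  by_cases h3 : p < 3
  · -- `ga = 0`
    obtain ⟨e, he, he1, he2⟩ : ∃ e : ℝ, 0 < e ∧ 2 * e < 3 - p ∧ e < m * p - 2 * m - 2 := by
      refine ⟨min ((3 - p) / 4) ((m * p - 2 * m - 2) / 2), ?_, ?_, ?_⟩
      · exact lt_min (by linarith) (by linarith)
      · have := min_le_left ((3 - p) / 4) ((m * p - 2 * m - 2) / 2)
        linarith
      · have := min_le_right ((3 - p) / 4) ((m * p - 2 * m - 2) / 2)
        linarith
    have hp2 : 2 < p := by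
      have : 0 < 2 / (m : ℝ) := by positivity
      linarith
    refine ⟨1 - e, p - 2 + e, 0, ?_, ?_, ?_, ?_, le_rfl, ?_, ?_⟩
    · linarith
    · linarith
    · linarith
    · linarith
    · ring
    · nlinarith
  · push Not at h3
    have h4 : 0 < ((m : ℝ) - 1) * p - 2 * m + 1 := by
      rcases Nat.lt_or_ge 2 m with h | h
      · have h' : (3 : ℝ) ≤ m := by exact_mod_cast h
        nlinarith
      · have h' : (m : ℝ) = 2 := by
          have : m = 2 := le_antisymm h hm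
          exact_mod_cast this
        rw [h'] at h1 ⊢
        linarith
    obtain ⟨e, he, he1, he2⟩ : ∃ e : ℝ, 0 < e ∧ e < 1 ∧ 3 * e < ((m : ℝ) - 1) * p - 2 * m + 1 := by
      refine ⟨min (1 / 2) ((((m : ℝ) - 1) * p - 2 * m + 1) / 4), ?_, ?_, ?_⟩
      · exact lt_min (by norm_num) (by linarith)
      · have := min_le_left (1 / 2 : ℝ) ((((m : ℝ) - 1) * p - 2 * m + 1) / 4)
        linarith
      · have := min_le_right (1 / 2 : ℝ) ((((m : ℝ) - 1) * p - 2 * m + 1) / 4)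
        linarith
    refine ⟨1 - e, 1 - e, p - 3 + 2 * e, ?_, ?_, ?_, ?_, ?_, ?_, ?_⟩
    · linarith
    · linarith
    · linarith
    · linarith
    · linarith
    · ring
    · nlinarith

theorem tsum_geom_int (r : ℝ≥0∞) (hr : r < 1) : ∑' z : ℤ, r ^ z.natAbs < ∞ := by
  have h : ∑' z : ℤ, r ^ z.natAbs ≤ 2 * ∑' k : ℕ, r ^ k := by
    rw [← Equiv.intEquivNatSumNat.symm.tsum_eq, two_mul]
    rw [Summable.tsum_sum ENNReal.summable ENNReal.summable]
    refine add_le_add ?_ ?_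
    · refine ENNReal.tsum_le_tsum fun k => ?_
      simp [Equiv.intEquivNatSumNat]
    · refine ENNReal.tsum_le_tsum fun k => ?_
      have : ((Equiv.intEquivNatSumNat.symm (Sum.inr k)).natAbs) = k + 1 := by
        simp [Equiv.intEquivNatSumNat]
      rw [this, pow_succ]
      calc r ^ k * r ≤ r ^ k * 1 := by gcongr
        _ = r ^ k := mul_one _
  refine lt_of_le_of_lt h ?_
  rw [ENNReal.tsum_geometric]
  refine ENNReal.mul_lt_top (by simp) ?_
  rw [ENNReal.inv_lt_top]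
  exact tsub_pos_of_lt hr

theorem tsum_geom_pi (n : ℕ) (r : ℝ≥0∞) (hr : r < 1) :
    ∑' κ : Fin n → ℤ, ∏ j, r ^ (κ j).natAbs < ∞ := by
  rw [tsum_pi_prod (fun z : ℤ => r ^ z.natAbs) n]
  exact ENNReal.pow_lt_top (tsum_geom_int r hr)

/-- ROW S2 (QPH/S2.lean): Minkowski for countable sums and a product of geometric series
(`C = (∑_κ ∏ ρ^|κ_j|)^p`). -/
theorem cells_sum (n : ℕ) (p ρ : ℝ) (hp : 1 ≤ p) (hρ : 0 < ρ) (hρ1 : ρ < 1) :
    ∃ C : ℝ≥0∞, C ≠ ∞ ∧ ∀ (D : ℝ≥0∞) (f : (Fin n → ℤ) → E n → ℝ≥0∞), (∀ κ, Measurable (f κ)) →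
      (∀ κ, ∫⁻ y, f κ y ^ p ≤ D * ENNReal.ofReal ((∏ j, ρ ^ (κ j).natAbs) ^ p)) →
      ∫⁻ y, (∑' κ, f κ y) ^ p ≤ C * D := by
  have hp0 : 0 < p := by linarith
  set r : ℝ≥0∞ := ENNReal.ofReal ρ with hr
  have hr1 : r < 1 := by
    rw [hr, ENNReal.ofReal_lt_one]
    exact hρ1
  refine ⟨(∑' κ : Fin n → ℤ, ∏ j, r ^ (κ j).natAbs) ^ p,
    (ENNReal.rpow_lt_top_of_nonneg hp0.le (tsum_geom_pi n r hr1).ne).ne, fun D f hf hB => ?_⟩
  have key : ∀ κ : Fin n → ℤ, (∫⁻ y, f κ y ^ p) ^ (1 / p) ≤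
      D ^ (1 / p) * ∏ j, r ^ (κ j).natAbs := by
    intro κ
    have h0 : 0 ≤ ∏ j, ρ ^ (κ j).natAbs := Finset.prod_nonneg fun j _ => by positivity
    have h1 : ENNReal.ofReal ((∏ j, ρ ^ (κ j).natAbs) ^ p) = (∏ j, r ^ (κ j).natAbs) ^ p := by
      rw [← ENNReal.ofReal_rpow_of_nonneg h0 hp0.le,
        ENNReal.ofReal_prod_of_nonneg fun j _ => by positivity]
      simp_rw [ENNReal.ofReal_pow hρ.le, hr]
    calc (∫⁻ y, f κ y ^ p) ^ (1 / p)
        ≤ (D * ENNReal.ofReal ((∏ j, ρ ^ (κ j).natAbs) ^ p)) ^ (1 / p) :=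
          ENNReal.rpow_le_rpow (hB κ) (by positivity)
      _ = D ^ (1 / p) * ∏ j, r ^ (κ j).natAbs := by
          rw [h1, ENNReal.mul_rpow_of_nonneg _ _ (by positivity), ← ENNReal.rpow_mul,
            mul_one_div_cancel hp0.ne', ENNReal.rpow_one]
  calc ∫⁻ y, (∑' κ, f κ y) ^ p
      ≤ (∑' κ, (∫⁻ y, f κ y ^ p) ^ (1 / p)) ^ p :=
        minkowski_tsum volume p hp f fun κ => (hf κ).aemeasurable
    _ ≤ (∑' κ : Fin n → ℤ, D ^ (1 / p) * ∏ j, r ^ (κ j).natAbs) ^ p :=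
        ENNReal.rpow_le_rpow (ENNReal.tsum_le_tsum key) hp0.le
    _ = (∑' κ : Fin n → ℤ, ∏ j, r ^ (κ j).natAbs) ^ p * D := by
        rw [ENNReal.tsum_mul_left, ENNReal.mul_rpow_of_nonneg _ _ hp0.le, ← ENNReal.rpow_mul,
          one_div_mul_cancel hp0.ne', ENNReal.rpow_one, mul_comm]

end Pool.Agent.QPH
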