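import Pool.Agent.QPH.Defs

namespace Pool.Agent.QPH

open MeasureTheory Set Pool.Agent.MP_6cbfb8_an
open scoped ENNReal Real

/-- A product of Gaussians over `E n`. -/
theorem t_gauss (n : ℕ) (v : Fin n → ℝ) (hv : ∀ j, 0 < v j) :
    ∫⁻ y : E n, ENNReal.ofReal (∏ j, Real.exp (-v j * y j ^ 2)) =
      ENNReal.ofReal (∏ j, √(π / v j)) := by
  have hint : ∀ j, Integrable (fun x : ℝ => Real.exp (-v j * x ^ 2)) := fun j =>
    integrable_exp_neg_mul_sq (hv j)
  have hI : Integrable (fun x : Fin n → ℝ => ∏ j, Real.exp (-v j * x j ^ 2)) :=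
    Integrable.fintype_prod (f := fun j x => Real.exp (-v j * x ^ 2)) hint
  have hm : Measurable fun x : Fin n → ℝ => ENNReal.ofReal (∏ j, Real.exp (-v j * x j ^ 2)) := by
    fun_prop
  have h1 := (PiLp.volume_preserving_ofLp (Fin n)).lintegral_comp hm
  refine h1.trans ?_
  rw [← ofReal_integral_eq_lintegral_ofReal hI (Filter.Eventually.of_forall fun x =>
    Finset.prod_nonneg fun j _ => (Real.exp_pos _).le)]
  congr 1
  rw [integral_fintype_prod_volume_eq_prod (fun j x => Real.exp (-v j * x ^ 2))]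
  exact Finset.prod_congr rfl fun j _ => integral_gaussian _

theorem t_psi (s y : ℝ) :
    ‖psi1 s y‖ = ‖(1 : ℂ) + (s : ℂ) * Complex.I‖ ^ (-(1 / 2) : ℝ) *
      Real.exp (-(y ^ 2 / (4 * (1 + s ^ 2)))) := by
  unfold psi1
  rw [norm_mul]
  congr 1
  · have h : (-(1 / 2) : ℂ) = ((-(1 / 2) : ℝ) : ℂ) := by push_cast; ring
    rw [h, Complex.norm_cpow_real]
  · rw [Complex.norm_exp]
    congr 1
    have hs : (1 : ℝ) + s ^ 2 ≠ 0 := by positivity
    have hne : (1 : ℂ) + (s : ℂ) * Complex.I ≠ 0 := by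
      intro h
      have := congrArg Complex.re h
      simp at this
    have h : -((y ^ 2 : ℝ) : ℂ) / (4 * (1 + (s : ℂ) * Complex.I)) =
        ((-(y ^ 2 / (4 * (1 + s ^ 2))) : ℝ) : ℂ) +
          ((y ^ 2 * s / (4 * (1 + s ^ 2)) : ℝ) : ℂ) * Complex.I := by
      have hs' : (1 : ℂ) + (s : ℂ) ^ 2 ≠ 0 := by exact_mod_cast hs
      have hprod : (1 + (s : ℂ) * Complex.I) * (1 - (s : ℂ) * Complex.I) = 1 + (s : ℂ) ^ 2 := by
        ring_nf
        rw [Complex.I_sq]
        ring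
      push_cast
      rw [div_eq_iff (mul_ne_zero (by norm_num) hne)]
      have h2 : (-((y : ℂ) ^ 2 / (4 * (1 + (s : ℂ) ^ 2))) +
          (y : ℂ) ^ 2 * s / (4 * (1 + (s : ℂ) ^ 2)) * Complex.I) *
          (4 * (1 + (s : ℂ) * Complex.I)) =
          -((y : ℂ) ^ 2 * ((1 + (s : ℂ) * Complex.I) * (1 - (s : ℂ) * Complex.I)) /
            (1 + (s : ℂ) ^ 2)) := by
        field_simp
        ring
      rw [h2, hprod, mul_div_assoc, div_self hs', mul_one]
    rw [h, Complex.add_re, Complex.ofReal_re, Complex.re_ofReal_mul, Complex.I_re, mul_zero, add_zero]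

/-- ROW T (QPH/T.lean): absolute values. -/
theorem cell_trivial (n : ℕ) (p : ℝ) (hp : 1 ≤ p) : ∃ C : ℝ, 0 ≤ C ∧
    ∀ (a w : Fin n → ℝ) (α β : ℝ), α ≤ β → (∀ j, 1 ≤ w j) →
      (∀ t ∈ Icc α β, ∀ j, |t - a j| ≤ 4 * w j ∧ (w j ≤ |t - a j| ∨ w j ≤ 8)) →
      ∫⁻ y : E n, ‖∫ t in α..β, GG a y t‖ₑ ^ p ≤
        ENNReal.ofReal (C * (β - α) ^ p * (∏ j, w j) ^ (1 - p / 2)) := by
  have hp0 : 0 < p := by linarith
  refine ⟨((8 : ℝ) ^ (p / 2) * √(68 * π / p)) ^ n, by positivity, ?_⟩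
  intro a w α β hαβ hw1 hw
  have hw0 : ∀ j, 0 < w j := fun j => by linarith [hw1 j]
  -- pointwise bound
  have hpt : ∀ (y : E n), ∀ t ∈ Icc α β,
      ‖GG a y t‖ ≤ ∏ j, ((w j / 8) ^ (-(1 / 2) : ℝ) * Real.exp (-(1 / (68 * w j ^ 2)) * y j ^ 2)) := by
    intro y t ht
    unfold GG
    rw [norm_mul, norm_prod, Complex.norm_exp_ofReal_mul_I, one_mul]
    refine Finset.prod_le_prod (fun _ _ => norm_nonneg _) fun j _ => ?_
    rw [t_psi]
    obtain ⟨h1, h2⟩ := hw t ht j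
    have hn1 : (1 : ℝ) ≤ ‖(1 : ℂ) + ((t - a j : ℝ) : ℂ) * Complex.I‖ := by
      have := Complex.abs_re_le_norm ((1 : ℂ) + ((t - a j : ℝ) : ℂ) * Complex.I)
      simpa using this
    have hn2 : |t - a j| ≤ ‖(1 : ℂ) + ((t - a j : ℝ) : ℂ) * Complex.I‖ := by
      have := Complex.abs_im_le_norm ((1 : ℂ) + ((t - a j : ℝ) : ℂ) * Complex.I)
      simpa using this
    have hn3 : w j / 8 ≤ ‖(1 : ℂ) + ((t - a j : ℝ) : ℂ) * Complex.I‖ := by
      rcases h2 with h2 | h2
      · linarith [hw0 j]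
      · linarith
    refine mul_le_mul ?_ ?_ (Real.exp_pos _).le (by have := hw0 j; positivity)
    · exact Real.rpow_le_rpow_of_nonpos (by have := hw0 j; positivity) hn3 (by norm_num)
    · apply Real.exp_le_exp.2
      have h3 : (t - a j) ^ 2 ≤ 16 * w j ^ 2 := by
        have : |t - a j| ^ 2 ≤ (4 * w j) ^ 2 := pow_le_pow_left₀ (abs_nonneg _) h1 2
        rw [sq_abs] at this
        nlinarith
      have h4 : 1 + (t - a j) ^ 2 ≤ 17 * w j ^ 2 := by nlinarith [hw1 j]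
      have h5 : y j ^ 2 / (68 * w j ^ 2) ≤ y j ^ 2 / (4 * (1 + (t - a j) ^ 2)) := by
        apply div_le_div_of_nonneg_left (sq_nonneg _) (by positivity)
        linarith
      have h6 : -(1 / (68 * w j ^ 2)) * y j ^ 2 = -(y j ^ 2 / (68 * w j ^ 2)) := by ring
      rw [h6]
      linarith
  -- the `p`-th power
  have hpw : ∀ y : E n, ‖∫ t in α..β, GG a y t‖ₑ ^ p ≤
      ENNReal.ofReal ((β - α) ^ p * ∏ j, (w j / 8) ^ (-(p / 2))) *
        ENNReal.ofReal (∏ j, Real.exp (-(p / (68 * w j ^ 2)) * y j ^ 2)) := by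
    intro y
    have h1 : ‖∫ t in α..β, GG a y t‖ ≤
        (∏ j, ((w j / 8) ^ (-(1 / 2) : ℝ) * Real.exp (-(1 / (68 * w j ^ 2)) * y j ^ 2))) *
          |β - α| := by
      refine intervalIntegral.norm_integral_le_of_norm_le_const fun t ht => ?_
      rw [uIoc_of_le hαβ] at ht
      exact hpt y t (Ioc_subset_Icc_self ht)
    rw [abs_of_nonneg (sub_nonneg.2 hαβ)] at h1
    have hB : 0 ≤ ∏ j, ((w j / 8) ^ (-(1 / 2) : ℝ) * Real.exp (-(1 / (68 * w j ^ 2)) * y j ^ 2)) :=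
      Finset.prod_nonneg fun j _ => by have := hw0 j; positivity
    rw [← ofReal_norm, ENNReal.ofReal_rpow_of_nonneg (norm_nonneg _) hp0.le,
      ← ENNReal.ofReal_mul (by
        refine mul_nonneg (Real.rpow_nonneg (sub_nonneg.2 hαβ) _)
          (Finset.prod_nonneg fun j _ => ?_)
        have := hw0 j
        positivity)]
    apply ENNReal.ofReal_le_ofReal
    refine (Real.rpow_le_rpow (norm_nonneg _) h1 hp0.le).trans (le_of_eq ?_)
    rw [Real.mul_rpow hB (sub_nonneg.2 hαβ), ← Real.finsetProd_rpow _ _ (fun j _ => by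
      have := hw0 j; positivity)]
    have h2 : ∀ j, ((w j / 8) ^ (-(1 / 2) : ℝ) * Real.exp (-(1 / (68 * w j ^ 2)) * y j ^ 2)) ^ p =
        (w j / 8) ^ (-(p / 2)) * Real.exp (-(p / (68 * w j ^ 2)) * y j ^ 2) := by
      intro j
      have := hw0 j
      rw [Real.mul_rpow (by positivity) (Real.exp_pos _).le, ← Real.rpow_mul (by positivity),
        ← Real.exp_mul]
      congr 2 <;> ring
    simp_rw [h2]
    rw [Finset.prod_mul_distrib]
    ring
  refine (lintegral_mono hpw).trans ?_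
  rw [lintegral_const_mul' _ _ ENNReal.ofReal_ne_top, t_gauss n _ (fun j => by
    have := hw0 j; positivity), ← ENNReal.ofReal_mul (by
      refine mul_nonneg (Real.rpow_nonneg (sub_nonneg.2 hαβ) _)
        (Finset.prod_nonneg fun j _ => ?_)
      have := hw0 j
      positivity)]
  apply ENNReal.ofReal_le_ofReal
  apply le_of_eq
  have h3 : ∀ j, (w j / 8) ^ (-(p / 2)) * √(π / (p / (68 * w j ^ 2))) =
      ((8 : ℝ) ^ (p / 2) * √(68 * π / p)) * w j ^ (1 - p / 2) := by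
    intro j
    have hj := hw0 j
    have e1 : π / (p / (68 * w j ^ 2)) = (68 * π / p) * w j ^ 2 := by
      field_simp
    rw [e1, Real.sqrt_mul (by positivity), Real.sqrt_sq hj.le, Real.div_rpow hj.le (by norm_num),
      Real.rpow_sub hj, Real.rpow_one, Real.rpow_neg hj.le, Real.rpow_neg (by norm_num)]
    field_simp
  rw [mul_assoc, ← Finset.prod_mul_distrib]
  simp_rw [h3]
  rw [Finset.prod_mul_distrib, Finset.prod_const, Finset.card_univ, Fintype.card_fin,
    Real.finsetProd_rpow _ _ (fun j _ => (hw0 j).le)]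
  ring

end Pool.Agent.QPH
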