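import Pool.Agent.QPH.D
import Pool.Agent.QPH.T
import Pool.Agent.QPH.K
import Pool.Agent.QPH.S1
import Pool.Agent.QPH.S2
import Pool.Agent.QPH.M

/-!
Assembly of the cell estimates.
-/

namespace Pool.Agent.QPH

open MeasureTheory Set Pool.Agent.MP_6cbfb8_an
open scoped ENNReal Real

/-- Choice of the G_exponents. -/
theorem G_exponents (m : ℕ) (hm : 2 ≤ m) (p : ℝ) (hp : 2 + 2 / (m : ℝ) < p) :
    ∃ p1 al be ga : ℝ, p1 ≤ p ∧ 2 < p1 ∧ 0 ≤ al ∧ al < 1 ∧ 0 ≤ be ∧ be < 1 ∧ 0 ≤ ga ∧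
      al + be + ga = p1 - 1 ∧ 1 - p1 / 2 + (1 + be / 2 + ga) / ((m : ℝ) + 1) < 0 := by
  have hm0 : (2 : ℝ) ≤ m := by exact_mod_cast hm
  rcases Nat.lt_or_ge m 3 with h3 | h3
  · have hm2 : m = 2 := by omega
    subst hm2
    have hp3 : 3 < p := by norm_num at hp; exact hp
    set p1 : ℝ := min p 4 with hp1
    have h1 : 3 < p1 := lt_min hp3 (by norm_num)
    have h2 : p1 ≤ 4 := min_le_right _ _
    refine ⟨p1, 1 - (p1 - 3) / 6, 1 - (p1 - 3) / 6, p1 - 3 + 2 * ((p1 - 3) / 6), min_le_left _ _,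
      by linarith, by linarith, by linarith, by linarith, by linarith, by linarith, by ring, ?_⟩
    push_cast
    linarith
  · have hm3 : (3 : ℝ) ≤ m := by exact_mod_cast h3
    have hmpos : (0 : ℝ) < m := by linarith
    have hpc : 2 + 2 / (m : ℝ) < 3 := by
      have : 2 / (m : ℝ) ≤ 2 / 3 := by
        apply div_le_div_of_nonneg_left (by norm_num) (by norm_num) hm3
      linarith
    set p1 : ℝ := min p ((2 + 2 / (m : ℝ) + 3) / 2) with hp1
    have h1 : 2 + 2 / (m : ℝ) < p1 := lt_min hp (by linarith)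
    have h2 : p1 < 3 := lt_of_le_of_lt (min_le_right _ _) (by linarith)
    have hdm : 0 < 2 / (m : ℝ) := by positivity
    set d : ℝ := m * (p1 - 2) - 2 with hd
    have hd0 : 0 < d := by
      have h4 : m * (2 / (m : ℝ)) = 2 := by field_simp
      have h5 : m * (2 / (m : ℝ)) < m * (p1 - 2) := by
        apply mul_lt_mul_of_pos_left _ hmpos
        linarith
      rw [hd]
      linarith
    set e : ℝ := min (d / 2) ((3 - p1) / 2) with he
    have he0 : 0 < e := lt_min (by linarith) (by linarith)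
    have he1 : e ≤ d / 2 := min_le_left _ _
    have he2 : e ≤ (3 - p1) / 2 := min_le_right _ _
    refine ⟨p1, 1 - e, p1 - 2 + e, 0, min_le_left _ _, by linarith, by linarith, by linarith,
      by linarith, by linarith, le_refl _, by ring, ?_⟩
    have h6 : (p1 / 2 - 1) * ((m : ℝ) + 1) = (d + 2) / 2 + (p1 - 2) / 2 := by
      rw [hd]
      ring
    have h7 : (1 + (p1 - 2 + e) / 2 + 0) / ((m : ℝ) + 1) < p1 / 2 - 1 := by
      rw [div_lt_iff₀ (by linarith), h6]
      linarith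
    linarith

/-- The estimate for one cell. -/
theorem one_cell (m : ℕ) (p1 al be ga : ℝ) (hp1 : 2 < p1) (hal : 0 ≤ al)
    (hal1 : al < 1) (hbe : 0 ≤ be) (hbe1 : be < 1) (hga : 0 ≤ ga) (hsum : al + be + ga = p1 - 1)
    (th : ℝ) (hth : th = -(1 - p1 / 2 + (1 + be / 2 + ga) / ((m : ℝ) + 1))) (_hth0 : 0 < th) :
    ∃ D : ℝ, 0 ≤ D ∧ ∀ (a : Fin (m + 1) → ℝ) (κ : Fin (m + 1) → ℤ),
      ∫⁻ y : E (m + 1), ‖∫ t in cell a κ, GG a y t‖ₑ ^ p1 ≤
        ENNReal.ofReal (D * (∏ j, (2 : ℝ) ^ (κ j).natAbs) ^ (-th)) := by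
  obtain ⟨C1, hC1, H1⟩ := cell_bound (m + 1) p1 al be ga (by linarith) hal hal1 hbe hbe1 hga hsum
  obtain ⟨C2, hC2, H2⟩ := cell_trivial (m + 1) p1 (by linarith)
  refine ⟨C1 + C2 * 8 ^ p1, by positivity, fun a κ => ?_⟩
  set w : Fin (m + 1) → ℝ := fun j => (2 : ℝ) ^ (κ j).natAbs with hw
  have hw1 : ∀ j, 1 ≤ w j := fun j => one_le_pow₀ (by norm_num)
  have hw0 : ∀ j, 0 < w j := fun j => lt_of_lt_of_le one_pos (hw1 j)
  set W : ℝ := ∏ j, w j with hW
  have hW1 : 1 ≤ W := by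
    rw [hW]
    calc (1 : ℝ) = ∏ _j : Fin (m + 1), (1 : ℝ) := by simp
      _ ≤ ∏ j, w j := Finset.prod_le_prod (fun _ _ => zero_le_one) fun j _ => hw1 j
  have hW0 : 0 < W := lt_of_lt_of_le one_pos hW1
  have hWt : 0 ≤ W ^ (-th) := Real.rpow_nonneg hW0.le _
  rcases cell_interval (Nat.succ_pos m) a κ with h | ⟨α, β, hαβ, hc, hcell, hlen⟩
  · rw [h]
    simp only [Measure.restrict_empty, integral_zero_measure, enorm_zero]
    rw [ENNReal.zero_rpow_of_pos (by linarith)]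
    simp
  · have hint : ∀ y : E (m + 1), ∫ t in cell a κ, GG a y t = ∫ t in α..β, GG a y t := by
      intro y
      rw [hc, intervalIntegral.integral_of_le hαβ.le, integral_Ico_eq_integral_Ioo,
        integral_Ioc_eq_integral_Ioo]
    simp only [hint]
    by_cases hA : ∀ j, 2 ≤ (κ j).natAbs
    · obtain ⟨J, -, hJ⟩ := Finset.exists_min_image Finset.univ w ⟨0, Finset.mem_univ _⟩
      have hκ : ∀ j, κ j ≠ 0 := by
        intro j h0
        have := hA j
        rw [h0] at this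
        simp at this
      have h3 : ∀ j, 3 ≤ w j := by
        intro j
        have h4 : (2 : ℝ) ^ 2 ≤ (2 : ℝ) ^ (κ j).natAbs := pow_le_pow_right₀ (by norm_num) (hA j)
        have h5 : w j = (2 : ℝ) ^ (κ j).natAbs := rfl
        rw [h5]
        linarith
      have hmain := H1 a w J α β hαβ h3
        (fun t ht j => ⟨(hcell t ht j).2 (hκ j), (hcell t ht j).1⟩) ((hlen J).2 (hκ J))
      refine hmain.trans (ENNReal.ofReal_le_ofReal ?_)
      have hJW : w J ^ (m + 1) ≤ W := by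
        calc w J ^ (m + 1) = ∏ _j : Fin (m + 1), w J := by simp
          _ ≤ ∏ j, w j := Finset.prod_le_prod (fun _ _ => (hw0 J).le)
              fun j _ => hJ j (Finset.mem_univ _)
      have hJW2 : w J ≤ W ^ (1 / ((m : ℝ) + 1)) := by
        have h6 : (w J ^ (m + 1)) ^ (1 / ((m : ℝ) + 1)) ≤ W ^ (1 / ((m : ℝ) + 1)) :=
          Real.rpow_le_rpow (by have := hw0 J; positivity) hJW (by positivity)
        have h7 : (w J ^ (m + 1)) ^ (1 / ((m : ℝ) + 1)) = w J := by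
          rw [← Real.rpow_natCast, ← Real.rpow_mul (hw0 J).le]
          have : (((m + 1 : ℕ) : ℝ)) * (1 / ((m : ℝ) + 1)) = 1 := by
            push_cast
            field_simp
          rw [this, Real.rpow_one]
        rw [h7] at h6
        exact h6
      have h8 : w J ^ (1 + be / 2 + ga) ≤ W ^ ((1 + be / 2 + ga) / ((m : ℝ) + 1)) := by
        have h9 : w J ^ (1 + be / 2 + ga) ≤ (W ^ (1 / ((m : ℝ) + 1))) ^ (1 + be / 2 + ga) :=
          Real.rpow_le_rpow (hw0 J).le hJW2 (by positivity)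
        rw [← Real.rpow_mul hW0.le] at h9
        have : 1 / ((m : ℝ) + 1) * (1 + be / 2 + ga) = (1 + be / 2 + ga) / ((m : ℝ) + 1) := by ring
        rw [this] at h9
        exact h9
      calc C1 * W ^ (1 - p1 / 2) * w J ^ (1 + be / 2 + ga)
          ≤ C1 * W ^ (1 - p1 / 2) * W ^ ((1 + be / 2 + ga) / ((m : ℝ) + 1)) := by
            have : 0 ≤ W ^ (1 - p1 / 2) := Real.rpow_nonneg hW0.le _
            gcongr
        _ = C1 * W ^ (-th) := by
            rw [mul_assoc, ← Real.rpow_add hW0, hth]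
            congr 2
            ring
        _ ≤ (C1 + C2 * 8 ^ p1) * W ^ (-th) := by
            gcongr
            have : 0 ≤ C2 * 8 ^ p1 := by positivity
            linarith
    · push Not at hA
      obtain ⟨J, hJ⟩ := hA
      have hlenJ : β - α ≤ 8 := by
        have h1 := (hlen J).1
        have h2 : (2 : ℝ) ^ (κ J).natAbs ≤ 2 ^ 1 := pow_le_pow_right₀ (by norm_num) (by omega)
        linarith
      have hmain := H2 a w α β hαβ.le hw1 (fun t ht j => ⟨(hcell t ht j).1, by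
        by_cases h0 : κ j = 0
        · right
          have h5 : w j = (2 : ℝ) ^ (κ j).natAbs := rfl
          rw [h5, h0]
          norm_num
        · left
          exact (hcell t ht j).2 h0⟩)
      refine hmain.trans (ENNReal.ofReal_le_ofReal ?_)
      have h1 : (β - α) ^ p1 ≤ 8 ^ p1 := Real.rpow_le_rpow (by linarith) hlenJ (by linarith)
      have h2 : W ^ (1 - p1 / 2) ≤ W ^ (-th) := by
        apply Real.rpow_le_rpow_of_exponent_le hW1
        rw [hth]
        have : 0 ≤ (1 + be / 2 + ga) / ((m : ℝ) + 1) := by positivity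
        linarith
      calc C2 * (β - α) ^ p1 * W ^ (1 - p1 / 2) ≤ C2 * 8 ^ p1 * W ^ (-th) := by
            gcongr
        _ ≤ (C1 + C2 * 8 ^ p1) * W ^ (-th) := by
            gcongr
            linarith

theorem diag_bound (m : ℕ) (hm : 2 ≤ m) (p : ℝ) (hp : 2 + 2 / (m : ℝ) < p) :
    ∃ C : ℝ≥0∞, C ≠ ∞ ∧ ∀ a : Fin (m + 1) → ℝ,
      ∫⁻ y : E (m + 1), ‖∫ t : ℝ, GG a y t‖ₑ ^ p ≤ C := by
  obtain ⟨p1, al, be, ga, hpp, hp1, hal, hal1, hbe, hbe1, hga, hsum, hexp⟩ := G_exponents m hm p hp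
  set th : ℝ := -(1 - p1 / 2 + (1 + be / 2 + ga) / ((m : ℝ) + 1)) with hth
  have hth0 : 0 < th := by rw [hth]; linarith
  obtain ⟨D, hD, H⟩ := one_cell m p1 al be ga hp1 hal hal1 hbe hbe1 hga hsum th hth hth0
  obtain ⟨K, hK, HK⟩ := GG_int (m + 1) (by omega)
  set ρ : ℝ := (2 : ℝ) ^ (-th / p1) with hρ
  have hρ0 : 0 < ρ := Real.rpow_pos_of_pos (by norm_num) _
  have hρ1 : ρ < 1 := by
    rw [hρ]
    apply Real.rpow_lt_one_of_one_lt_of_neg (by norm_num)
    apply div_neg_of_neg_of_pos (by linarith) (by linarith)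
  obtain ⟨C, hC, HC⟩ := cells_sum (m + 1) p1 ρ (by linarith) hρ0 hρ1
  refine ⟨ENNReal.ofReal K ^ (p - p1) * (C * ENNReal.ofReal D), ?_, fun a => ?_⟩
  · exact ENNReal.mul_ne_top (ENNReal.rpow_ne_top_of_nonneg (by linarith) ENNReal.ofReal_ne_top)
      (ENNReal.mul_ne_top hC ENNReal.ofReal_ne_top)
  have hmeas : ∀ κ : Fin (m + 1) → ℤ,
      Measurable fun y : E (m + 1) => ‖∫ t in cell a κ, GG a y t‖ₑ := by
    intro κ
    apply Measurable.enorm
    refine (GG_meas a).2 _ ?_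
    have : cell a κ = ⋂ j, (fun t : ℝ => t - a j) ⁻¹' (Ico (lo (κ j)) (lo (κ j + 1))) := by
      ext t
      simp only [cell, mem_ofPred_eq, mem_iInter, mem_preimage, mem_Ico]
    rw [this]
    exact MeasurableSet.iInter fun j => (measurable_id.sub_const _) measurableSet_Ico
  have hsumle : ∫⁻ y : E (m + 1), (∑' κ : Fin (m + 1) → ℤ, ‖∫ t in cell a κ, GG a y t‖ₑ) ^ p1 ≤
      C * ENNReal.ofReal D := by
    refine HC (ENNReal.ofReal D) (fun κ y => ‖∫ t in cell a κ, GG a y t‖ₑ) hmeas fun κ => ?_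
    refine (H a κ).trans (le_of_eq ?_)
    rw [ENNReal.ofReal_mul hD]
    congr 2
    have h1 : ∏ j, ρ ^ (κ j).natAbs = (∏ j, (2 : ℝ) ^ (κ j).natAbs) ^ (-th / p1) := by
      rw [← Real.finsetProd_rpow _ _ (fun j _ => by positivity)]
      refine Finset.prod_congr rfl fun j _ => ?_
      rw [hρ, ← Real.rpow_natCast, ← Real.rpow_mul (by norm_num), ← Real.rpow_natCast,
        ← Real.rpow_mul (by norm_num)]
      congr 1
      ring
    rw [h1, ← Real.rpow_mul (Finset.prod_nonneg fun j _ => by positivity)]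
    congr 1
    field_simp
  have hpt : ∀ y : E (m + 1), ‖∫ t : ℝ, GG a y t‖ₑ ^ p ≤ ENNReal.ofReal K ^ (p - p1) *
      (∑' κ : Fin (m + 1) → ℤ, ‖∫ t in cell a κ, GG a y t‖ₑ) ^ p1 := by
    intro y
    obtain ⟨hi, hb⟩ := HK a y
    have h1 : ‖∫ t : ℝ, GG a y t‖ₑ ≤ ENNReal.ofReal K := by
      rw [← ofReal_norm]
      exact ENNReal.ofReal_le_ofReal ((norm_integral_le_integral_norm _).trans hb)
    have h2 := cell_tsum a _ hi
    have h3 : ‖∫ t : ℝ, GG a y t‖ₑ ^ p = ‖∫ t : ℝ, GG a y t‖ₑ ^ (p - p1) *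
        ‖∫ t : ℝ, GG a y t‖ₑ ^ p1 := by
      rw [← ENNReal.rpow_add_of_nonneg _ _ (by linarith) (by linarith)]
      congr 1
      ring
    rw [h3]
    exact mul_le_mul' (ENNReal.rpow_le_rpow h1 (by linarith)) (ENNReal.rpow_le_rpow h2 (by linarith))
  calc ∫⁻ y : E (m + 1), ‖∫ t : ℝ, GG a y t‖ₑ ^ p
      ≤ ∫⁻ y : E (m + 1), ENNReal.ofReal K ^ (p - p1) *
        (∑' κ : Fin (m + 1) → ℤ, ‖∫ t in cell a κ, GG a y t‖ₑ) ^ p1 := lintegral_mono hpt
    _ = ENNReal.ofReal K ^ (p - p1) * ∫⁻ y : E (m + 1),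
        (∑' κ : Fin (m + 1) → ℤ, ‖∫ t in cell a κ, GG a y t‖ₑ) ^ p1 := by
        rw [lintegral_const_mul]
        exact (Measurable.tsum hmeas).pow_const _
    _ ≤ _ := by gcongr

end Pool.Agent.QPH
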