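import Pool.Agent.QPH.Defs

/-!
The formula for the Fourier transform of `e^{i ∑ a_j x_j^2} σ` as a one-dimensional integral.
-/

namespace Pool.Agent.QPH

open MeasureTheory Set Pool.Agent.MP_6cbfb8_an
open scoped ENNReal Real

/-- Polar coordinates for an integrable complex function. -/
theorem r0_polar (j : ℕ) (φ : E (j + 1) → ℂ) (hφ : Integrable φ) :
    ∫ x, φ x = ∫ r in Ioi (0:ℝ), (((r ^ j : ℝ)) : ℂ) *
      ∫ ω : S (j + 1), φ (r • (ω : E (j + 1))) ∂(sm (j + 1)) := by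
  have h1 := Measure.measurePreserving_homeomorphUnitSphereProd (volume : Measure (E (j + 1)))
  have hd : Module.finrank ℝ (E (j + 1)) - 1 = j := by simp
  rw [hd] at h1
  have hemb : MeasurableEmbedding (homeomorphUnitSphereProd (E (j + 1))) :=
    Homeomorph.measurableEmbedding _
  set ψ : S (j + 1) × Ioi (0:ℝ) → ℂ := fun q => φ ((q.2 : ℝ) • (q.1 : E (j + 1))) with hψ
  have hcomp : ∀ x : ({0}ᶜ : Set (E (j + 1))),
      ψ (homeomorphUnitSphereProd (E (j + 1)) x) = φ x := by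
    intro x
    have hx : ‖(x : E (j + 1))‖ ≠ 0 := norm_ne_zero_iff.2 x.2
    simp only [hψ, homeomorphUnitSphereProd_apply_snd_coe, homeomorphUnitSphereProd_apply_fst_coe]
    rw [smul_smul, mul_inv_cancel₀ hx, one_smul]
  have e1 : ∫ x, φ x = ∫ x : ({0}ᶜ : Set (E (j + 1))), φ x
      ∂((volume : Measure (E (j + 1))).comap (↑)) := by
    rw [integral_subtype_comap (measurableSet_singleton _).compl fun x => φ x,
      restrict_compl_singleton]
  have e2 : ∫ x : ({0}ᶜ : Set (E (j + 1))), φ x ∂((volume : Measure (E (j + 1))).comap (↑)) =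
      ∫ q, ψ q ∂((sm (j + 1)).prod (Measure.volumeIoiPow j)) := by
    rw [← h1.integral_comp hemb ψ]
    exact integral_congr_ae (ae_of_all _ fun x => (hcomp x).symm)
  have hint : Integrable ψ ((sm (j + 1)).prod (Measure.volumeIoiPow j)) := by
    rw [← h1.integrable_comp_emb hemb]
    have : (ψ ∘ homeomorphUnitSphereProd (E (j + 1))) = fun x : ({0}ᶜ : Set (E (j + 1))) => φ x :=
      funext hcomp
    rw [this]
    have hm : MeasurableEmbedding (Subtype.val : ({0}ᶜ : Set (E (j + 1))) → E (j + 1)) :=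
      MeasurableEmbedding.subtype_coe (measurableSet_singleton _).compl
    have h3 : Integrable φ ((volume : Measure (E (j + 1))).restrict (range
        (Subtype.val : ({0}ᶜ : Set (E (j + 1))) → E (j + 1)))) := hφ.mono_measure Measure.restrict_le_self
    exact (hm.integrable_map_iff.1 (by rw [hm.map_comap]; exact h3))
  rw [e1, e2, integral_prod_symm _ hint]
  simp only [hψ, Measure.volumeIoiPow, ENNReal.ofReal]
  rw [integral_withDensity_eq_integral_smul
    ((measurable_subtype_coe.pow_const _).real_toNNReal),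
    integral_subtype_comap measurableSet_Ioi fun a : ℝ => Real.toNNReal (a ^ j) •
      ∫ ω : S (j + 1), φ (a • (ω : E (j + 1))) ∂(sm (j + 1))]
  refine setIntegral_congr_fun measurableSet_Ioi fun x hx => ?_
  rw [NNReal.smul_def, Real.coe_toNNReal _ (pow_nonneg hx.out.le _), Complex.real_smul]


lemma r0_cpow {r : ℝ} (hr : 0 < r) {z : ℂ} (hz : z ≠ 0) (c : ℂ) :
    ((r : ℂ) * z) ^ c = (r : ℂ) ^ c * z ^ c := by
  have hr' : (r : ℂ) ≠ 0 := by exact_mod_cast hr.ne'
  rw [Complex.cpow_def_of_ne_zero (mul_ne_zero hr' hz), Complex.cpow_def_of_ne_zero hr',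
    Complex.cpow_def_of_ne_zero hz, Complex.log_ofReal_mul hr hz, ← Complex.exp_add,
    Complex.ofReal_log hr.le]
  ring_nf

/-- the one-dimensional Gaussian integral -/
theorem r0_gauss1 (s y : ℝ) :
    ∫ x : ℝ, Complex.exp (-(1 + (s : ℂ) * Complex.I) * (x : ℂ) ^ 2 + (-(y : ℂ) * Complex.I) * x) =
      (π : ℂ) ^ (1 / 2 : ℂ) * psi1 s y := by
  have hb : (-(1 + (s : ℂ) * Complex.I)).re < 0 := by simp
  have h := integral_cexp_quadratic hb (-(y : ℂ) * Complex.I) 0
  simp only [add_zero] at h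
  rw [h]
  unfold psi1
  have hre : 0 < (1 + (s : ℂ) * Complex.I).re := by simp
  have hne : (1 + (s : ℂ) * Complex.I) ≠ 0 := by
    intro h0
    rw [h0] at hre
    simp at hre
  have harg : (1 + (s : ℂ) * Complex.I).arg ≠ π := by
    intro h0
    have := Complex.arg_eq_pi_iff.1 h0
    linarith [this.1]
  have e1 : ((π : ℂ) / -(-(1 + (s : ℂ) * Complex.I))) ^ (1 / 2 : ℂ) =
      (π : ℂ) ^ (1 / 2 : ℂ) * (1 + (s : ℂ) * Complex.I) ^ (-(1 / 2) : ℂ) := by
    rw [neg_neg, div_eq_mul_inv, r0_cpow Real.pi_pos (inv_ne_zero hne), Complex.inv_cpow _ _ harg,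
      Complex.cpow_neg]
  have e2 : 0 - (-(y : ℂ) * Complex.I) ^ 2 / (4 * -(1 + (s : ℂ) * Complex.I)) =
      -((y ^ 2 : ℝ) : ℂ) / (4 * (1 + (s : ℂ) * Complex.I)) := by
    push_cast
    have hI : (-(y : ℂ) * Complex.I) ^ 2 = -((y : ℂ) ^ 2) := by
      rw [mul_pow, Complex.I_sq]
      ring
    rw [hI]
    field_simp
    ring
  rw [e1, e2, mul_assoc]

/-- the Gaussian integral in `R^n` -/
theorem r0_gauss {n : ℕ} (a : Fin n → ℝ) (y : E n) (t : ℝ) :
    ∫ x : E n, Complex.exp (-(1 + (t : ℂ) * Complex.I) * ((‖x‖ ^ 2 : ℝ) : ℂ) +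
      ((∑ j, a j * x j ^ 2 - inner ℝ x y : ℝ) : ℂ) * Complex.I) =
      ((π : ℂ) ^ (1 / 2 : ℂ)) ^ n * ∏ j, psi1 (t - a j) (y j) := by
  have e0 : ∀ x : E n, Complex.exp (-(1 + (t : ℂ) * Complex.I) * ((‖x‖ ^ 2 : ℝ) : ℂ) +
      ((∑ j, a j * x j ^ 2 - inner ℝ x y : ℝ) : ℂ) * Complex.I) =
      ∏ j, Complex.exp (-(1 + ((t - a j : ℝ) : ℂ) * Complex.I) * ((x j : ℝ) : ℂ) ^ 2 +
        (-(y j : ℂ) * Complex.I) * (x j : ℝ)) := by
    intro x
    rw [← Complex.exp_sum]
    congr 1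
    have h1 : ‖x‖ ^ 2 = ∑ j, x j ^ 2 := by
      rw [EuclideanSpace.norm_sq_eq]
      simp
    have h2 : inner ℝ x y = ∑ j, x j * y j := by
      simp [PiLp.inner_apply, mul_comm]
    rw [h1, h2]
    push_cast
    rw [Finset.mul_sum, ← Finset.sum_sub_distrib, Finset.sum_mul, ← Finset.sum_add_distrib]
    refine Finset.sum_congr rfl fun j _ => ?_
    ring
  simp_rw [e0]
  have hmp := (EuclideanSpace.volume_preserving_symm_measurableEquiv_toLp (Fin n))
  have h3 := hmp.integral_comp' (g := fun x : Fin n → ℝ =>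
    ∏ j, Complex.exp (-(1 + ((t - a j : ℝ) : ℂ) * Complex.I) * ((x j : ℝ) : ℂ) ^ 2 +
        (-(y j : ℂ) * Complex.I) * (x j : ℝ)))
  have h4 : ∫ x : E n, ∏ j, Complex.exp (-(1 + ((t - a j : ℝ) : ℂ) * Complex.I) *
      ((x j : ℝ) : ℂ) ^ 2 + (-(y j : ℂ) * Complex.I) * (x j : ℝ)) =
      ∫ x : Fin n → ℝ, ∏ j, Complex.exp (-(1 + ((t - a j : ℝ) : ℂ) * Complex.I) *
      ((x j : ℝ) : ℂ) ^ 2 + (-(y j : ℂ) * Complex.I) * (x j : ℝ)) := h3
  rw [h4, integral_fintype_prod_volume_eq_prod (fun j (x : ℝ) =>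
    Complex.exp (-(1 + ((t - a j : ℝ) : ℂ) * Complex.I) * (x : ℂ) ^ 2 +
        (-(y j : ℂ) * Complex.I) * x))]
  simp_rw [r0_gauss1]
  rw [Finset.prod_mul_distrib]
  simp


/-! ### The radial function -/

/-- the integral over the sphere of radius `√s` -/
noncomputable def r0_H {n : ℕ} (a : Fin n → ℝ) (y : E n) (s : ℝ) : ℂ :=
  ∫ ω : S n, Complex.exp (((s * ∑ j, a j * (ω : E n) j ^ 2 - √s * inner ℝ (ω : E n) y : ℝ) : ℂ) *
    Complex.I) ∂(sm n)

noncomputable def r0_F (j : ℕ) (a : Fin (j + 1) → ℝ) (y : E (j + 1)) (s : ℝ) : ℂ :=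
  ((Real.exp (-s) * ((1 / 2) * s ^ (((j : ℝ) - 1) / 2)) : ℝ) : ℂ) * r0_H a y s

lemma r0_continuous_H {n : ℕ} (a : Fin n → ℝ) (y : E n) : Continuous (r0_H a y) := by
  unfold r0_H
  refine continuous_of_dominated (bound := fun _ => (1:ℝ)) (fun s => ?_) (fun s => ?_)
    (integrable_const _) (ae_of_all _ fun ω => ?_)
  · have : Continuous fun ω : S n => Complex.exp (((s * ∑ j, a j * (ω : E n) j ^ 2 -
        √s * inner ℝ (ω : E n) y : ℝ) : ℂ) * Complex.I) := by fun_prop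
    exact this.aestronglyMeasurable
  · exact ae_of_all _ fun ω => by rw [Complex.norm_exp_ofReal_mul_I]
  · fun_prop

lemma r0_norm_H {n : ℕ} (a : Fin n → ℝ) (y : E n) (s : ℝ) :
    ‖r0_H a y s‖ ≤ (sm n).real univ := by
  unfold r0_H
  refine (norm_integral_le_integral_norm _).trans ?_
  simp only [Complex.norm_exp_ofReal_mul_I]
  simp

lemma r0_continuousAt_F (j : ℕ) (a : Fin (j + 1) → ℝ) (y : E (j + 1)) {s : ℝ} (hs : 0 < s) :
    ContinuousAt (r0_F j a y) s := by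
  unfold r0_F
  refine ContinuousAt.mul ?_ (r0_continuous_H a y).continuousAt
  refine Complex.continuous_ofReal.continuousAt.comp ?_
  exact (by fun_prop : ContinuousAt (fun s : ℝ => Real.exp (-s)) s).mul
    (continuousAt_const.mul (Real.continuousAt_rpow_const _ _ (Or.inl hs.ne')))

lemma r0_integrable_F (j : ℕ) (a : Fin (j + 1) → ℝ) (y : E (j + 1)) :
    IntegrableOn (r0_F j a y) (Ioi 0) := by
  have h1 : IntegrableOn (fun x : ℝ => Real.exp (-x) * x ^ (((j : ℝ) + 1) / 2 - 1)) (Ioi 0) :=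
    Real.GammaIntegral_convergent (by positivity)
  have h2 : IntegrableOn (fun x : ℝ => (Real.exp (-x) * x ^ (((j : ℝ) + 1) / 2 - 1)) *
      ((1 / 2) * (sm (j + 1)).real univ)) (Ioi 0) := h1.mul_const _
  refine Integrable.mono' h2 ?_ ?_
  · exact ContinuousOn.aestronglyMeasurable
      (fun s hs => (r0_continuousAt_F j a y hs).continuousWithinAt) measurableSet_Ioi
  · refine (ae_restrict_iff' measurableSet_Ioi).2 (ae_of_all _ fun s hs => ?_)
    have hs0 : (0:ℝ) < s := hs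
    unfold r0_F
    rw [norm_mul, Complex.norm_real, Real.norm_of_nonneg (by positivity)]
    have e : ((j : ℝ) - 1) / 2 = ((j : ℝ) + 1) / 2 - 1 := by ring
    rw [e]
    calc Real.exp (-s) * (1 / 2 * s ^ (((j : ℝ) + 1) / 2 - 1)) * ‖r0_H a y s‖
        ≤ Real.exp (-s) * (1 / 2 * s ^ (((j : ℝ) + 1) / 2 - 1)) * (sm (j + 1)).real univ := by
          gcongr
          exact r0_norm_H a y s
      _ = _ := by ring

/-- the test function in `R^n` -/
noncomputable def r0_phi {n : ℕ} (a : Fin n → ℝ) (y : E n) (t : ℝ) (x : E n) : ℂ :=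
  Complex.exp (-(1 + (t : ℂ) * Complex.I) * ((‖x‖ ^ 2 : ℝ) : ℂ) +
      ((∑ j, a j * x j ^ 2 - inner ℝ x y : ℝ) : ℂ) * Complex.I)

lemma r0_integrable_phi {n : ℕ} (a : Fin n → ℝ) (y : E n) (t : ℝ) :
    Integrable (r0_phi a y t) := by
  have h := GaussianFourier.integrable_cexp_neg_mul_sq_norm_add (b := 1) (V := E n) (by simp) 0 0
  refine h.mono ?_ (ae_of_all _ fun x => ?_)
  · have : Continuous (r0_phi a y t) := by
      unfold r0_phi
      fun_prop
    exact this.aestronglyMeasurable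
  · unfold r0_phi
    rw [Complex.norm_exp, Complex.norm_exp]
    apply le_of_eq
    congr 1
    rw [← Complex.ofReal_pow]
    simp [-Complex.ofReal_pow, -Complex.ofReal_sum, -Complex.ofReal_sub, -Complex.ofReal_mul]

lemma r0_phi_smul {n : ℕ} (a : Fin n → ℝ) (y : E n) (t : ℝ) {r : ℝ} (hr : 0 < r) (ω : S n) :
    r0_phi a y t (r • (ω : E n)) = Complex.exp (-(1 + (t : ℂ) * Complex.I) * ((r ^ 2 : ℝ) : ℂ)) *
      Complex.exp (((r ^ 2 * ∑ j, a j * (ω : E n) j ^ 2 - √(r ^ 2) * inner ℝ (ω : E n) y : ℝ) : ℂ) *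
    Complex.I) := by
  unfold r0_phi
  rw [← Complex.exp_add]
  have h1 : ‖r • (ω : E n)‖ = r := by
    rw [norm_smul, norm_eq_of_mem_sphere ω, Real.norm_of_nonneg hr.le, mul_one]
  have h2 : ∑ j, a j * (r • (ω : E n)) j ^ 2 = r ^ 2 * ∑ j, a j * (ω : E n) j ^ 2 := by
    rw [Finset.mul_sum]
    refine Finset.sum_congr rfl fun j _ => ?_
    rw [PiLp.smul_apply, smul_eq_mul]
    ring
  rw [h1, h2, real_inner_smul_left, Real.sqrt_sq hr.le]

theorem r0_transform (j : ℕ) (a : Fin (j + 1) → ℝ) (y : E (j + 1)) (t : ℝ) :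
    ∫ s in Ioi (0:ℝ), Complex.exp (((-(t * s) : ℝ) : ℂ) * Complex.I) * r0_F j a y s =
      ((π : ℂ) ^ (1 / 2 : ℂ)) ^ (j + 1) * ∏ i, psi1 (t - a i) (y i) := by
  rw [← r0_gauss a y t]
  have h0 := r0_polar j (r0_phi a y t) (r0_integrable_phi a y t)
  have h1 : ∫ x, r0_phi a y t x = ∫ x : E (j + 1), Complex.exp (-(1 + (t : ℂ) * Complex.I) *
      ((‖x‖ ^ 2 : ℝ) : ℂ) + ((∑ j, a j * x j ^ 2 - inner ℝ x y : ℝ) : ℂ) * Complex.I) := rfl
  rw [← h1, h0]
  have h2 := integral_comp_rpow_Ioi (fun s : ℝ => Complex.exp (((-(t * s) : ℝ) : ℂ) * Complex.I) *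
    r0_F j a y s) (p := 2) (by norm_num)
  rw [← h2]
  refine setIntegral_congr_fun measurableSet_Ioi fun r hr => ?_
  have hr0 : (0:ℝ) < r := hr
  have h3 : ∀ ω : S (j + 1), r0_phi a y t (r • (ω : E (j + 1))) = _ :=
    fun ω => r0_phi_smul a y t hr0 ω
  simp_rw [h3]
  rw [integral_const_mul]
  have e2 : r ^ (2:ℝ) = r ^ 2 := by norm_cast
  rw [e2]
  unfold r0_F
  have e3 : (r ^ 2) ^ (((j : ℝ) - 1) / 2) = r ^ ((j : ℝ) - 1) := by
    rw [← Real.rpow_natCast, ← Real.rpow_mul hr0.le]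
    congr 1
    push_cast
    ring
  have e4 : |(2:ℝ)| * r ^ ((2:ℝ) - 1) = 2 * r := by
    rw [abs_of_pos (by norm_num : (0:ℝ) < 2)]
    norm_num
  have e5 : r ^ ((j : ℝ) - 1) * r = r ^ j := by
    rw [← Real.rpow_natCast r j]
    nth_rewrite 2 [← Real.rpow_one r]
    rw [← Real.rpow_add hr0]
    congr 1
    ring
  rw [e3, e4]
  have e6 : Complex.exp (-(1 + (t : ℂ) * Complex.I) * ((r ^ 2 : ℝ) : ℂ)) =
      Complex.exp (((-(t * r ^ 2) : ℝ) : ℂ) * Complex.I) * ((Real.exp (-(r ^ 2)) : ℝ) : ℂ) := by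
    rw [Complex.ofReal_exp, ← Complex.exp_add]
    congr 1
    push_cast
    ring
  rw [e6, ← e5, Complex.real_smul]
  unfold r0_H
  push_cast
  ring

/-- the radial function, extended by zero -/
noncomputable def r0_f (j : ℕ) (a : Fin (j + 1) → ℝ) (y : E (j + 1)) : ℝ → ℂ :=
  (Ioi (0:ℝ)).indicator (r0_F j a y)

theorem r0_fourier (j : ℕ) (a : Fin (j + 1) → ℝ) (y : E (j + 1)) (v : ℝ) :
    FourierTransform.fourier (r0_f j a y) v =
      ((π : ℂ) ^ (1 / 2 : ℂ)) ^ (j + 1) * ∏ i, psi1 (2 * π * v - a i) (y i) := by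
  rw [← r0_transform j a y (2 * π * v), Real.fourier_eq', ← integral_indicator measurableSet_Ioi]
  refine integral_congr_ae (ae_of_all _ fun s => ?_)
  simp only [r0_f, smul_eq_mul]
  by_cases hs : s ∈ Ioi (0:ℝ)
  · rw [indicator_of_mem hs, indicator_of_mem hs]
    congr 4
    simp
    ring
  · rw [indicator_of_notMem hs, indicator_of_notMem hs, mul_zero]

lemma r0_integrable_f (j : ℕ) (a : Fin (j + 1) → ℝ) (y : E (j + 1)) :
    Integrable (r0_f j a y) :=
  (integrable_indicator_iff measurableSet_Ioi).2 (r0_integrable_F j a y)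

lemma r0_continuousAt_f (j : ℕ) (a : Fin (j + 1) → ℝ) (y : E (j + 1)) :
    ContinuousAt (r0_f j a y) 1 := by
  refine (r0_continuousAt_F j a y one_pos).congr ?_
  filter_upwards [Ioi_mem_nhds (zero_lt_one' ℝ)] with s hs
  exact (indicator_of_mem hs _).symm

/-! ### Integrability of the integrand -/

lemma r0_norm_psi1 (s y : ℝ) : ‖psi1 s y‖ ≤ (1 + s ^ 2) ^ (-(1 / 4) : ℝ) := by
  unfold psi1
  rw [norm_mul]
  have hne : (1 + (s : ℂ) * Complex.I) ≠ 0 := by
    intro h0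
    have := congrArg Complex.re h0
    simp at this
  have hn : ‖1 + (s : ℂ) * Complex.I‖ = (1 + s ^ 2) ^ (1 / 2 : ℝ) := by
    rw [← Real.sqrt_eq_rpow, Complex.norm_def, Complex.normSq_apply]
    congr 1
    simp
    ring
  have h1 : ‖(1 + (s : ℂ) * Complex.I) ^ (-(1 / 2) : ℂ)‖ = (1 + s ^ 2) ^ (-(1 / 4) : ℝ) := by
    have : (-(1 / 2) : ℂ) = ((-(1 / 2) : ℝ) : ℂ) := by push_cast; ring
    rw [this, Complex.norm_cpow_of_ne_zero hne]
    simp only [Complex.ofReal_re, Complex.ofReal_im, mul_zero, Real.exp_zero, div_one]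
    rw [hn, ← Real.rpow_mul (by positivity)]
    norm_num
  have h2 : ‖Complex.exp (-((y ^ 2 : ℝ) : ℂ) / (4 * (1 + (s : ℂ) * Complex.I)))‖ ≤ 1 := by
    rw [Complex.norm_exp]
    refine Real.exp_le_one_iff.2 ?_
    have : (-((y ^ 2 : ℝ) : ℂ) / (4 * (1 + (s : ℂ) * Complex.I))).re =
        -(y ^ 2 / (4 * (1 + s ^ 2))) := by
      rw [Complex.div_re]
      simp [Complex.normSq_apply, -Complex.ofReal_pow]
      field_simp
    rw [this]
    exact neg_nonpos.2 (by positivity)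
  rw [h1]
  exact mul_le_of_le_one_right (by positivity) h2

lemma r0_continuous_psi1 (b y : ℝ) : Continuous fun t : ℝ => psi1 (t - b) y := by
  unfold psi1
  have h0 : ∀ t : ℝ, (1 + ((t - b : ℝ) : ℂ) * Complex.I) ∈ Complex.slitPlane := by
    intro t
    left
    simp
  refine Continuous.mul ?_ ?_
  · exact Continuous.cpow (by fun_prop) continuous_const h0
  · refine Complex.continuous_exp.comp (Continuous.div continuous_const (by fun_prop) fun t => ?_)
    exact mul_ne_zero (by norm_num) (Complex.slitPlane_ne_zero (h0 t))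

theorem r0_integrable_GG (k : ℕ) (a : Fin (k + 3) → ℝ) (y : E (k + 3)) :
    Integrable (fun t : ℝ => GG a y t) := by
  have hI : ∀ b : ℝ, Integrable fun t : ℝ => (1 + (t - b) ^ 2) ^ (-(3 / 4) : ℝ) := by
    intro b
    have h := integrable_rpow_neg_one_add_norm_sq (E := ℝ) (μ := volume) (r := 3 / 2)
      (by simp; norm_num)
    have h2 : Integrable fun t : ℝ => (1 + t ^ 2) ^ (-(3 / 4) : ℝ) := by
      refine h.congr (ae_of_all _ fun t => ?_)
      simp only [Real.norm_eq_abs, sq_abs]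
      norm_num
    exact h2.comp_sub_right b
  have hb := ((hI (a 0)).add (hI (a 1))).add (hI (a 2))
  refine hb.mono' ?_ (ae_of_all _ fun t => ?_)
  · have : Continuous fun t : ℝ => GG a y t := by
      unfold GG
      refine Continuous.mul (by fun_prop) (continuous_finsetProd _ fun i _ => ?_)
      exact r0_continuous_psi1 (a i) (y i)
    exact this.aestronglyMeasurable
  · unfold GG
    rw [norm_mul, Complex.norm_exp_ofReal_mul_I, one_mul, norm_prod]
    set x : Fin (k + 3) → ℝ := fun i => (1 + (t - a i) ^ 2) ^ (-(1 / 4) : ℝ) with hx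
    have hx0 : ∀ i, 0 ≤ x i := fun i => by positivity
    have hx1 : ∀ i, x i ≤ 1 := fun i =>
      Real.rpow_le_one_of_one_le_of_nonpos (by nlinarith [sq_nonneg (t - a i)]) (by norm_num)
    have h1 : ∏ i, ‖psi1 (t - a i) (y i)‖ ≤ ∏ i, x i :=
      Finset.prod_le_prod (fun i _ => norm_nonneg _) fun i _ => r0_norm_psi1 _ _
    refine h1.trans ?_
    have h2 : ∏ i, x i = x 0 * (x 1 * (x 2 * ∏ i : Fin k, x i.succ.succ.succ)) := by
      rw [Fin.prod_univ_succ, Fin.prod_univ_succ, Fin.prod_univ_succ]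
      rfl
    have h3 : ∏ i : Fin k, x i.succ.succ.succ ≤ 1 :=
      Finset.prod_le_one (fun i _ => hx0 _) fun i _ => hx1 _
    have h30 : 0 ≤ ∏ i : Fin k, x i.succ.succ.succ := Finset.prod_nonneg fun i _ => hx0 _
    have h4 : ∏ i, x i ≤ x 0 * (x 1 * x 2) := by
      rw [h2]
      refine mul_le_mul_of_nonneg_left (mul_le_mul_of_nonneg_left ?_ (hx0 _)) (hx0 _)
      exact mul_le_of_le_one_right (hx0 _) h3
    refine h4.trans ?_
    have h5 : ∀ i, (1 + (t - a i) ^ 2) ^ (-(3 / 4) : ℝ) = x i ^ 3 := by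
      intro i
      have hpos : (0:ℝ) ≤ 1 + (t - a i) ^ 2 := by positivity
      have h6 := Real.rpow_mul hpos (-(1 / 4)) 3
      rw [Real.rpow_ofNat] at h6
      rw [hx]
      simp only
      rw [← h6]
      norm_num
    simp only [Pi.add_apply, h5]
    have g0 := hx0 0
    have g1 := hx0 1
    have g2 := hx0 2
    nlinarith [mul_nonneg (add_nonneg (add_nonneg g0 g1) g2) (sq_nonneg (x 0 - x 1)),
      mul_nonneg (add_nonneg (add_nonneg g0 g1) g2) (sq_nonneg (x 1 - x 2)),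
      mul_nonneg (add_nonneg (add_nonneg g0 g1) g2) (sq_nonneg (x 0 - x 2)),
      pow_nonneg g0 3, pow_nonneg g1 3, pow_nonneg g2 3]

/-- ROW R0 -/
theorem extn_formula (n : ℕ) (hn : 3 ≤ n) : ∃ c : ℂ, ∀ (a : Fin n → ℝ) (ξ : E n),
    Integrable (fun t : ℝ => GG a ((2 * π) • ξ) t) ∧
    extn (fun x => Complex.exp (((∑ j, a j * x j ^ 2 : ℝ) : ℂ) * Complex.I)) ξ =
      c * ∫ t : ℝ, GG a ((2 * π) • ξ) t := by
  obtain ⟨k, rfl⟩ : ∃ k, n = k + 3 := ⟨n - 3, by omega⟩
  refine ⟨2 * Complex.exp 1 * ((2 * π : ℝ) : ℂ)⁻¹ * ((π : ℂ) ^ (1 / 2 : ℂ)) ^ (k + 3),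
    fun a ξ => ⟨r0_integrable_GG k a _, ?_⟩⟩
  set y : E (k + 3) := (2 * π) • ξ with hy
  set P : ℂ := ((π : ℂ) ^ (1 / 2 : ℂ)) ^ (k + 3) with hP
  have hf := r0_integrable_f (k + 2) a y
  have hF : FourierTransform.fourier (r0_f (k + 2) a y) =
      fun v : ℝ => P * ∏ i, psi1 (2 * π * v - a i) (y i) :=
    funext fun v => r0_fourier (k + 2) a y v
  have hGG : ∀ t, Complex.exp (((-t : ℝ) : ℂ) * Complex.I) * GG a y t =
      ∏ i, psi1 (t - a i) (y i) := by
    intro t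
    unfold GG
    rw [← mul_assoc, ← Complex.exp_add]
    simp
  have hint0 : Integrable fun t : ℝ => ∏ i, psi1 (t - a i) (y i) := by
    have h := (r0_integrable_GG k a y).bdd_mul (c := 1)
      (f := fun t : ℝ => Complex.exp (((-t : ℝ) : ℂ) * Complex.I))
      (by
        have : Continuous fun t : ℝ => Complex.exp (((-t : ℝ) : ℂ) * Complex.I) := by fun_prop
        exact this.aestronglyMeasurable)
      (ae_of_all _ fun t => by rw [Complex.norm_exp_ofReal_mul_I])
    exact h.congr (ae_of_all _ hGG)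
  have hint : Integrable (FourierTransform.fourier (r0_f (k + 2) a y)) := by
    rw [hF]
    exact (hint0.comp_mul_left' (by positivity : (2 * π : ℝ) ≠ 0)).const_mul P
  have hinv := hf.fourierInv_fourier_eq hint (r0_continuousAt_f (k + 2) a y)
  rw [Real.fourierInv_eq', hF] at hinv
  have e1 : ∫ v : ℝ, Complex.exp (((2 * π * inner ℝ v 1 : ℝ) : ℂ) * Complex.I) •
      (P * ∏ i, psi1 (2 * π * v - a i) (y i)) = P * (((2 * π : ℝ) : ℂ)⁻¹ * ∫ t : ℝ, GG a y t) := by
    have h1 : ∀ v : ℝ, Complex.exp (((2 * π * inner ℝ v 1 : ℝ) : ℂ) * Complex.I) •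
        (P * ∏ i, psi1 (2 * π * v - a i) (y i)) = P * GG a y (2 * π * v) := by
      intro v
      unfold GG
      simp
      ring
    simp_rw [h1]
    rw [integral_const_mul, Measure.integral_comp_mul_left (fun t => GG a y t)]
    rw [abs_of_pos (by positivity : (0:ℝ) < (2 * π)⁻¹), Complex.real_smul]
    push_cast
    ring
  rw [e1] at hinv
  have e2 : r0_f (k + 2) a y 1 = Complex.exp (-1) * (1 / 2) * extn (fun x => Complex.exp
      (((∑ j, a j * x j ^ 2 : ℝ) : ℂ) * Complex.I)) ξ := by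
    unfold r0_f r0_F
    rw [indicator_of_mem (mem_Ioi.2 one_pos)]
    have e3 : r0_H a y 1 = extn (fun x => Complex.exp
        (((∑ j, a j * x j ^ 2 : ℝ) : ℂ) * Complex.I)) ξ := by
      unfold r0_H extn
      refine integral_congr_ae (ae_of_all _ fun ω => ?_)
      simp only
      rw [← Complex.exp_add, hy, Real.sqrt_one, one_mul, one_mul, real_inner_smul_right]
      congr 1
      push_cast
      ring
    rw [e3, Real.one_rpow]
    push_cast
    ring
  rw [e2] at hinv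
  have hee : Complex.exp 1 * Complex.exp (-1) = 1 := by
    rw [← Complex.exp_add]
    simp
  calc extn (fun x => Complex.exp (((∑ j, a j * x j ^ 2 : ℝ) : ℂ) * Complex.I)) ξ
      = (Complex.exp 1 * Complex.exp (-1)) * extn (fun x => Complex.exp
        (((∑ j, a j * x j ^ 2 : ℝ) : ℂ) * Complex.I)) ξ := by rw [hee, one_mul]
    _ = 2 * Complex.exp 1 * (Complex.exp (-1) * (1 / 2) * extn (fun x => Complex.exp
        (((∑ j, a j * x j ^ 2 : ℝ) : ℂ) * Complex.I)) ξ) := by ring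
    _ = _ := by
      rw [← hinv]
      ring

end Pool.Agent.QPH
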