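import Pool.Agent.QPH.Ha
import Pool.Agent.QPH.R0
import Pool.Agent.QPH.G

namespace Pool.Agent.QPH

open MeasureTheory Set Pool.Agent.MP_6cbfb8_an
open scoped ENNReal Real

/-- ROW H: the uniform bound for all quadratic phases. -/
theorem quad_bound (n : ℕ) (hn : 3 ≤ n) (p : ℝ) (hp : 2 * (n : ℝ) / (n - 1) < p) :
    ∃ C : ℝ≥0∞, C ≠ ∞ ∧ ∀ P : MvPolynomial (Fin n) ℝ, P.totalDegree ≤ 2 →
      ∫⁻ ξ : E n, ‖extn (fun x => Complex.exp
        (((MvPolynomial.eval (fun i => x i) P : ℝ) : ℂ) * Complex.I)) ξ‖ₑ ^ p ≤ C := by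
  obtain ⟨m, rfl⟩ : ∃ m, n = m + 1 := ⟨n - 1, by omega⟩
  have hm : 2 ≤ m := by omega
  have hm' : (0 : ℝ) < m := by exact_mod_cast (by omega : 0 < m)
  have hp' : 2 + 2 / (m : ℝ) < p := by
    have : 2 * ((m + 1 : ℕ) : ℝ) / (((m + 1 : ℕ) : ℝ) - 1) = 2 + 2 / (m : ℝ) := by
      push_cast
      rw [add_sub_cancel_right, mul_add, add_div, mul_one, mul_div_assoc, div_self hm'.ne', mul_one]
    rwa [this] at hp
  have hp0 : 0 ≤ p := by
    have : 0 < 2 / (m : ℝ) := by positivity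
    linarith
  obtain ⟨c, hc⟩ := extn_formula (m + 1) hn
  exact quad_bound_of (m + 1) p hp0 ⟨c, fun a ξ => (hc a ξ).2⟩ (diag_bound m hm p hp')

end Pool.Agent.QPH
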