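import Pool.Agent.QPH.Defs
import Pool.Agent.VAN.H2
import Pool.Agent.MP_6cbfb8_an.Super

/-!
Reduction of an arbitrary quadratic phase to a diagonal one (spectral theorem, rotation of the
sphere, translation of the transform).
-/

namespace Pool.Agent.QPH

open MeasureTheory Set Pool.Agent.MP_6cbfb8_an
open scoped ENNReal Real

/-! ### Polynomials of degree at most two -/

theorem prod_pow_pred {n : ℕ} (s : Fin n → ℕ) (i : Fin n) (hi : s i ≠ 0) (x : Fin n → ℝ) :
    ∏ j, x j ^ s j = x i * ∏ j, x j ^ (Function.update s i (s i - 1)) j := by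
  rw [← Finset.mul_prod_erase Finset.univ (fun j => x j ^ s j) (Finset.mem_univ i),
    ← Finset.mul_prod_erase Finset.univ (fun j => x j ^ (Function.update s i (s i - 1)) j)
      (Finset.mem_univ i), ← mul_assoc]
  congr 1
  · simp only [Function.update_self]
    rw [mul_comm, ← pow_succ, Nat.sub_add_cancel (Nat.pos_of_ne_zero hi)]
  · refine Finset.prod_congr rfl fun j hj => ?_
    rw [Function.update_of_ne (Finset.ne_of_mem_erase hj)]

theorem sum_pred {n : ℕ} (s : Fin n → ℕ) (i : Fin n) (hi : s i ≠ 0) :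
    ∑ j, s j = (∑ j, (Function.update s i (s i - 1)) j) + 1 := by
  rw [← Finset.add_sum_erase Finset.univ s (Finset.mem_univ i),
    ← Finset.add_sum_erase Finset.univ (Function.update s i (s i - 1)) (Finset.mem_univ i)]
  have h1 : ∑ j ∈ Finset.univ.erase i, Function.update s i (s i - 1) j =
      ∑ j ∈ Finset.univ.erase i, s j :=
    Finset.sum_congr rfl fun j hj => by
      rw [Function.update_of_ne (Finset.ne_of_mem_erase hj)]
  rw [h1]
  simp only [Function.update_self]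
  omega

theorem prod_pow_le_one {n : ℕ} (s : Fin n → ℕ) (hs : ∑ i, s i ≤ 1) :
    (∀ x : Fin n → ℝ, ∏ j, x j ^ s j = 1) ∨ (∃ i, ∀ x : Fin n → ℝ, ∏ j, x j ^ s j = x i) := by
  by_cases h0 : ∀ i, s i = 0
  · left
    intro x
    simp [h0]
  · push Not at h0
    obtain ⟨i, hi⟩ := h0
    right
    refine ⟨i, fun x => ?_⟩
    have h1 := sum_pred s i hi
    have h2 : ∑ j, (Function.update s i (s i - 1)) j = 0 := by omega
    rw [prod_pow_pred s i hi]
    have h3 : ∀ j, (Function.update s i (s i - 1)) j = 0 := by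
      intro j
      exact (Finset.sum_eq_zero_iff.1 h2) j (Finset.mem_univ j)
    simp [h3]

theorem prod_pow_le_two {n : ℕ} (s : Fin n → ℕ) (hs : ∑ i, s i ≤ 2) :
    (∀ x : Fin n → ℝ, ∏ j, x j ^ s j = 1) ∨ (∃ i, ∀ x : Fin n → ℝ, ∏ j, x j ^ s j = x i) ∨
      (∃ i k, ∀ x : Fin n → ℝ, ∏ j, x j ^ s j = x i * x k) := by
  by_cases h0 : ∀ i, s i = 0
  · left
    intro x
    simp [h0]
  · push Not at h0
    obtain ⟨i, hi⟩ := h0
    right
    have h1 := sum_pred s i hi
    rcases prod_pow_le_one (Function.update s i (s i - 1)) (by omega) with h | ⟨k, h⟩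
    · left
      refine ⟨i, fun x => ?_⟩
      rw [prod_pow_pred s i hi, h x, mul_one]
    · right
      refine ⟨i, k, fun x => ?_⟩
      rw [prod_pow_pred s i hi, h x]

/-- Functions of the form `⟨T x, x⟩ + ⟨x, b⟩ + c`, `T` symmetric. -/
def IsQuad {n : ℕ} (f : E n → ℝ) : Prop :=
  ∃ (T : E n →ₗ[ℝ] E n) (b : E n) (c : ℝ), T.IsSymmetric ∧
    ∀ x : E n, f x = inner ℝ (T x) x + inner ℝ x b + c

theorem IsQuad.zero {n : ℕ} : IsQuad (fun _ : E n => (0 : ℝ)) :=
  ⟨0, 0, 0, LinearMap.IsSymmetric.zero, fun x => by simp⟩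

theorem IsQuad.add {n : ℕ} {f g : E n → ℝ} (hf : IsQuad f) (hg : IsQuad g) :
    IsQuad fun x => f x + g x := by
  obtain ⟨T, b, c, hT, h⟩ := hf
  obtain ⟨T', b', c', hT', h'⟩ := hg
  refine ⟨T + T', b + b', c + c', hT.add hT', fun x => ?_⟩
  simp only [h x, h' x, LinearMap.add_apply, inner_add_left, inner_add_right]
  ring

theorem IsQuad.smul {n : ℕ} {f : E n → ℝ} (hf : IsQuad f) (r : ℝ) :
    IsQuad fun x => r * f x := by
  obtain ⟨T, b, c, hT, h⟩ := hf
  refine ⟨r • T, r • b, r * c, ?_, fun x => ?_⟩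
  · intro x y
    simp only [LinearMap.smul_apply, inner_smul_left, inner_smul_right, hT x y]
    simp
  · simp only [h x, LinearMap.smul_apply, inner_smul_left, inner_smul_right]
    simp
    ring

theorem IsQuad.sum {n : ℕ} {ι : Type*} (s : Finset ι) (f : ι → E n → ℝ)
    (h : ∀ i ∈ s, IsQuad (f i)) : IsQuad fun x => ∑ i ∈ s, f i x := by
  classical
  induction s using Finset.induction_on with
  | empty => simpa using IsQuad.zero
  | insert i s hi ih =>
    simp only [Finset.sum_insert hi]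
    exact (h i (Finset.mem_insert_self i s)).add
      (ih fun j hj => h j (Finset.mem_insert_of_mem hj))

theorem IsQuad.one {n : ℕ} : IsQuad (fun _ : E n => (1 : ℝ)) :=
  ⟨0, 0, 1, LinearMap.IsSymmetric.zero, fun x => by simp⟩

theorem IsQuad.coord {n : ℕ} (i : Fin n) : IsQuad (fun x : E n => x i) :=
  ⟨0, EuclideanSpace.single i 1, 0, LinearMap.IsSymmetric.zero, fun x => by
    simp [EuclideanSpace.inner_single_right]⟩

theorem IsQuad.coord_mul {n : ℕ} (i j : Fin n) : IsQuad (fun x : E n => x i * x j) := by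
  refine ⟨(1 / 2 : ℝ) • ((EuclideanSpace.proj (𝕜 := ℝ) j : E n →L[ℝ] ℝ).toLinearMap.smulRight
      (EuclideanSpace.single i (1 : ℝ)) +
    (EuclideanSpace.proj (𝕜 := ℝ) i : E n →L[ℝ] ℝ).toLinearMap.smulRight
      (EuclideanSpace.single j (1 : ℝ))), 0, 0, ?_, fun x => ?_⟩
  · intro x y
    simp [inner_smul_left, inner_smul_right, inner_add_left, inner_add_right,
      EuclideanSpace.inner_single_left, EuclideanSpace.inner_single_right]
    ring
  · simp [inner_smul_left, inner_add_left, EuclideanSpace.inner_single_left]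
    ring

theorem isQuad_eval {n : ℕ} (P : MvPolynomial (Fin n) ℝ) (hP : P.totalDegree ≤ 2) :
    IsQuad fun x : E n => MvPolynomial.eval (fun i => x i) P := by
  simp_rw [MvPolynomial.eval_eq']
  refine IsQuad.sum _ _ fun s hs => IsQuad.smul ?_ _
  have h1 : ∑ i, s i ≤ 2 := by
    have h2 := MvPolynomial.le_totalDegree hs
    have h3 : (s.sum fun _ e => e) = ∑ i, s i := by
      rw [Finsupp.sum_fintype]
      simp
    omega
  rcases prod_pow_le_two (fun i => s i) h1 with h | ⟨i, h⟩ | ⟨i, k, h⟩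
  · simp_rw [fun x : E n => h fun i => x i]
    exact IsQuad.one
  · simp_rw [fun x : E n => h fun i => x i]
    exact IsQuad.coord i
  · simp_rw [fun x : E n => h fun i => x i]
    exact IsQuad.coord_mul i k

/-- Diagonal form of a polynomial of degree at most two. -/
theorem quad_diag {n : ℕ} (P : MvPolynomial (Fin n) ℝ) (hP : P.totalDegree ≤ 2) :
    ∃ (R : E n ≃ₗᵢ[ℝ] E n) (a : Fin n → ℝ) (b : E n) (c : ℝ), ∀ x : E n,
      MvPolynomial.eval (fun i => x i) P = ∑ j, a j * (R x) j ^ 2 + inner ℝ x b + c := by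
  obtain ⟨T, b, c, hT, h⟩ := isQuad_eval P hP
  have hfin : Module.finrank ℝ (E n) = n := by simp
  refine ⟨(hT.eigenvectorBasis hfin).repr, hT.eigenvalues hfin, b, c, fun x => ?_⟩
  have hx : MvPolynomial.eval (fun i => x i) P = inner ℝ (T x) x + inner ℝ x b + c := h x
  rw [hx]
  congr 2
  rw [← (hT.eigenvectorBasis hfin).repr.inner_map_map, PiLp.inner_apply]
  refine Finset.sum_congr rfl fun j _ => ?_
  rw [hT.eigenvectorBasis_apply_self_apply hfin x j]
  simp
  ring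

/-! ### The reduction -/

/-- The bound for all quadratic phases follows from the one for the diagonal phases. -/
theorem quad_of_diag {n : ℕ} (p : ℝ) (C : ℝ≥0∞)
    (H : ∀ a : Fin n → ℝ, ∫⁻ ξ : E n, ‖extn (fun x => Complex.exp
      (((∑ j, a j * x j ^ 2 : ℝ) : ℂ) * Complex.I)) ξ‖ₑ ^ p ≤ C)
    (P : MvPolynomial (Fin n) ℝ) (hP : P.totalDegree ≤ 2) :
    ∫⁻ ξ : E n, ‖extn (fun x => Complex.exp
        (((MvPolynomial.eval (fun i => x i) P : ℝ) : ℂ) * Complex.I)) ξ‖ₑ ^ p ≤ C := by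
  obtain ⟨R, a, b, c, h⟩ := quad_diag P hP
  have h1 : (fun x : E n => Complex.exp
      (((MvPolynomial.eval (fun i => x i) P : ℝ) : ℂ) * Complex.I)) =
      fun x : E n => Complex.exp (((inner ℝ x b + c : ℝ) : ℂ) * Complex.I) *
        Complex.exp (((∑ j, a j * (R x) j ^ 2 : ℝ) : ℂ) * Complex.I) := by
    funext x
    rw [h x, ← Complex.exp_add]
    congr 1
    push_cast
    ring
  rw [h1, VAN.lint_mod]
  have h2 : ∀ ξ : E n, extn (fun x => Complex.exp (((∑ j, a j * (R x) j ^ 2 : ℝ) : ℂ) *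
      Complex.I)) ξ = extn (fun x => Complex.exp (((∑ j, a j * x j ^ 2 : ℝ) : ℂ) *
      Complex.I)) (R ξ) := fun ξ =>
    extn_isometry (fun x : E n => Complex.exp (((∑ j, a j * x j ^ 2 : ℝ) : ℂ) * Complex.I)) R ξ
  simp_rw [h2]
  have h3 := R.measurePreserving.lintegral_comp_emb R.toHomeomorph.measurableEmbedding
    (fun ξ => ‖extn (fun x => Complex.exp (((∑ j, a j * x j ^ 2 : ℝ) : ℂ) *
      Complex.I)) ξ‖ₑ ^ p)
  calc _ = _ := h3
    _ ≤ C := H a

/-- ROW H in abstract form. -/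
theorem quad_bound_of (n : ℕ) (p : ℝ) (hp : 0 ≤ p)
    (hR0 : ∃ c : ℂ, ∀ (a : Fin n → ℝ) (ξ : E n),
      extn (fun x => Complex.exp (((∑ j, a j * x j ^ 2 : ℝ) : ℂ) * Complex.I)) ξ =
        c * ∫ t : ℝ, GG a ((2 * π) • ξ) t)
    (hD : ∃ C : ℝ≥0∞, C ≠ ∞ ∧ ∀ a : Fin n → ℝ, ∫⁻ y : E n, ‖∫ t : ℝ, GG a y t‖ₑ ^ p ≤ C) :
    ∃ C : ℝ≥0∞, C ≠ ∞ ∧ ∀ P : MvPolynomial (Fin n) ℝ, P.totalDegree ≤ 2 →
      ∫⁻ ξ : E n, ‖extn (fun x => Complex.exp
        (((MvPolynomial.eval (fun i => x i) P : ℝ) : ℂ) * Complex.I)) ξ‖ₑ ^ p ≤ C := by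
  obtain ⟨c, hc⟩ := hR0
  obtain ⟨C, hC, H⟩ := hD
  have h2pi : (2 * π : ℝ) ≠ 0 := by positivity
  refine ⟨‖c‖ₑ ^ p * (ENNReal.ofReal |((2 * π) ^ n)⁻¹| * C), ?_, fun P hP => ?_⟩
  · exact ENNReal.mul_ne_top (ENNReal.rpow_ne_top_of_nonneg hp enorm_ne_top)
      (ENNReal.mul_ne_top ENNReal.ofReal_ne_top hC)
  refine quad_of_diag p _ (fun a => ?_) P hP
  simp_rw [hc a, enorm_mul, ENNReal.mul_rpow_of_nonneg _ _ hp]
  rw [lintegral_const_mul' _ _ (ENNReal.rpow_ne_top_of_nonneg hp enorm_ne_top)]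
  gcongr
  have h4 := (Homeomorph.smulOfNeZero (2 * π : ℝ) h2pi
    (α := E n)).measurableEmbedding.lintegral_map (μ := volume)
    (fun y => ‖∫ t : ℝ, GG a y t‖ₑ ^ p)
  have h5 : Measure.map (⇑(Homeomorph.smulOfNeZero (2 * π : ℝ) h2pi (α := E n)))
      (volume : Measure (E n)) = ENNReal.ofReal |((2 * π) ^ n)⁻¹| • volume := by
    have := Measure.map_addHaar_smul (volume : Measure (E n)) h2pi
    simpa using this
  rw [h5, lintegral_smul_measure] at h4
  calc _ = _ := h4.symm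
    _ ≤ _ := by
      rw [smul_eq_mul]
      gcongr
      exact H a

end Pool.Agent.QPH
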