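import Pool.Agent.VAN.H2
import Pool.Agent.PPH.B1a
import Pool.Agent.MP_6cbfb8_an.Sphere
import Pool.Agent.QPH.Defs

/-!
Sublevel sets of analytic families on the unit sphere of `R^n` (rotations, nonflatness,
compactness), and the family of the monomials of degree at most two.
-/

namespace Pool.Agent.QPH.I

open MeasureTheory Set Pool.Agent.MP_6cbfb8_an Filter Topology
open scoped ENNReal Real

variable {dm : ℕ}

/-- Orthonormal pairs. -/
def ON (q : E dm × E dm) : Prop := ‖q.1‖ = 1 ∧ ‖q.2‖ = 1 ∧ inner ℝ q.1 q.2 = 0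

/-- The rotation by the angle `t` in the plane of `q.1, q.2`. -/
noncomputable def rot (q : E dm × E dm) (t : ℝ) (x : E dm) : E dm :=
  x + ((Real.cos t - 1) * inner ℝ q.1 x - Real.sin t * inner ℝ q.2 x) • q.1 +
    (Real.sin t * inner ℝ q.1 x + (Real.cos t - 1) * inner ℝ q.2 x) • q.2

/-- The generator. -/
noncomputable def gen (q : E dm × E dm) (x : E dm) : E dm :=
  (inner ℝ q.1 x : ℝ) • q.2 - (inner ℝ q.2 x : ℝ) • q.1

lemma rot_zero (q : E dm × E dm) (x : E dm) : rot q 0 x = x := by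
  simp [rot]

lemma inner1 {q : E dm × E dm} (hq : ON q) (t : ℝ) (x : E dm) :
    inner ℝ q.1 (rot q t x) = Real.cos t * inner ℝ q.1 x - Real.sin t * inner ℝ q.2 x := by
  obtain ⟨h1, h2, h3⟩ := hq
  unfold rot
  rw [inner_add_right, inner_add_right, real_inner_smul_right, real_inner_smul_right,
    real_inner_self_eq_norm_sq, h1, h3]
  ring

lemma inner2 {q : E dm × E dm} (hq : ON q) (t : ℝ) (x : E dm) :
    inner ℝ q.2 (rot q t x) = Real.sin t * inner ℝ q.1 x + Real.cos t * inner ℝ q.2 x := by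
  obtain ⟨h1, h2, h3⟩ := hq
  unfold rot
  rw [inner_add_right, inner_add_right, real_inner_smul_right, real_inner_smul_right,
    real_inner_self_eq_norm_sq, h2, real_inner_comm q.1 q.2, h3]
  ring

lemma rot_norm {q : E dm × E dm} (hq : ON q) (t : ℝ) (x : E dm) : ‖rot q t x‖ = ‖x‖ := by
  have hq' := hq
  obtain ⟨h1, h2, h3⟩ := hq
  have h3' : inner ℝ q.2 q.1 = 0 := by rw [real_inner_comm, h3]
  have e : inner ℝ (rot q t x) (rot q t x) = inner ℝ x x := by
    unfold rot
    simp only [inner_add_left, inner_add_right, real_inner_smul_left, real_inner_smul_right,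
      real_inner_self_eq_norm_sq q.1, real_inner_self_eq_norm_sq q.2, h1, h2, h3, h3',
      real_inner_comm x q.1, real_inner_comm x q.2]
    have hs := Real.sin_sq_add_cos_sq t
    have hs' : Real.sin t ^ 2 = 1 - Real.cos t ^ 2 := by linarith
    ring_nf
    rw [hs']
    ring
  rw [real_inner_self_eq_norm_sq, real_inner_self_eq_norm_sq] at e
  nlinarith [norm_nonneg (rot q t x), norm_nonneg x, sq_nonneg (‖rot q t x‖ - ‖x‖)]

lemma rot_add {q : E dm × E dm} (hq : ON q) (s t : ℝ) (x : E dm) :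
    rot q s (rot q t x) = rot q (s + t) x := by
  have e : rot q s (rot q t x) = rot q t x +
      ((Real.cos s - 1) * inner ℝ q.1 (rot q t x) - Real.sin s * inner ℝ q.2 (rot q t x)) • q.1 +
      (Real.sin s * inner ℝ q.1 (rot q t x) + (Real.cos s - 1) * inner ℝ q.2 (rot q t x)) • q.2 :=
    rfl
  rw [e, inner1 hq, inner2 hq]
  unfold rot
  rw [Real.cos_add, Real.sin_add]
  module

/-- the rotation as a linear isometry -/
noncomputable def rotL {q : E dm × E dm} (hq : ON q) (t : ℝ) : E dm ≃ₗᵢ[ℝ] E dm where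
  toFun := rot q t
  invFun := rot q (-t)
  map_add' x y := by
    unfold rot
    rw [inner_add_right, inner_add_right]
    module
  map_smul' c x := by
    unfold rot
    rw [real_inner_smul_right, real_inner_smul_right, RingHom.id_apply]
    module
  left_inv x := by
    show rot q (-t) (rot q t x) = x
    rw [rot_add hq, neg_add_cancel, rot_zero]
  right_inv x := by
    show rot q t (rot q (-t) x) = x
    rw [rot_add hq, add_neg_cancel, rot_zero]
  norm_map' x := rot_norm hq t x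

@[simp] lemma rotL_apply {q : E dm × E dm} (hq : ON q) (t : ℝ) (x : E dm) :
    rotL hq t x = rot q t x := rfl

lemma rot_mem {q : E dm × E dm} (hq : ON q) (t : ℝ) {x : E dm} (hx : x ∈ S dm) : rot q t x ∈ S dm := by
  rw [mem_sphere_zero_iff_norm] at hx ⊢
  rw [rot_norm hq, hx]

lemma hasDerivAt_rot {q : E dm × E dm} (hq : ON q) (t : ℝ) (x : E dm) :
    HasDerivAt (fun t => rot q t x) (gen q (rot q t x)) t := by
  have hc := Real.hasDerivAt_cos t
  have hs := Real.hasDerivAt_sin t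
  have h1 : HasDerivAt (fun t => (Real.cos t - 1) * inner ℝ q.1 x - Real.sin t * inner ℝ q.2 x)
      (-Real.sin t * inner ℝ q.1 x - Real.cos t * inner ℝ q.2 x) t :=
    ((hc.sub_const 1).mul_const _).sub (hs.mul_const _)
  have h2 : HasDerivAt (fun t => Real.sin t * inner ℝ q.1 x + (Real.cos t - 1) * inner ℝ q.2 x)
      (Real.cos t * inner ℝ q.1 x + -Real.sin t * inner ℝ q.2 x) t :=
    (hs.mul_const _).add ((hc.sub_const 1).mul_const _)
  have h3 := (((hasDerivAt_const t x).add (h1.smul_const q.1)).add (h2.smul_const q.2))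
  refine h3.congr_deriv ?_
  unfold gen
  rw [inner1 hq, inner2 hq]
  module

lemma continuous_rot (q : E dm × E dm) : Continuous fun p : ℝ × E dm => rot q p.1 p.2 := by
  unfold rot
  fun_prop

lemma contDiff_rot (q : E dm × E dm) (x : E dm) (n : WithTop ℕ∞) : ContDiff ℝ n fun t => rot q t x := by
  unfold rot
  exact ((contDiff_const.add ((((Real.contDiff_cos.sub contDiff_const).mul contDiff_const).sub
    (Real.contDiff_sin.mul contDiff_const)).smul contDiff_const)).add
    (((Real.contDiff_sin.mul contDiff_const).add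
      ((Real.contDiff_cos.sub contDiff_const).mul contDiff_const)).smul contDiff_const))

lemma norm_gen_le {q : E dm × E dm} (hq : ON q) (x : E dm) : ‖gen q x‖ ≤ 2 * ‖x‖ := by
  obtain ⟨h1, h2, h3⟩ := hq
  unfold gen
  have e1 : ‖(inner ℝ q.1 x : ℝ) • q.2‖ ≤ ‖x‖ := by
    rw [norm_smul, h2, mul_one, Real.norm_eq_abs]
    have := abs_real_inner_le_norm q.1 x
    rwa [h1, one_mul] at this
  have e2 : ‖(inner ℝ q.2 x : ℝ) • q.1‖ ≤ ‖x‖ := by
    rw [norm_smul, h1, mul_one, Real.norm_eq_abs]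
    have := abs_real_inner_le_norm q.2 x
    rwa [h2, one_mul] at this
  have e3 := norm_sub_le ((inner ℝ q.1 x : ℝ) • q.2) ((inner ℝ q.2 x : ℝ) • q.1)
  linarith

/-- two points on a rotation orbit starting at a point of the sphere are close -/
lemma dist_rot_le {q : E dm × E dm} (hq : ON q) {x : E dm} (hx : x ∈ S dm) (s t : ℝ) :
    dist (rot q s x) (rot q t x) ≤ 2 * |s - t| := by
  rw [dist_eq_norm]
  have h := Convex.norm_image_sub_le_of_norm_hasDerivWithin_le (𝕜 := ℝ)
    (f := fun t => rot q t x) (f' := fun t => gen q (rot q t x)) (s := univ) (x := t) (y := s)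
    (C := 2) (fun r _ => (hasDerivAt_rot hq r x).hasDerivWithinAt) (fun r _ => by
      refine (norm_gen_le hq _).trans ?_
      rw [rot_norm hq]
      have : ‖x‖ = 1 := by simpa using hx
      rw [this, mul_one]) convex_univ (mem_univ _) (mem_univ _)
  simpa using h

/-- any two points of the sphere lie on a common orbit starting at the first -/
lemma exists_rot (hdm : 2 ≤ dm) {x y : E dm} (hx : x ∈ S dm) (hy : y ∈ S dm) :
    ∃ q : E dm × E dm, ON q ∧ ∃ s : ℝ, rot q s x = y := by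
  have hx1 : ‖x‖ = 1 := by simpa using hx
  have hy1 : ‖y‖ = 1 := by simpa using hy
  -- the component of `y` orthogonal to `x`
  set c : ℝ := inner ℝ x y with hc
  set z : E dm := y - c • x with hz
  have hzx : inner ℝ x z = 0 := by
    rw [hz, inner_sub_right, real_inner_smul_right, real_inner_self_eq_norm_sq, hx1]
    ring
  have hzz : ‖z‖ ^ 2 = 1 - c ^ 2 := by
    rw [← real_inner_self_eq_norm_sq, hz]
    simp only [inner_sub_left, inner_sub_right, real_inner_smul_left, real_inner_smul_right]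
    rw [real_inner_self_eq_norm_sq, real_inner_self_eq_norm_sq, hx1, hy1, real_inner_comm x y, ← hc]
    ring
  have hformula : ∀ f : E dm, inner ℝ x f = 0 → ‖f‖ = 1 → ∀ s : ℝ,
      rot (x, f) s x = Real.cos s • x + Real.sin s • f := by
    intro f hf _ s
    unfold rot
    simp only
    rw [real_inner_self_eq_norm_sq, hx1, real_inner_comm, hf]
    module
  by_cases h0 : z = 0
  · -- `y = ± x`
    have hyc : y = c • x := by
      have : y - c • x = 0 := h0
      exact sub_eq_zero.1 this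
    have hc2 : c ^ 2 = 1 := by
      rw [h0, norm_zero] at hzz
      linarith
    -- some vector orthogonal to `x`
    obtain ⟨f, hf1, hf2⟩ : ∃ f : E dm, ‖f‖ = 1 ∧ inner ℝ x f = 0 := by
      have hfin : 1 ≤ Module.finrank ℝ (ℝ ∙ x)ᗮ := by
        have h1 := Submodule.finrank_add_finrank_orthogonal (ℝ ∙ x : Submodule ℝ (E dm))
        have h2 : Module.finrank ℝ (ℝ ∙ x : Submodule ℝ (E dm)) = 1 :=
          finrank_span_singleton (by
            rintro rfl
            simp at hx1)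
        have h3 : Module.finrank ℝ (E dm) = dm := by simp
        omega
      have : Nontrivial (ℝ ∙ x : Submodule ℝ (E dm))ᗮ :=
        Module.nontrivial_of_finrank_pos (R := ℝ) (by omega)
      obtain ⟨g, hg⟩ := exists_ne (0 : (ℝ ∙ x : Submodule ℝ (E dm))ᗮ)
      have hg0 : (g : E dm) ≠ 0 := by
        intro h
        exact hg (Subtype.ext h)
      refine ⟨‖(g : E dm)‖⁻¹ • (g : E dm), norm_smul_inv_norm hg0, ?_⟩
      rw [real_inner_smul_right, Submodule.mem_orthogonal_singleton_iff_inner_right.1 g.2, mul_zero]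
    refine ⟨(x, f), ⟨hx1, hf1, hf2⟩, ?_⟩
    rcases sq_eq_one_iff.1 hc2 with h | h
    · refine ⟨0, ?_⟩
      rw [rot_zero, hyc, h, one_smul]
    · refine ⟨π, ?_⟩
      rw [hformula f hf2 hf1, Real.cos_pi, Real.sin_pi, hyc, h]
      module
  · have hn : 0 < ‖z‖ := norm_pos_iff.2 h0
    set f : E dm := ‖z‖⁻¹ • z with hf
    have hf1 : ‖f‖ = 1 := norm_smul_inv_norm h0
    have hf2 : inner ℝ x f = 0 := by rw [hf, real_inner_smul_right, hzx, mul_zero]
    refine ⟨(x, f), ⟨hx1, hf1, hf2⟩, ?_⟩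
    have hc1 : -1 ≤ c ∧ c ≤ 1 := by
      have : c ^ 2 ≤ 1 := by nlinarith [sq_nonneg ‖z‖]
      exact abs_le.1 (by nlinarith [abs_nonneg c, sq_abs c])
    refine ⟨Real.arccos c, ?_⟩
    rw [hformula f hf2 hf1, Real.cos_arccos hc1.1 hc1.2, Real.sin_arccos, ← hzz,
      Real.sqrt_sq hn.le, hf, smul_smul, mul_inv_cancel₀ hn.ne', one_smul, hz]
    module

/-- the rotation as a map of the sphere -/
noncomputable def rotS {q : E dm × E dm} (hq : ON q) (t : ℝ) (x : S dm) : S dm :=
  ⟨rot q t x, rot_mem hq t x.2⟩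

lemma rotS_coe {q : E dm × E dm} (hq : ON q) (t : ℝ) (x : S dm) : (rotS hq t x : E dm) = rot q t x := rfl

lemma rotS_mp {q : E dm × E dm} (hq : ON q) (t : ℝ) : MeasurePreserving (rotS hq t) (sm dm) (sm dm) :=
  measurePreserving_isometry (rotL hq t)

lemma continuous_rotS {q : E dm × E dm} (hq : ON q) :
    Continuous fun p : ℝ × S dm => rotS hq p.1 p.2 := by
  refine Continuous.subtype_mk ?_ _
  exact (continuous_rot q).comp (continuous_fst.prodMk (continuous_subtype_val.comp continuous_snd))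

/-- invariance of the surface measure, averaged over the angle -/
lemma lintegral_avg {q : E dm × E dm} (hq : ON q) (T : ℝ) (F : S dm → ℝ≥0∞)
    (hF : Measurable F) :
    ENNReal.ofReal T * ∫⁻ x, F x ∂(sm dm) =
      ∫⁻ x : S dm, (∫⁻ t in Icc 0 T, F (rotS hq t x)) ∂(sm dm) := by
  have h1 : ∀ t : ℝ, ∫⁻ x, F (rotS hq t x) ∂(sm dm) = ∫⁻ x, F x ∂(sm dm) := fun t =>
    (rotS_mp hq t).lintegral_comp hF
  have hm : Measurable (fun p : S dm × ℝ => F (rotS hq p.2 p.1)) :=
    hF.comp ((continuous_rotS hq).measurable.comp (measurable_snd.prodMk measurable_fst))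
  rw [lintegral_lintegral_swap hm.aemeasurable]
  simp_rw [h1]
  rw [setLIntegral_const, Real.volume_Icc, sub_zero, mul_comm]

/-- Smooth near the sphere. -/
def Sm (f : E dm → ℝ) : Prop := ∀ x ∈ S dm, ContDiffAt ℝ ((⊤ : ℕ∞) : WithTop ℕ∞) f x

/-- The derivative along the rotation in the plane of `q`. -/
noncomputable def dR (q : E dm × E dm) (f : E dm → ℝ) (x : E dm) : ℝ := fderiv ℝ f x (gen q x)

lemma dR_eq (q : E dm × E dm) (f : E dm → ℝ) (x : E dm) :
    dR q f x = inner ℝ q.1 x * fderiv ℝ f x q.2 - inner ℝ q.2 x * fderiv ℝ f x q.1 := by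
  unfold dR gen
  rw [map_sub, map_smul, map_smul, smul_eq_mul, smul_eq_mul]

lemma Sm.dR {f : E dm → ℝ} (hf : Sm f) (q : E dm × E dm) : Sm (dR q f) := by
  intro x hx
  have h1 : ContDiffAt ℝ ((⊤ : ℕ∞) : WithTop ℕ∞) (fderiv ℝ f) x :=
    (hf x hx).fderiv_right (m := ((⊤ : ℕ∞) : WithTop ℕ∞)) (by
      exact_mod_cast (le_refl (⊤ : ℕ∞)))
  have h2 : ContDiffAt ℝ ((⊤ : ℕ∞) : WithTop ℕ∞) (gen q) x := by
    have : ContDiff ℝ ((⊤ : ℕ∞) : WithTop ℕ∞) (gen q) := by
      unfold gen
      exact ((contDiff_const.inner ℝ contDiff_id).smul contDiff_const).sub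
        ((contDiff_const.inner ℝ contDiff_id).smul contDiff_const)
    exact this.contDiffAt
  exact h1.clm_apply h2

lemma Sm.iter {f : E dm → ℝ} (hf : Sm f) (q : E dm × E dm) (j : ℕ) : Sm ((_root_.Pool.Agent.QPH.I.dR q)^[j] f) := by
  induction j with
  | zero => exact hf
  | succ j ih =>
    rw [Function.iterate_succ_apply']
    exact ih.dR q

lemma Sm.continuousOn {f : E dm → ℝ} (hf : Sm f) : ContinuousOn f (S dm) :=
  fun x hx => (hf x hx).continuousAt.continuousWithinAt

lemma Sm.of_analytic {f : E dm → ℝ} (hf : AnalyticOnNhd ℝ f (S dm)) : Sm f :=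
  fun x hx => (hf x hx).contDiffAt

/-- the chain rule along the orbit -/
lemma Sm.hasDerivAt {f : E dm → ℝ} (hf : Sm f) {q : E dm × E dm} (hq : ON q) {x : E dm} (hx : x ∈ S dm)
    (j : ℕ) (t : ℝ) :
    HasDerivAt (fun t => (_root_.Pool.Agent.QPH.I.dR q)^[j] f (rot q t x)) ((_root_.Pool.Agent.QPH.I.dR q)^[j + 1] f (rot q t x)) t := by
  have h1 : ContDiffAt ℝ ((⊤ : ℕ∞) : WithTop ℕ∞) ((_root_.Pool.Agent.QPH.I.dR q)^[j] f) (rot q t x) :=
    (hf.iter q j) _ (rot_mem hq t hx)
  have h2 : DifferentiableAt ℝ ((_root_.Pool.Agent.QPH.I.dR q)^[j] f) (rot q t x) :=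
    h1.differentiableAt (by simp)
  have h3 := h2.hasFDerivAt.comp_hasDerivAt t (hasDerivAt_rot hq t x)
  rw [Function.iterate_succ_apply']
  exact h3

/-- a real analytic function of one variable with vanishing derivatives at a point is constant -/
lemma analytic_const {g : ℝ → ℝ} (hg : AnalyticOnNhd ℝ g univ)
    (h : ∀ j, 1 ≤ j → iteratedDeriv j g 0 = 0) (t : ℝ) : g t = g 0 := by
  have h1 : AnalyticAt ℝ (fun t => g t - g 0) 0 := (hg 0 (mem_univ _)).sub analyticAt_const
  have h2 : analyticOrderAt (fun t => g t - g 0) 0 = ⊤ := by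
    rw [ENat.eq_top_iff_forall_ge]
    intro n
    rw [natCast_le_analyticOrderAt_iff_iteratedDeriv_eq_zero h1]
    intro i _
    rcases Nat.eq_zero_or_pos i with rfl | hi
    · simp
    · rw [iteratedDeriv_fun_sub (hg 0 (mem_univ _)).contDiffAt contDiffAt_const, h i hi,
        iteratedDeriv_const]
      simp [hi.ne']
  rw [analyticOrderAt_eq_top] at h2
  have h3 : AnalyticOnNhd ℝ (fun t => g t - g 0) univ := hg.sub analyticOnNhd_const
  have h4 := h3.eq_of_eventuallyEq (g := fun _ => (0:ℝ)) analyticOnNhd_const h2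
  have h5 := congrFun h4 t
  exact sub_eq_zero.1 h5

/-- the analytic function along the orbit -/
lemma analytic_orbit {f : E dm → ℝ} (hf : AnalyticOnNhd ℝ f (S dm)) {q : E dm × E dm} (hq : ON q)
    {x : E dm} (hx : x ∈ S dm) : AnalyticOnNhd ℝ (fun t => f (rot q t x)) univ := by
  intro t _
  have h1 : AnalyticAt ℝ (fun t => rot q t x) t := by
    have := (contDiff_rot q x ⊤).contDiffAt (x := t)
    exact this.analyticAt
  exact AnalyticAt.fun_comp (g := f) (f := fun t => rot q t x) (x := t)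
    (hf _ (rot_mem hq t hx)) h1

lemma iteratedDeriv_chain {h : ℕ → ℝ → ℝ} (hd : ∀ j t, HasDerivAt (h j) (h (j + 1) t) t) (j : ℕ) :
    iteratedDeriv j (h 0) = h j := by
  induction j with
  | zero => exact iteratedDeriv_zero
  | succ j ih =>
    rw [iteratedDeriv_succ, ih]
    funext t
    exact (hd j t).deriv

variable {ι : Type} [Fintype ι]

/-- the derivative of order `j` of the combination -/
noncomputable def cmb (f : ι → E dm → ℝ) (q : E dm × E dm) (j : ℕ) (a : ι → ℝ) (x : E dm) : ℝ :=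
  ∑ i, a i * (_root_.Pool.Agent.QPH.I.dR q)^[j] (f i) x

lemma cmb_smul (f : ι → E dm → ℝ) (q : E dm × E dm) (j : ℕ) (r : ℝ) (a : ι → ℝ) (x : E dm) :
    cmb f q j (r • a) x = r * cmb f q j a x := by
  unfold cmb
  rw [Finset.mul_sum]
  refine Finset.sum_congr rfl fun i _ => ?_
  rw [Pi.smul_apply, smul_eq_mul, mul_assoc]

lemma hasDerivAt_cmb {f : ι → E dm → ℝ} (hf : ∀ i, Sm (f i)) {q : E dm × E dm} (hq : ON q)
    (a : ι → ℝ) {x : E dm} (hx : x ∈ S dm) (j : ℕ) (t : ℝ) :
    HasDerivAt (fun t => cmb f q j a (rot q t x)) (cmb f q (j + 1) a (rot q t x)) t := by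
  unfold cmb
  refine HasDerivAt.fun_sum fun i _ => ?_
  exact ((hf i).hasDerivAt hq hx j t).const_mul (a i)

/-- nonflatness -/
theorem nonflat (hdm : 2 ≤ dm) {f : ι → E dm → ℝ} (hf : ∀ i, AnalyticOnNhd ℝ (f i) (S dm)) (a : ι → ℝ)
    {x : E dm} (hx : x ∈ S dm) (h : ∀ q, ON q → ∀ j, 1 ≤ j → cmb f q j a x = 0)
    {y : E dm} (hy : y ∈ S dm) : ∑ i, a i * f i y = ∑ i, a i * f i x := by
  obtain ⟨q, hq, s, hs⟩ := exists_rot hdm hx hy
  have hsm : ∀ i, Sm (f i) := fun i => Sm.of_analytic (hf i)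
  have h1 : AnalyticOnNhd ℝ (fun t => cmb f q 0 a (rot q t x)) univ := by
    unfold cmb
    refine Finset.analyticOnNhd_fun_sum _ fun i _ => ?_
    exact analyticOnNhd_const.mul (analytic_orbit (hf i) hq hx)
  have h2 := analytic_const h1 (fun j hj => by
    have h3 := iteratedDeriv_chain (h := fun j t => cmb f q j a (rot q t x))
      (fun j t => hasDerivAt_cmb hsm hq a hx j t) j
    rw [h3]
    simp only
    rw [rot_zero]
    exact h q hq j hj) s
  simp only [rot_zero, hs] at h2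
  exact h2

/-- continuity -/
lemma continuous_cmb {f : ι → E dm → ℝ} (hf : ∀ i, Sm (f i)) (q : E dm × E dm) (j : ℕ) :
    Continuous fun p : (ι → ℝ) × S dm => cmb f q j p.1 p.2 := by
  unfold cmb
  refine continuous_finsetSum _ fun i _ => ?_
  have h1 : Continuous fun x : S dm => (_root_.Pool.Agent.QPH.I.dR q)^[j] (f i) x :=
    continuousOn_iff_continuous_domRestrict.1 ((hf i).iter q j).continuousOn
  exact ((continuous_apply i).comp continuous_fst).mul (h1.comp continuous_snd)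

/-- compactness: for a family such that at every point some derivative of order in `J` does not
vanish, there are finitely many rotations and orders which suffice, uniformly. -/
theorem compactness {f : ι → E dm → ℝ} (hf : ∀ i, Sm (f i)) (J : Set ℕ)
    (h : ∀ a : ι → ℝ, ‖a‖ = 1 → ∀ x ∈ S dm, ∃ q, ON q ∧ ∃ j ∈ J, cmb f q j a x ≠ 0) :
    ∃ (Q : Finset ((E dm × E dm) × ℕ)) (c δ : ℝ), (∀ p ∈ Q, ON p.1 ∧ p.2 ∈ J) ∧ 0 < c ∧ 0 < δ ∧
      ∀ (a : ι → ℝ), ∀ x ∈ S dm, a ≠ 0 → ∃ p ∈ Q, ∀ y ∈ S dm, dist y x < δ →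
        c * ‖a‖ ≤ |cmb f p.1 p.2 a y| := by
  classical
  let K := (Metric.sphere (0 : ι → ℝ) 1) × S dm
  let I := {p : (E dm × E dm) × ℕ // ON p.1 ∧ p.2 ∈ J} × ℕ
  let U : I → Set K := fun p => {z | 1 / ((p.2 : ℝ) + 1) < |cmb f p.1.1.1 p.1.1.2 z.1 z.2|}
  have hcont : ∀ p : (E dm × E dm) × ℕ, Continuous fun z : K => cmb f p.1 p.2 z.1 z.2 := by
    intro p
    have h1 := continuous_cmb hf p.1 p.2
    exact h1.comp ((continuous_subtype_val.comp continuous_fst).prodMk continuous_snd)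
  have hU : ∀ p, IsOpen (U p) := fun p => isOpen_lt continuous_const (hcont p.1.1).abs
  have hcov : (univ : Set K) ⊆ ⋃ p, U p := by
    rintro ⟨a, x⟩ _
    have ha : ‖(a : ι → ℝ)‖ = 1 := mem_sphere_zero_iff_norm.1 a.2
    obtain ⟨q, hq, j, hj, hne⟩ := h a ha x x.2
    obtain ⟨n, hn⟩ := exists_nat_one_div_lt (abs_pos.2 hne)
    rw [mem_iUnion]
    exact ⟨(⟨(q, j), hq, hj⟩, n), hn⟩
  obtain ⟨t, ht⟩ := isCompact_univ.elim_finite_subcover U hU hcov
  obtain ⟨δ, hδ, hL⟩ := lebesgue_number_lemma_of_metric (s := (univ : Set K))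
    (c := fun p : t => U p.1) isCompact_univ (fun p => hU p.1) (by
      intro z hz
      have := ht hz
      simp only [mem_iUnion] at this ⊢
      obtain ⟨p, hp, hz⟩ := this
      exact ⟨⟨p, hp⟩, hz⟩)
  -- the constants
  obtain ⟨N, hN⟩ : ∃ N : ℕ, ∀ p ∈ t, p.2 ≤ N := by
    refine ⟨t.sup (fun p => p.2), fun p hp => Finset.le_sup (f := fun p : I => p.2) hp⟩
  refine ⟨t.image fun p => p.1.1, 1 / ((N : ℝ) + 1), δ, ?_, by positivity, hδ, ?_⟩
  · intro p hp
    rw [Finset.mem_image] at hp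
    obtain ⟨r, _, rfl⟩ := hp
    exact r.1.2
  · intro a x hx ha
    have hn : 0 < ‖a‖ := norm_pos_iff.2 ha
    have ha1 : ‖a‖⁻¹ • a ∈ Metric.sphere (0 : ι → ℝ) 1 := by
      rw [mem_sphere_zero_iff_norm, norm_smul, norm_inv, norm_norm, inv_mul_cancel₀ hn.ne']
    obtain ⟨p, hp⟩ := hL (⟨‖a‖⁻¹ • a, ha1⟩, ⟨x, hx⟩) (mem_univ _)
    refine ⟨p.1.1.1, Finset.mem_image_of_mem _ p.2, fun y hy hyx => ?_⟩
    have h1 : ((⟨‖a‖⁻¹ • a, ha1⟩, ⟨y, hy⟩) : K) ∈ Metric.ball ((⟨‖a‖⁻¹ • a, ha1⟩, ⟨x, hx⟩) : K) δ := by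
      rw [Metric.mem_ball, Prod.dist_eq]
      refine max_lt ?_ ?_
      · rw [dist_self]; exact hδ
      · exact hyx
    have h2 := hp h1
    have h3 : 1 / ((p.1.2 : ℝ) + 1) < |cmb f p.1.1.1.1 p.1.1.1.2 (‖a‖⁻¹ • a) y| := h2
    rw [cmb_smul, abs_mul, abs_of_pos (inv_pos.2 hn), inv_mul_eq_div, lt_div_iff₀ hn] at h3
    refine le_trans ?_ h3.le
    apply mul_le_mul_of_nonneg_right _ hn.le
    apply one_div_le_one_div_of_le (by positivity)
    have := hN p.1 p.2
    have : (p.1.2 : ℝ) ≤ N := by exact_mod_cast this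
    linarith

/-- a smooth partition of unity on the sphere -/
theorem partition {δ : ℝ} (hδ : 0 < δ) : ∃ (n : ℕ) (x : Fin n → E dm) (χ : Fin n → E dm → ℝ),
    (∀ i, x i ∈ S dm) ∧ (∀ i, Sm (χ i)) ∧ (∀ i, ∀ y, χ i y ≠ 0 → dist y (x i) < δ) ∧
    ∀ y ∈ S dm, ∑ i, χ i y = 1 := by
  classical
  obtain ⟨t, htS, ht⟩ := (isCompact_sphere (0 : E dm) 1).elim_nhds_subcover
    (fun x => Metric.ball x δ) (fun x _ => Metric.ball_mem_nhds x hδ)
  let e := t.equivFin
  let x : Fin t.card → E dm := fun i => (e.symm i : E dm)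
  let b : Fin t.card → E dm → ℝ := fun i y => Real.smoothTransition (δ ^ 2 - ‖y - x i‖ ^ 2)
  let B : E dm → ℝ := fun y => ∑ i, b i y
  have hb0 : ∀ i y, 0 ≤ b i y := fun i y => Real.smoothTransition.nonneg _
  have hbc : ∀ i, ContDiff ℝ ((⊤ : ℕ∞) : WithTop ℕ∞) (b i) := by
    intro i
    have h1 : ContDiff ℝ ((⊤ : ℕ∞) : WithTop ℕ∞) fun y : E dm => δ ^ 2 - ‖y - x i‖ ^ 2 :=
      contDiff_const.sub ((contDiff_id.sub contDiff_const).norm_sq ℝ)
    exact Real.smoothTransition.contDiff.comp h1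
  have hBpos : ∀ y ∈ S dm, 0 < B y := by
    intro y hy
    have h1 := ht hy
    simp only [mem_iUnion] at h1
    obtain ⟨z, hz, hyz⟩ := h1
    refine Finset.sum_pos' (fun i _ => hb0 i y) ⟨e ⟨z, hz⟩, Finset.mem_univ _, ?_⟩
    apply Real.smoothTransition.pos_of_pos
    have h2 : x (e ⟨z, hz⟩) = z := by simp [x]
    rw [h2]
    have h3 : ‖y - z‖ < δ := by rwa [← dist_eq_norm]
    nlinarith [norm_nonneg (y - z)]
  refine ⟨t.card, x, fun i y => b i y / B y, fun i => htS _ (e.symm i).2, ?_, ?_, ?_⟩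
  · intro i y hy
    have h1 : ContDiffAt ℝ ((⊤ : ℕ∞) : WithTop ℕ∞) B y :=
      (ContDiff.sum fun i _ => hbc i).contDiffAt
    exact (hbc i).contDiffAt.div h1 (hBpos y hy).ne'
  · intro i y hy
    by_contra hcon
    apply hy
    have h1 : δ ≤ ‖y - x i‖ := by rw [← dist_eq_norm]; exact not_lt.1 hcon
    have h2 : b i y = 0 := Real.smoothTransition.zero_of_nonpos (by nlinarith)
    show b i y / B y = 0
    rw [h2, zero_div]
  · intro y hy
    show ∑ i, b i y / B y = 1
    rw [← Finset.sum_div]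
    exact div_self (hBpos y hy).ne'

/-- one patch -/
theorem sub_patch {f : ι → E dm → ℝ} (hf : ∀ i, Sm (f i)) {q : E dm × E dm} (hq : ON q) (k : ℕ)
    (x0 : E dm) {δ : ℝ} (hδ : 0 < δ) : ∃ C : ℝ, 0 ≤ C ∧ ∀ (a : ι → ℝ) (lam e : ℝ), 0 < lam → 0 < e →
      (∀ y ∈ S dm, dist y x0 < δ → lam ≤ |cmb f q (k + 1) a y|) →
      (sm dm) {x : S dm | dist (x : E dm) x0 < δ / 2 ∧ |cmb f q 0 a x| ≤ e} ≤
        ENNReal.ofReal (C * (e / lam) ^ (1 / ((k + 1 : ℕ):ℝ))) := by
  obtain ⟨K, hK, hsub⟩ := PPH.b1a_pos k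
  set T : ℝ := δ / 4 with hT
  have hT0 : 0 < T := by positivity
  set σ : ℝ := (sm dm).real univ with hσ
  have hσ0 : 0 ≤ σ := measureReal_nonneg
  refine ⟨K * σ / T, by positivity, ?_⟩
  intro a lam e hlam he h
  have hcc : Continuous fun x : S dm => cmb f q 0 a x :=
    (continuous_cmb hf q 0).comp (continuous_const.prodMk continuous_id)
  set G : Set (S dm) := {x : S dm | dist (x : E dm) x0 < δ / 2 ∧ |cmb f q 0 a x| ≤ e} with hG
  have hGm : MeasurableSet G := by
    refine MeasurableSet.inter ?_ ?_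
    · exact (isOpen_lt (continuous_subtype_val.dist continuous_const) continuous_const).measurableSet
    · exact (isClosed_le hcc.abs continuous_const).measurableSet
  set B : ℝ := K * (e / lam) ^ (1 / ((k + 1 : ℕ):ℝ)) with hB
  have hB0 : 0 ≤ B := by
    have := Real.rpow_nonneg (div_pos he hlam).le (1 / ((k + 1 : ℕ):ℝ))
    positivity
  have hinner : ∀ x : S dm, ∫⁻ t in Icc 0 T, G.indicator (fun _ => (1:ℝ≥0∞)) (rotS hq t x) ≤
      ENNReal.ofReal B := by
    intro x
    have hcr : Continuous fun t => rotS hq t x :=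
      (continuous_rotS hq).comp (continuous_id.prodMk continuous_const)
    have hpre : MeasurableSet ((fun t => rotS hq t x) ⁻¹' G) := hcr.measurable hGm
    have e1 : ∫⁻ t in Icc 0 T, G.indicator (fun _ => (1:ℝ≥0∞)) (rotS hq t x) =
        volume (((fun t => rotS hq t x) ⁻¹' G) ∩ Icc 0 T) := by
      have : (fun t => G.indicator (fun _ => (1:ℝ≥0∞)) (rotS hq t x)) =
          ((fun t => rotS hq t x) ⁻¹' G).indicator (fun _ => (1:ℝ≥0∞)) := by
        funext t
        rfl
      rw [this, lintegral_indicator hpre, setLIntegral_one, Measure.restrict_apply hpre]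
    rw [e1]
    by_cases hex : ∃ t0 ∈ Icc 0 T, rotS hq t0 x ∈ G
    · obtain ⟨t0, ht0, hmem⟩ := hex
      have hclose : ∀ t ∈ Icc 0 T, dist (rot q t x) x0 < δ := by
        intro t ht
        have h3 := dist_rot_le hq x.2 t t0
        have h4 : dist (rot q t0 x) x0 < δ / 2 := hmem.1
        have h5 : |t - t0| ≤ T := by
          rw [abs_le]
          constructor
          · linarith [ht.1, ht0.2]
          · linarith [ht.2, ht0.1]
        calc dist (rot q t x) x0 ≤ dist (rot q t x) (rot q t0 x) + dist (rot q t0 x) x0 :=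
              dist_triangle _ _ _
          _ < 2 * |t - t0| + δ / 2 := by linarith
          _ ≤ δ := by rw [hT] at h5; linarith
      have h6 := hsub (Icc 0 T) ordConnected_Icc (fun j t => cmb f q j a (rot q t x))
        (fun j _ t _ => hasDerivAt_cmb hf hq a x.2 j t) e lam he hlam
        (fun t ht => h _ (rot_mem hq t x.2) (hclose t ht))
      refine (measure_mono ?_).trans h6
      rintro t ⟨ht, ht'⟩
      exact ⟨ht', ht.2⟩
    · push Not at hex
      have : ((fun t => rotS hq t x) ⁻¹' G) ∩ Icc 0 T = ∅ := by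
        ext t
        simp only [mem_inter_iff, mem_preimage, mem_empty_iff_false, iff_false, not_and]
        intro h1 h2
        exact hex t h2 h1
      rw [this, measure_empty]
      exact zero_le
  have havg := lintegral_avg hq T (G.indicator fun _ => (1:ℝ≥0∞)) (measurable_const.indicator hGm)
  rw [lintegral_indicator hGm, setLIntegral_one] at havg
  have h1 : ENNReal.ofReal T * sm dm G ≤ ENNReal.ofReal B * sm dm univ := by
    rw [havg]
    refine (lintegral_mono hinner).trans ?_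
    rw [lintegral_const]
  have h2 : T * (sm dm).real G ≤ B * σ := by
    have h3 := ENNReal.toReal_mono (ENNReal.mul_ne_top ENNReal.ofReal_ne_top (measure_ne_top _ _)) h1
    rw [ENNReal.toReal_mul, ENNReal.toReal_mul, ENNReal.toReal_ofReal hT0.le,
      ENNReal.toReal_ofReal hB0] at h3
    exact h3
  rw [← ofReal_measureReal]
  apply ENNReal.ofReal_le_ofReal
  have h3 : (sm dm).real G ≤ B * σ / T := by
    rw [le_div_iff₀ hT0]
    linarith
  refine h3.trans (le_of_eq ?_)
  rw [hB]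
  ring

/-- sublevel sets, positive levels -/
theorem sublevel_pos (hdm : 2 ≤ dm) {f : ι → E dm → ℝ} (hf : ∀ i, AnalyticOnNhd ℝ (f i) (S dm))
    (hind : ∀ a : ι → ℝ, (∀ x ∈ S dm, ∑ i, a i * f i x = 0) → a = 0) :
    ∃ K κ : ℝ, 0 ≤ K ∧ 0 < κ ∧ ∀ a : ι → ℝ, ‖a‖ = 1 → ∀ e : ℝ, 0 < e →
      sm dm {x : S dm | |∑ i, a i * f i x| ≤ e} ≤ ENNReal.ofReal (K * e ^ κ) := by
  classical
  have hsm : ∀ i, Sm (f i) := fun i => Sm.of_analytic (hf i)
  obtain ⟨Q, c, δ, hQ, hc, hδ, hcomp⟩ := compactness hsm univ (by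
    intro a ha x hx
    by_contra hcon
    push Not at hcon
    have h1 : ∀ y ∈ S dm, ∑ i, a i * f i y = ∑ i, a i * f i x := fun y hy =>
      nonflat hdm hf a hx (fun q hq j _ => hcon q hq j (mem_univ _)) hy
    obtain ⟨q, hq, _⟩ := exists_rot hdm hx hx
    have h2 : ∑ i, a i * f i x = 0 := hcon q hq 0 (mem_univ _)
    have h3 := hind a fun y hy => (h1 y hy).trans h2
    rw [h3, norm_zero] at ha
    exact zero_ne_one ha)
  obtain ⟨n, x, χ, hx, _, hsupp, hsum⟩ := partition (half_pos hδ)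
  have hpatch : ∀ (i : Fin n) (p : Q), ∃ C : ℝ, 0 ≤ C ∧ ∀ (a : ι → ℝ) (lam e : ℝ), 0 < lam →
      0 < e → ∀ k, p.1.2 = k + 1 → (∀ y ∈ S dm, dist y (x i) < δ → lam ≤ |cmb f p.1.1 (k + 1) a y|) →
      (sm dm) {z : S dm | dist (z : E dm) (x i) < δ / 2 ∧ |cmb f p.1.1 0 a z| ≤ e} ≤
        ENNReal.ofReal (C * (e / lam) ^ (1 / ((k + 1 : ℕ):ℝ))) := by
    intro i p
    obtain ⟨C, hC, h⟩ := sub_patch hsm (hQ p.1 p.2).1 (p.1.2 - 1) (x i) hδ
    refine ⟨C, hC, fun a lam e hl he k hk => ?_⟩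
    have h1 := h a lam e hl he
    have h2 : p.1.2 - 1 = k := by omega
    rw [h2] at h1
    exact h1
  choose CP hCP hCP' using hpatch
  set m : ℕ := Q.sup (fun p => p.2) + 1 with hm
  have hpm : ∀ p : Q, p.1.2 ≤ m := fun p =>
    (Finset.le_sup (f := fun p : (E dm × E dm) × ℕ => p.2) p.2).trans (Nat.le_succ _)
  set σ : ℝ := (sm dm).real univ with hσ
  have hσ0 : 0 ≤ σ := measureReal_nonneg
  have hm1 : (1:ℝ) ≤ m := by
    rw [hm]
    push_cast
    have : (0:ℝ) ≤ ((Q.sup (fun p => p.2) : ℕ) : ℝ) := Nat.cast_nonneg _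
    linarith
  have hm0 : (0:ℝ) < m := by linarith
  set κ : ℝ := 1 / (m:ℝ) with hκ
  have hκ0 : 0 < κ := by positivity
  have hκ1 : κ ≤ 1 := by
    rw [hκ, div_le_one hm0]
    exact hm1
  set c1 : ℝ := min c 1 with hc1
  have hc10 : 0 < c1 := lt_min hc one_pos
  have hterm : ∀ (i : Fin n) (p : Q), 0 ≤ CP i p * (1 / c1) := by
    intro i p
    have h1 := hCP i p
    positivity
  set C1 : ℝ := ∑ i : Fin n, ∑ p : Q, CP i p * (1 / c1) with hC1
  have hC10 : 0 ≤ C1 := Finset.sum_nonneg fun i _ => Finset.sum_nonneg fun p _ => hterm i p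
  refine ⟨σ / c1 + C1, κ, by positivity, hκ0, ?_⟩
  intro a ha e he
  have ha0 : a ≠ 0 := by
    rintro rfl
    rw [norm_zero] at ha
    exact zero_ne_one ha
  have heκ : 0 < e ^ κ := Real.rpow_pos_of_pos he _
  rcases le_or_gt c1 e with hce | hce
  · have h1 : sm dm {x : S dm | |∑ i, a i * f i x| ≤ e} ≤ ENNReal.ofReal σ := by
      rw [hσ, ofReal_measureReal]
      exact measure_mono (subset_univ _)
    refine h1.trans (ENNReal.ofReal_le_ofReal ?_)
    have h2 : c1 ≤ e ^ κ := by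
      have h3 : c1 ≤ c1 ^ κ := by
        have h4 := Real.rpow_le_rpow_of_exponent_ge hc10 (min_le_right _ _) hκ1
        rwa [Real.rpow_one] at h4
      exact h3.trans (Real.rpow_le_rpow hc10.le hce hκ0.le)
    have h3 : σ ≤ σ / c1 * e ^ κ := by
      rw [div_mul_eq_mul_div, le_div_iff₀ hc10]
      exact mul_le_mul_of_nonneg_left h2 hσ0
    have h4 : 0 ≤ C1 * e ^ κ := by positivity
    linarith [add_mul (σ / c1) C1 (e ^ κ)]
  · have he1 : e ≤ 1 := (hce.trans_le (min_le_right _ _)).le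
    have hec : e < c := hce.trans_le (min_le_left _ _)
    have hpt : ∀ i : Fin n, sm dm {z : S dm | dist (z : E dm) (x i) < δ / 2 ∧
        |∑ j, a j * f j z| ≤ e} ≤ ENNReal.ofReal ((∑ p : Q, CP i p * (1 / c1)) * e ^ κ) := by
      intro i
      obtain ⟨p, hp, hp'⟩ := hcomp a (x i) (hx i) ha0
      rw [ha, mul_one] at hp'
      rcases Nat.eq_zero_or_pos p.2 with h0 | h0
      · have h1 : {z : S dm | dist (z : E dm) (x i) < δ / 2 ∧ |∑ j, a j * f j z| ≤ e} = ∅ := by
          ext z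
          simp only [mem_ofPred_eq, mem_empty_iff_false, iff_false, not_and, not_le]
          intro hz
          have h2 := hp' z z.2 (by linarith)
          rw [h0] at h2
          exact hec.trans_le h2
        rw [h1, measure_empty]
        exact zero_le
      · obtain ⟨k, hk⟩ : ∃ k, p.2 = k + 1 := ⟨p.2 - 1, by omega⟩
        have h1 := hCP' i ⟨p, hp⟩ a c e hc he k hk (by
          intro y hy hyx
          have h2 := hp' y hy hyx
          rw [hk] at h2
          exact h2)
        refine h1.trans (ENNReal.ofReal_le_ofReal ?_)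
        have hk1 : (1:ℝ) ≤ ((k + 1 : ℕ):ℝ) := by
          push_cast
          have : (0:ℝ) ≤ k := Nat.cast_nonneg k
          linarith
        have hkm : ((k + 1 : ℕ):ℝ) ≤ m := by
          have := hpm ⟨p, hp⟩
          rw [← hk]
          exact_mod_cast this
        have hexp : (0:ℝ) < 1 / ((k + 1 : ℕ):ℝ) := by positivity
        have hexp1 : 1 / ((k + 1 : ℕ):ℝ) ≤ 1 := by
          rw [div_le_one (by linarith)]
          exact hk1
        have h2 : (e / c) ^ (1 / ((k + 1 : ℕ):ℝ)) ≤ 1 / c1 * e ^ κ := by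
          have h3 : (e / c) ≤ (1 / c1) * e := by
            rw [div_eq_mul_one_div, mul_comm]
            apply mul_le_mul_of_nonneg_right _ he.le
            exact one_div_le_one_div_of_le hc10 (min_le_left _ _)
          have h4 : (e / c) ^ (1 / ((k + 1 : ℕ):ℝ)) ≤ ((1 / c1) * e) ^ (1 / ((k + 1 : ℕ):ℝ)) :=
            Real.rpow_le_rpow (by positivity) h3 hexp.le
          rw [Real.mul_rpow (by positivity) he.le] at h4
          refine h4.trans ?_
          have h5 : (1 / c1) ^ (1 / ((k + 1 : ℕ):ℝ)) ≤ 1 / c1 := by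
            have h6 : (1:ℝ) ≤ 1 / c1 := by
              rw [le_div_iff₀ hc10, one_mul]
              exact min_le_right _ _
            have h7 := Real.rpow_le_rpow_of_exponent_le h6 hexp1
            rwa [Real.rpow_one] at h7
          have h6 : e ^ (1 / ((k + 1 : ℕ):ℝ)) ≤ e ^ κ := by
            apply Real.rpow_le_rpow_of_exponent_ge he he1
            rw [hκ]
            exact one_div_le_one_div_of_le (by linarith) hkm
          exact mul_le_mul h5 h6 (Real.rpow_nonneg he.le _) (by positivity)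
        calc CP i ⟨p, hp⟩ * (e / c) ^ (1 / ((k + 1 : ℕ):ℝ)) ≤ CP i ⟨p, hp⟩ * (1 / c1 * e ^ κ) :=
              mul_le_mul_of_nonneg_left h2 (hCP _ _)
          _ = (CP i ⟨p, hp⟩ * (1 / c1)) * e ^ κ := by ring
          _ ≤ _ := by
              apply mul_le_mul_of_nonneg_right _ heκ.le
              exact Finset.single_le_sum (f := fun p : Q => CP i p * (1 / c1))
                (fun p _ => hterm i p) (Finset.mem_univ _)
    have hcov : {z : S dm | |∑ j, a j * f j z| ≤ e} ⊆
        ⋃ i : Fin n, {z : S dm | dist (z : E dm) (x i) < δ / 2 ∧ |∑ j, a j * f j z| ≤ e} := by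
      intro z hz
      have h1 := hsum z z.2
      obtain ⟨i, _, hi⟩ := Finset.exists_ne_zero_of_sum_ne_zero (by rw [h1]; exact one_ne_zero)
      rw [mem_iUnion]
      exact ⟨i, hsupp i z hi, hz⟩
    calc sm dm {z : S dm | |∑ j, a j * f j z| ≤ e}
        ≤ ∑ i : Fin n, sm dm {z : S dm | dist (z : E dm) (x i) < δ / 2 ∧ |∑ j, a j * f j z| ≤ e} :=
          (measure_mono hcov).trans (measure_iUnion_fintype_le _ _)
      _ ≤ ∑ i : Fin n, ENNReal.ofReal ((∑ p : Q, CP i p * (1 / c1)) * e ^ κ) :=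
          Finset.sum_le_sum fun i _ => hpt i
      _ = ENNReal.ofReal (C1 * e ^ κ) := by
          rw [← ENNReal.ofReal_sum_of_nonneg, hC1, Finset.sum_mul]
          intro i _
          have := Finset.sum_nonneg fun (p : Q) (_ : p ∈ Finset.univ) => hterm i p
          positivity
      _ ≤ ENNReal.ofReal ((σ / c1 + C1) * e ^ κ) := by
          apply ENNReal.ofReal_le_ofReal
          apply mul_le_mul_of_nonneg_right _ heκ.le
          have : 0 ≤ σ / c1 := by positivity
          linarith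

/-- sublevel sets of an independent family -/
theorem sublevel (hdm : 2 ≤ dm) {d : ℕ} (φ : Fin d → E dm → ℝ)
    (ha : ∀ j, AnalyticOnNhd ℝ (φ j) (Metric.sphere 0 1))
    (hi : ∀ a : Fin d → ℝ, (∀ x : E dm, ‖x‖ = 1 → VAN.fam φ a x = 0) → a = 0) :
    ∃ K κ : ℝ, 0 ≤ K ∧ 0 < κ ∧ ∀ c : Fin d → ℝ, ‖c‖ = 1 → ∀ δ : ℝ, 0 ≤ δ →
      sm dm {x : S dm | |VAN.fam φ c x| ≤ δ} ≤ ENNReal.ofReal (K * δ ^ κ) := by
  obtain ⟨K, κ, hK, hκ, h⟩ := sublevel_pos hdm (f := φ) ha (fun a h => hi a fun x hx =>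
    h x (by simpa using hx))
  refine ⟨K, κ, hK, hκ, fun c hc δ hδ => ?_⟩
  have hcont : Continuous (fun e : ℝ => ENNReal.ofReal (K * e ^ κ)) :=
    ENNReal.continuous_ofReal.comp (continuous_const.mul
      (continuous_id.rpow_const fun x => Or.inr hκ.le))
  have ht : Tendsto (fun e : ℝ => ENNReal.ofReal (K * e ^ κ)) (nhdsWithin δ (Ioi δ))
      (nhds (ENNReal.ofReal (K * δ ^ κ))) := (hcont.tendsto δ).mono_left nhdsWithin_le_nhds
  refine ge_of_tendsto ht ?_
  filter_upwards [self_mem_nhdsWithin] with e he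
  refine le_trans (measure_mono ?_) (h c hc e (lt_of_le_of_lt hδ he))
  intro x hx
  have h1 : |VAN.fam φ c x| ≤ δ := hx
  show |∑ i, c i * φ i x| ≤ e
  exact h1.trans (le_of_lt he)


end Pool.Agent.QPH.I

namespace Pool.Agent.QPH

open MeasureTheory Set Pool.Agent.MP_6cbfb8_an
open scoped ENNReal Real

/-- `1` or a variable. -/
noncomputable def iMo {n : ℕ} : Option (Fin n) → MvPolynomial (Fin n) ℝ
  | none => 1
  | some i => MvPolynomial.X i

lemma iMo_deg {n : ℕ} (o : Option (Fin n)) : (iMo o).totalDegree ≤ 1 := by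
  cases o with
  | none => simp [iMo]
  | some i => simp [iMo, MvPolynomial.totalDegree_X]

lemma iMo_analytic {n : ℕ} (o : Option (Fin n)) (s : Set (E n)) :
    AnalyticOnNhd ℝ (fun x : E n => MvPolynomial.eval (fun i => x i) (iMo o)) s := by
  intro x _
  cases o with
  | none =>
    simp only [iMo, map_one]
    exact analyticAt_const
  | some i =>
    simp only [iMo, MvPolynomial.eval_X]
    exact (EuclideanSpace.proj (𝕜 := ℝ) i : E n →L[ℝ] ℝ).analyticAt x

lemma iMono1 {n : ℕ} (m : Fin n →₀ ℕ) (hm : m.degree ≤ 1) :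
    ∃ o, iMo o = MvPolynomial.monomial m (1 : ℝ) := by
  by_cases h : m = 0
  · refine ⟨none, ?_⟩
    rw [h]
    rfl
  · obtain ⟨i, hi⟩ := Finsupp.ne_iff.1 h
    have h1 : Finsupp.single i 1 ≤ m := by
      rw [Finsupp.single_le_iff]
      exact Nat.one_le_iff_ne_zero.2 hi
    obtain ⟨m', rfl⟩ := exists_add_of_le h1
    have h2 : m' = 0 := by
      rw [map_add, Finsupp.degree_single] at hm
      exact (Finsupp.degree_eq_zero_iff m').1 (by omega)
    refine ⟨some i, ?_⟩
    rw [h2, add_zero]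
    rfl

lemma iMono2 {n : ℕ} (m : Fin n →₀ ℕ) (hm : m.degree ≤ 2) :
    ∃ o o', iMo o * iMo o' = MvPolynomial.monomial m (1 : ℝ) := by
  by_cases h : m = 0
  · refine ⟨none, none, ?_⟩
    rw [h]
    show (1 : MvPolynomial (Fin n) ℝ) * 1 = _
    rw [one_mul]
    rfl
  · obtain ⟨i, hi⟩ := Finsupp.ne_iff.1 h
    have h1 : Finsupp.single i 1 ≤ m := by
      rw [Finsupp.single_le_iff]
      exact Nat.one_le_iff_ne_zero.2 hi
    obtain ⟨m', rfl⟩ := exists_add_of_le h1
    rw [map_add, Finsupp.degree_single] at hm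
    obtain ⟨o', ho'⟩ := iMono1 m' (by omega)
    refine ⟨some i, o', ?_⟩
    rw [ho']
    show MvPolynomial.X i * _ = _
    rw [MvPolynomial.X, MvPolynomial.monomial_mul, one_mul]

lemma iSpan {n : ℕ} (P : MvPolynomial (Fin n) ℝ) (hP : P.totalDegree ≤ 2) :
    P ∈ Submodule.span ℝ (range fun o : Option (Fin n) × Option (Fin n) => iMo o.1 * iMo o.2) := by
  rw [← MvPolynomial.support_sum_monomial_coeff P]
  refine Submodule.sum_mem _ fun m hm => ?_
  have h1 : m.degree ≤ 2 := (MvPolynomial.le_totalDegree hm).trans hP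
  obtain ⟨o, o', h⟩ := iMono2 m h1
  have h2 : MvPolynomial.monomial m (P.coeff m) = P.coeff m • MvPolynomial.monomial m (1 : ℝ) := by
    rw [MvPolynomial.smul_monomial, smul_eq_mul, mul_one]
  rw [h2, ← h]
  exact Submodule.smul_mem _ _ (Submodule.subset_span ⟨(o, o'), rfl⟩)

/-- ROW I: the family of the monomials of degree at most two. -/
theorem quad_family (n : ℕ) (hn : 2 ≤ n) : ∃ (d : ℕ) (φ : Fin d → MvPolynomial (Fin n) ℝ),
    (∀ j, (φ j).totalDegree ≤ 2) ∧
    (∀ P : MvPolynomial (Fin n) ℝ, P.totalDegree ≤ 2 → ∃ c : Fin d → ℝ, ∀ x : E n, ‖x‖ = 1 →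
      MvPolynomial.eval (fun i => x i) P =
        VAN.fam (fun j (x : E n) => MvPolynomial.eval (fun i => x i) (φ j)) c x) ∧
    ∃ K κ : ℝ, 0 ≤ K ∧ 0 < κ ∧ ∀ c : Fin d → ℝ, ‖c‖ = 1 → ∀ δ : ℝ, 0 ≤ δ →
      sm n {x : S n | |VAN.fam (fun j (x : E n) => MvPolynomial.eval (fun i => x i) (φ j)) c x|
        ≤ δ} ≤ ENNReal.ofReal (K * δ ^ κ) := by
  classical
  let e : Fin (Fintype.card (Option (Fin n) × Option (Fin n))) ≃ Option (Fin n) × Option (Fin n) :=
    (Fintype.equivFin _).symm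
  let v : Fin (Fintype.card (Option (Fin n) × Option (Fin n))) → MvPolynomial (Fin n) ℝ :=
    fun k => iMo (e k).1 * iMo (e k).2
  let F : Fin (Fintype.card (Option (Fin n) × Option (Fin n))) → E n → ℝ :=
    fun k x => MvPolynomial.eval (fun i => x i) (v k)
  obtain ⟨k, σ, _, hind, L, hL⟩ := VAN.fam_reduce_zero F
  refine ⟨k, fun j => v (σ j), ?_, ?_, ?_⟩
  · intro j
    refine (MvPolynomial.totalDegree_mul _ _).trans ?_
    exact add_le_add (iMo_deg _) (iMo_deg _)
  · intro P hP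
    obtain ⟨c, hc⟩ : ∃ c : Fin (Fintype.card (Option (Fin n) × Option (Fin n))) → ℝ,
        ∑ k, c k • v k = P := by
      have h1 := iSpan P hP
      rw [Submodule.mem_span_range_iff_exists_fun] at h1
      obtain ⟨c, hc⟩ := h1
      refine ⟨fun k => c (e k), ?_⟩
      rw [← hc]
      exact Fintype.sum_equiv e _ _ fun k => rfl
    refine ⟨L c, fun x hx => ?_⟩
    refine Eq.trans ?_ (hL c x hx)
    unfold VAN.fam
    rw [← hc, map_sum]
    refine Finset.sum_congr rfl fun i _ => ?_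
    rw [MvPolynomial.smul_eval]
  · refine I.sublevel hn _ (fun j => ?_) hind
    have h1 := (iMo_analytic (e (σ j)).1 (Metric.sphere (0 : E n) 1)).mul
      (iMo_analytic (e (σ j)).2 (Metric.sphere (0 : E n) 1))
    have h2 : (fun x : E n => MvPolynomial.eval (fun i => x i) (v (σ j))) = fun x : E n =>
        MvPolynomial.eval (fun i => x i) (iMo (e (σ j)).1) *
          MvPolynomial.eval (fun i => x i) (iMo (e (σ j)).2) := by
      funext x
      exact map_mul _ _ _
    show AnalyticOnNhd ℝ (fun x : E n => MvPolynomial.eval (fun i => x i) (v (σ j))) _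
    rw [h2]
    exact h1

end Pool.Agent.QPH
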