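import Pool.Agent.QPH.Poln
import Pool.Agent.QPH.H
import Pool.Agent.QPH.I
import Pool.Agent.VAN.F
import Pool.Agent.MP_6cbfb8_an.Super

/-!
Assembly: cuts and superpositions.
-/

namespace Pool.Agent.QPH

open MeasureTheory Set Pool.Agent.MP_6cbfb8_an
open scoped ENNReal Real

lemma J_continuous_eval {n : ℕ} (P : MvPolynomial (Fin n) ℝ) :
    Continuous fun x : E n => MvPolynomial.eval (fun i => x i) P := by
  have h1 : Continuous fun x : E n => (fun i => x i : Fin n → ℝ) := by fun_prop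
  exact (MvPolynomial.continuous_eval P).comp h1

lemma J_congr {n : ℕ} {g g' : E n → ℂ} (h : ∀ x : E n, ‖x‖ = 1 → g x = g' x) :
    extn g = extn g' := by
  funext ξ
  unfold extn
  refine integral_congr_ae (Filter.Eventually.of_forall fun x => ?_)
  simp only
  rw [h x (by simp)]

/-- Phases and cuts, one density. -/
theorem cut_bound (n N : ℕ) (hn : 3 ≤ n) (p : ℝ) (hp : 2 * (n : ℝ) / (n - 1) < p) :
    ∃ C : ℝ≥0∞, C ≠ ∞ ∧
      ∀ (P : MvPolynomial (Fin n) ℝ) (Q : Fin N → MvPolynomial (Fin n) ℝ), P.totalDegree ≤ 2 →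
        (∀ i, (Q i).totalDegree ≤ 2) → ∫⁻ ξ, ‖extn (poln P Q) ξ‖ₑ ^ p ≤ C := by
  obtain ⟨d, φ, hφ, hspan, K, κ, hK, hκ, hsub⟩ := quad_family n (by omega)
  have hn' : (3 : ℝ) ≤ n := by exact_mod_cast hn
  have hp0 : 1 ≤ 2 * (n : ℝ) / (n - 1) := by
    rw [le_div_iff₀ (by linarith)]
    linarith
  have hbd : ∃ K : ℝ, ∀ j : Fin d, ∀ x : E n, ‖x‖ = 1 →
      |MvPolynomial.eval (fun i => x i) (φ j)| ≤ K := by
    have hK : ∀ j : Fin d, ∃ K : ℝ, ∀ x : E n, ‖x‖ = 1 →
        |MvPolynomial.eval (fun i => x i) (φ j)| ≤ K := by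
      intro j
      obtain ⟨K, hK⟩ := (isCompact_sphere (0 : E n) 1).exists_bound_of_continuousOn
        (J_continuous_eval (φ j)).continuousOn
      exact ⟨K, fun x hx => by simpa using hK x (by simpa using hx)⟩
    choose K hK using hK
    refine ⟨∑ j, |K j|, fun j x hx => (hK j x hx).trans ((le_abs_self _).trans ?_)⟩
    exact Finset.single_le_sum (f := fun j => |K j|) (fun i _ => abs_nonneg _) (Finset.mem_univ j)
  obtain ⟨C, hC, h⟩ := VAN.cuts (2 * (n : ℝ) / (n - 1)) hp0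
    (fun j (x : E n) => MvPolynomial.eval (fun i => x i) (φ j))
    (fun j => (J_continuous_eval (φ j)).measurable) hbd ⟨K, κ, hK, hκ, hsub⟩
    (fun q hq => by
      obtain ⟨C, hC, h⟩ := quad_bound n hn q hq
      refine ⟨C, hC, fun c => ?_⟩
      have h1 := h (∑ j, MvPolynomial.C (c j) * φ j) (by
        refine MvPolynomial.totalDegree_finsetSum_le fun j _ => ?_
        refine (MvPolynomial.totalDegree_mul _ _).trans ?_
        rw [MvPolynomial.totalDegree_C, zero_add]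
        exact hφ j)
      refine le_trans (le_of_eq ?_) h1
      refine lintegral_congr fun ξ => ?_
      congr 3
      funext x
      congr 3
      unfold VAN.fam
      simp) N p hp
  refine ⟨C, hC, fun P Q hP hQ => ?_⟩
  obtain ⟨c, hc⟩ := hspan P hP
  choose cs hcs using fun i => hspan (Q i) (hQ i)
  refine le_trans (le_of_eq ?_) (h c cs)
  rw [J_congr (g := poln P Q) (g' := VAN.famc _ c cs)]
  intro x hx
  unfold poln VAN.famc
  rw [hc x hx]
  congr 1
  exact Finset.prod_congr rfl fun i _ => by rw [hcs i x hx]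

lemma J_norm_poln_le {n N : ℕ} (P : MvPolynomial (Fin n) ℝ) (Q : Fin N → MvPolynomial (Fin n) ℝ)
    (x : E n) : ‖poln P Q x‖ ≤ 1 := by
  unfold poln
  rw [norm_mul, Complex.norm_exp_ofReal_mul_I, one_mul, norm_prod]
  refine Finset.prod_le_one (fun i _ => norm_nonneg _) fun i _ => ?_
  split_ifs <;> simp

theorem result_J' (n N : ℕ) (hn : 3 ≤ n) (p : ℝ) (hp : 2 * (n : ℝ) / (n - 1) < p) :
    ∃ C : ℝ≥0∞, C ≠ ∞ ∧
      ∀ (W : Type) (_ : MeasurableSpace W) (ν : Measure W) (_ : IsFiniteMeasure ν)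
        (R : W → (E n ≃ₗᵢ[ℝ] E n)) (η : W → E n) (P : W → MvPolynomial (Fin n) ℝ)
        (Q : W → Fin N → MvPolynomial (Fin n) ℝ),
        (Measurable fun q : W × E n => R q.1 q.2) → Measurable η →
        (Measurable fun q : W × E n => MvPolynomial.eval (fun i => q.2 i) (P q.1)) →
        (∀ i, Measurable fun q : W × E n => MvPolynomial.eval (fun j => q.2 j) (Q q.1 i)) →
        (∀ w, (P w).totalDegree ≤ 2) → (∀ w i, (Q w i).totalDegree ≤ 2) →
        ∫⁻ ξ, ‖extn (mix ν R η fun w => poln (P w) (Q w)) ξ‖ₑ ^ p ≤ C * ν univ ^ p := by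
  obtain ⟨C, hC, h⟩ := cut_bound n N hn p hp
  have hn' : (3 : ℝ) ≤ n := by exact_mod_cast hn
  have hp1 : 1 ≤ p := by
    refine le_trans ?_ hp.le
    rw [le_div_iff₀ (by linarith)]
    linarith
  refine ⟨C, hC, fun W _ ν _ R η P Q hR hη hP hQ hPd hQd => ?_⟩
  refine lintegral_mix_le hp1 (fun g => ∃ (P : MvPolynomial (Fin n) ℝ)
    (Q : Fin N → MvPolynomial (Fin n) ℝ), P.totalDegree ≤ 2 ∧ (∀ i, (Q i).totalDegree ≤ 2) ∧
      g = poln P Q) ?_ ν R η (fun w => poln (P w) (Q w)) hR hη ?_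
    (fun w x => J_norm_poln_le _ _ _) fun w => ⟨P w, Q w, hPd w, hQd w, rfl⟩
  · rintro g _ _ ⟨P, Q, hP, hQ, rfl⟩
    exact h P Q hP hQ
  · unfold poln
    simp only [Function.uncurry_def]
    refine Measurable.mul ?_ (Finset.measurable_prod _ fun i _ => ?_)
    · exact Complex.measurable_exp.comp ((Complex.measurable_ofReal.comp hP).mul_const _)
    · exact Measurable.ite (measurableSet_lt measurable_const (hQ i)) measurable_const
        measurable_const

/-- Superpositions. -/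
theorem superposition_bound (n N : ℕ) (hn : 3 ≤ n) (p : ℝ) (hp : 2 * (n : ℝ) / (n - 1) < p) :
    ∃ C : ℝ≥0∞, C ≠ ∞ ∧
      (∀ (P : MvPolynomial (Fin n) ℝ) (Q : Fin N → MvPolynomial (Fin n) ℝ), P.totalDegree ≤ 2 →
        (∀ i, (Q i).totalDegree ≤ 2) → ∫⁻ ξ, ‖extn (poln P Q) ξ‖ₑ ^ p ≤ C) ∧
      ∀ (W : Type) (_ : MeasurableSpace W) (ν : Measure W) (_ : IsFiniteMeasure ν)
        (P : W → MvPolynomial (Fin n) ℝ) (Q : W → Fin N → MvPolynomial (Fin n) ℝ),
        (Measurable fun q : W × E n => MvPolynomial.eval (fun i => q.2 i) (P q.1)) →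
        (∀ i, Measurable fun q : W × E n => MvPolynomial.eval (fun j => q.2 j) (Q q.1 i)) →
        (∀ w, (P w).totalDegree ≤ 2) → (∀ w i, (Q w i).totalDegree ≤ 2) →
        ∫⁻ ξ, ‖extn (fun x => ∫ w, poln (P w) (Q w) x ∂ν) ξ‖ₑ ^ p ≤ C * ν univ ^ p := by
  obtain ⟨C1, hC1, h1⟩ := cut_bound n N hn p hp
  obtain ⟨C2, hC2, h2⟩ := result_J' n N hn p hp
  refine ⟨C1 + C2, ENNReal.add_ne_top.2 ⟨hC1, hC2⟩,
    fun P Q hP hQ => (h1 P Q hP hQ).trans le_self_add, ?_⟩
  intro W mW ν hν P Q hP hQ hPd hQd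
  have h3 := h2 W mW ν hν (fun _ => LinearIsometryEquiv.refl ℝ (E n)) (fun _ => 0) P Q
    (by simpa using measurable_snd) measurable_const hP hQ hPd hQd
  have h4 : (mix ν (fun _ => LinearIsometryEquiv.refl ℝ (E n)) (fun _ => (0 : E n))
      fun w => poln (P w) (Q w)) = fun x => ∫ w, poln (P w) (Q w) x ∂ν := by
    funext x
    unfold mix
    refine integral_congr_ae (Filter.Eventually.of_forall fun w => ?_)
    simp
  rw [h4] at h3
  exact h3.trans (mul_le_mul_left le_add_self _)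

end Pool.Agent.QPH
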