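import Pool.Agent.MP_6cbfb8_an.Defs

/-!
Quadratic phases with quadratic cuts.
-/

namespace Pool.Agent.QPH

open Pool.Agent.MP_6cbfb8_an

/-- The function `e^{iP} ∏ 1_{Q_i > 0}`, `P` and `Q_i` polynomials in `n` variables. -/
noncomputable def poln {n : ℕ} (P : MvPolynomial (Fin n) ℝ) {N : ℕ}
    (Q : Fin N → MvPolynomial (Fin n) ℝ) (x : E n) : ℂ :=
  Complex.exp (((MvPolynomial.eval (fun i => x i) P : ℝ) : ℂ) * Complex.I) *
    ∏ i, if 0 < MvPolynomial.eval (fun j => x j) (Q i) then 1 else 0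

end Pool.Agent.QPH
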